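import Mathlib
import Pool.Agent.V11226.ETN.Exp

/-!
# A large sieve inequality for well spaced points modulo one

Elementary version with the Fejér kernel, in the form needed for mean values of Weyl sums.
-/

set_option autoImplicit false

namespace Pool.Agent.W2helper84.RB

open Finset
open Pool.Agent.V11226.ETN (e e_add e_zero norm_e e_int e_nsmul e_neg conj_e e_add_int)

/-- distance to the nearest integer -/
noncomputable def dz (t : ℝ) : ℝ := |t - round t|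

theorem dz_nonneg (t : ℝ) : 0 ≤ dz t := abs_nonneg _

theorem dz_le_half (t : ℝ) : dz t ≤ 1 / 2 := abs_sub_round t

theorem dz_le (t : ℝ) (n : ℤ) : dz t ≤ |t - n| := round_le t n

theorem dz_neg (t : ℝ) : dz (-t) = dz t := by
  apply le_antisymm
  · have h := dz_le (-t) (-round t)
    push_cast at h
    rw [show -t - -(round t : ℝ) = -(t - round t) by ring, abs_neg] at h
    exact h
  · have h := dz_le t (-round (-t))
    push_cast at h
    rw [show t - -(round (-t) : ℝ) = -(-t - round (-t)) by ring, abs_neg] at h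
    exact h

/-- the Dirichlet sum -/
noncomputable def D (g : ℕ) (x : ℝ) : ℂ := ∑ j ∈ range g, e ((j : ℝ) * x)

theorem norm_D_le (g : ℕ) (x : ℝ) : ‖D g x‖ ≤ g := by
  unfold D
  refine (norm_sum_le _ _).trans ?_
  simp [norm_e]

theorem four_dz_le (x : ℝ) : 4 * dz x ≤ ‖e x - 1‖ := by
  have h1 : e x = e (x - round x) := by
    have := e_add_int (x - round x) (round x)
    rw [sub_add_cancel] at this
    exact this
  rw [h1]
  obtain ⟨y, hy⟩ : ∃ y : ℝ, y = x - round x := ⟨_, rfl⟩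
  have hd : dz x = |y| := by rw [hy]; rfl
  rw [hd, ← hy]
  have hy2 : |y| ≤ 1 / 2 := by rw [← hd]; exact dz_le_half x
  have h2 : ‖e y - 1‖ = 2 * |Real.sin (Real.pi * y)| := by
    unfold Pool.Agent.V11226.ETN.e
    have h1 : (2 * Real.pi * y * Complex.I : ℂ) = Complex.I * ((2 * Real.pi * y : ℝ) : ℂ) := by
      push_cast; ring
    rw [h1, Complex.norm_exp_I_mul_ofReal_sub_one]
    rw [Real.norm_eq_abs, abs_mul]
    norm_num
    congr 1
    ring
  rw [h2]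
  have h3 : |Real.sin (Real.pi * y)| = Real.sin (Real.pi * |y|) := by
    rcases le_total 0 y with h | h
    · rw [abs_of_nonneg h, abs_of_nonneg]
      apply Real.sin_nonneg_of_nonneg_of_le_pi
      · have := Real.pi_pos; positivity
      · rw [abs_of_nonneg h] at hy2
        have := Real.pi_pos
        nlinarith
    · rw [abs_of_nonpos h, mul_neg, Real.sin_neg, abs_of_nonpos]
      rw [abs_of_nonpos h] at hy2
      have h4 : 0 ≤ Real.sin (Real.pi * (-y)) := by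
        apply Real.sin_nonneg_of_nonneg_of_le_pi
        · have := Real.pi_pos
          have h5 : 0 ≤ -y := by linarith
          positivity
        · have := Real.pi_pos
          nlinarith
      rw [mul_neg, Real.sin_neg] at h4
      linarith
  rw [h3]
  have hpi := Real.pi_pos
  have h4 := Real.mul_le_sin (x := Real.pi * |y|) (by positivity) (by nlinarith)
  have h5 : 2 / Real.pi * (Real.pi * |y|) = 2 * |y| := by field_simp
  rw [h5] at h4
  linarith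

theorem norm_D_dz (g : ℕ) (x : ℝ) : ‖D g x‖ * (2 * dz x) ≤ 1 := by
  have h3 : (e x - 1) * D g x = e (g * x) - 1 := by
    unfold D
    have h4 : ∑ j ∈ range g, e ((j : ℝ) * x) = ∑ j ∈ range g, e x ^ j :=
      Finset.sum_congr rfl fun j _ => e_nsmul j x
    rw [h4, mul_comm, geom_sum_mul, e_nsmul]
  have h4 : ‖e x - 1‖ * ‖D g x‖ ≤ 2 := by
    rw [← norm_mul, h3]
    refine (norm_sub_le _ _).trans ?_
    rw [norm_e, norm_one]; norm_num
  have h5 := four_dz_le x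
  have h6 : 4 * dz x * ‖D g x‖ ≤ 2 := le_trans (mul_le_mul_of_nonneg_right h5 (norm_nonneg _)) h4
  nlinarith

theorem sum_inv_sq_le (L : ℕ) : ∑ l ∈ Icc 1 L, (1 : ℝ) / (l : ℝ) ^ 2 ≤ 2 := by
  rcases Nat.eq_zero_or_pos L with rfl | hL
  · simp
  · suffices h : ∑ l ∈ Icc 1 L, (1 : ℝ) / (l : ℝ) ^ 2 ≤ 2 - 1 / L by
      have : (0 : ℝ) ≤ 1 / L := by positivity
      linarith
    induction L, hL using Nat.le_induction with
    | base => norm_num
    | succ n hn ih =>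
      rw [Finset.sum_Icc_succ_top (by omega)]
      have hn0 : (0 : ℝ) < n := by exact_mod_cast hn
      have h1 : (1 : ℝ) / ((n + 1 : ℕ) : ℝ) ^ 2 ≤ 1 / n - 1 / ((n + 1 : ℕ) : ℝ) := by
        push_cast
        rw [div_sub_div _ _ (by positivity) (by positivity), div_le_div_iff₀ (by positivity) (by positivity)]
        nlinarith
      linarith

/-- the sum over the other points -/
theorem sum_other {ι : Type*} [DecidableEq ι] (Y : Finset ι) (β : ι → ℝ) (δ : ℝ) (hδ : 0 < δ)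
    (hsep : ∀ y ∈ Y, ∀ y' ∈ Y, y ≠ y' → δ ≤ dz (β y - β y')) (y : ι) (hy : y ∈ Y) (g : ℕ) :
    ∑ y' ∈ Y.erase y, ‖D g (β y - β y')‖ ^ 2 ≤ 1 / δ ^ 2 := by
  classical
  -- the signed representative
  obtain ⟨ρ, hρ⟩ : ∃ ρ : ι → ℝ, ∀ y', ρ y' = (β y - β y') - round (β y - β y') :=
    ⟨fun y' => (β y - β y') - round (β y - β y'), fun _ => rfl⟩
  have hdz : ∀ y', dz (β y - β y') = |ρ y'| := fun y' => by rw [hρ]; rfl
  obtain ⟨L, hL⟩ : ∃ L : ℕ, L = ⌊1 / (2 * δ)⌋₊ := ⟨_, rfl⟩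
  obtain ⟨F, hF⟩ : ∃ F : ι → Bool × ℕ, ∀ y', F y' = (decide (0 ≤ ρ y'), ⌊|ρ y'| / δ⌋₊) :=
    ⟨fun y' => (decide (0 ≤ ρ y'), ⌊|ρ y'| / δ⌋₊), fun _ => rfl⟩
  have hmem : ∀ y' ∈ Y.erase y, F y' ∈ (univ : Finset Bool) ×ˢ Icc 1 L := by
    intro y' hy'
    rw [mem_erase] at hy'
    have h1 := hsep y hy y' hy'.2 (Ne.symm hy'.1)
    have h2 := dz_le_half (β y - β y')
    rw [hdz] at h1 h2
    rw [hF, mem_product]
    refine ⟨mem_univ _, mem_Icc.2 ⟨?_, ?_⟩⟩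
    · rw [Nat.one_le_floor_iff, one_le_div hδ]
      exact h1
    · rw [hL]
      apply Nat.floor_le_floor
      rw [div_le_div_iff₀ hδ (by positivity)]
      nlinarith
  have hinj : Set.InjOn F (Y.erase y : Finset ι) := by
    intro a ha b hb hab
    by_contra hne
    rw [mem_coe, mem_erase] at ha hb
    have h1 := hsep a ha.2 b hb.2 hne
    rw [hF, hF, Prod.mk.injEq] at hab
    obtain ⟨hs, hf⟩ := hab
    have hlt : |ρ a - ρ b| < δ := by
      have hfa1 := Nat.floor_le (show 0 ≤ |ρ a| / δ by positivity)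
      have hfa2 := Nat.lt_floor_add_one (|ρ a| / δ)
      have hfb1 := Nat.floor_le (show 0 ≤ |ρ b| / δ by positivity)
      have hfb2 := Nat.lt_floor_add_one (|ρ b| / δ)
      rw [hf] at hfa1 hfa2
      have h3 : |ρ a| / δ - |ρ b| / δ < 1 := by linarith
      have h4 : |ρ b| / δ - |ρ a| / δ < 1 := by linarith
      rw [← sub_div, div_lt_one hδ] at h3 h4
      have hsgn : (0 ≤ ρ a ↔ 0 ≤ ρ b) := by simpa using hs
      by_cases h0 : 0 ≤ ρ a
      · have h0' := hsgn.1 h0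
        rw [abs_of_nonneg h0, abs_of_nonneg h0'] at h3 h4
        rw [abs_lt]
        constructor <;> linarith
      · have h0' : ¬ 0 ≤ ρ b := fun h => h0 (hsgn.2 h)
        push Not at h0 h0'
        rw [abs_of_neg h0, abs_of_neg h0'] at h3 h4
        rw [abs_lt]
        constructor <;> linarith
    have h2 := dz_le (β a - β b) (round (β y - β b) - round (β y - β a))
    have h5 : β a - β b - ((round (β y - β b) - round (β y - β a) : ℤ) : ℝ) = -(ρ a - ρ b) := by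
      rw [hρ, hρ]
      push_cast
      ring
    rw [h5, abs_neg] at h2
    linarith
  have hterm : ∀ y' ∈ Y.erase y, ‖D g (β y - β y')‖ ^ 2 ≤
      (1 : ℝ) / (4 * δ ^ 2) * (1 / ((F y').2 : ℝ) ^ 2) := by
    intro y' hy'
    have h0 := hmem y' hy'
    rw [mem_product, mem_Icc] at h0
    have h1 : (1 : ℝ) ≤ (F y').2 := by exact_mod_cast h0.2.1
    have h2 : ((F y').2 : ℝ) * δ ≤ dz (β y - β y') := by
      rw [hdz, hF]
      have := Nat.floor_le (show 0 ≤ |ρ y'| / δ by positivity)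
      rwa [le_div_iff₀ hδ] at this
    have h3 := norm_D_dz g (β y - β y')
    have h4 : ‖D g (β y - β y')‖ * (2 * (((F y').2 : ℝ) * δ)) ≤ 1 :=
      le_trans (mul_le_mul_of_nonneg_left (by linarith) (norm_nonneg _)) h3
    have h5 : ‖D g (β y - β y')‖ ≤ 1 / (2 * (((F y').2 : ℝ) * δ)) := by
      rw [le_div_iff₀ (by positivity)]
      exact h4
    calc ‖D g (β y - β y')‖ ^ 2 ≤ (1 / (2 * (((F y').2 : ℝ) * δ))) ^ 2 :=
          pow_le_pow_left₀ (norm_nonneg _) h5 2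
      _ = _ := by
          rw [div_pow, one_pow, mul_pow, mul_pow, div_mul_div_comm, one_mul]
          congr 1
          ring
  calc ∑ y' ∈ Y.erase y, ‖D g (β y - β y')‖ ^ 2 ≤
      ∑ y' ∈ Y.erase y, (1 : ℝ) / (4 * δ ^ 2) * (1 / ((F y').2 : ℝ) ^ 2) := sum_le_sum hterm
    _ = ∑ z ∈ (Y.erase y).image F, (1 : ℝ) / (4 * δ ^ 2) * (1 / (z.2 : ℝ) ^ 2) := by
        rw [sum_image hinj]
    _ ≤ ∑ z ∈ (univ : Finset Bool) ×ˢ Icc 1 L, (1 : ℝ) / (4 * δ ^ 2) * (1 / (z.2 : ℝ) ^ 2) := by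
        refine sum_le_sum_of_subset_of_nonneg ?_ fun z _ _ => by positivity
        intro z hz
        rw [mem_image] at hz
        obtain ⟨y', hy', rfl⟩ := hz
        exact hmem y' hy'
    _ = (1 : ℝ) / (4 * δ ^ 2) * (2 * ∑ l ∈ Icc 1 L, (1 : ℝ) / (l : ℝ) ^ 2) := by
        rw [sum_product]
        simp only [← mul_sum, sum_const, card_univ, Fintype.card_bool, nsmul_eq_mul]
        push_cast
        ring
    _ ≤ (1 : ℝ) / (4 * δ ^ 2) * (2 * 2) :=
        mul_le_mul_of_nonneg_left (by linarith [sum_inv_sq_le L]) (by positivity)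
    _ = 1 / δ ^ 2 := by
        field_simp
        norm_num

/-- the dual form -/
theorem dual {ι : Type*} (Y : Finset ι) (β : ι → ℝ) (δ : ℝ) (hδ : 0 < δ) (M : ℕ) (hM : 1 ≤ M)
    (hδM : 1 ≤ δ * M)
    (hsep : ∀ y ∈ Y, ∀ y' ∈ Y, y ≠ y' → δ ≤ dz (β y - β y')) (b : ι → ℂ) :
    ∑ n ∈ range (M + 1), ‖∑ y ∈ Y, b y * e ((n : ℝ) * β y)‖ ^ 2 ≤ 5 * M * ∑ y ∈ Y, ‖b y‖ ^ 2 := by
  classical
  have hM0 : (0 : ℝ) < M := by exact_mod_cast hM
  obtain ⟨T, hT⟩ : ∃ T : ℤ → ℂ, ∀ n, T n = ∑ y ∈ Y, b y * e ((n : ℝ) * β y) :=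
    ⟨fun n => ∑ y ∈ Y, b y * e ((n : ℝ) * β y), fun _ => rfl⟩
  -- from a single sum to the double sum
  have h1 : (M : ℝ) * ∑ n ∈ range (M + 1), ‖T n‖ ^ 2 ≤
      ∑ i ∈ range (2 * M), ∑ j ∈ range (2 * M), ‖T ((i : ℤ) - j)‖ ^ 2 := by
    have h2 : (M : ℝ) * ∑ n ∈ range (M + 1), ‖T n‖ ^ 2 =
        ∑ z ∈ range M ×ˢ range (M + 1), ‖T (z.2 : ℤ)‖ ^ 2 := by
      rw [sum_product]
      simp
    rw [h2, ← sum_product']
    have h3 : ∑ z ∈ range M ×ˢ range (M + 1), ‖T (z.2 : ℤ)‖ ^ 2 =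
        ∑ z ∈ (range M ×ˢ range (M + 1)).image (fun z : ℕ × ℕ => (z.1 + z.2, z.1)),
          ‖T ((z.1 : ℤ) - z.2)‖ ^ 2 := by
      rw [sum_image]
      · refine sum_congr rfl fun z _ => ?_
        push_cast
        rw [add_sub_cancel_left]
      · intro a _ b _ hab
        simp only [Prod.mk.injEq] at hab
        ext <;> omega
    rw [h3]
    refine sum_le_sum_of_subset_of_nonneg ?_ fun z _ _ => by positivity
    intro z hz
    rw [mem_image] at hz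
    obtain ⟨w, hw, rfl⟩ := hz
    rw [mem_product, mem_range, mem_range] at hw
    rw [mem_product, mem_range, mem_range]
    constructor
    · show w.1 + w.2 < 2 * M
      omega
    · show w.1 < 2 * M
      omega
  -- expansion
  have h2 : ((∑ i ∈ range (2 * M), ∑ j ∈ range (2 * M), ‖T ((i : ℤ) - j)‖ ^ 2 : ℝ) : ℂ) =
      ∑ y ∈ Y, ∑ y' ∈ Y, b y * (starRingEnd ℂ) (b y') * ((‖D (2 * M) (β y - β y')‖ ^ 2 : ℝ) : ℂ) := by
    have h3 : ∀ i j : ℕ, ((‖T ((i : ℤ) - j)‖ ^ 2 : ℝ) : ℂ) = ∑ y ∈ Y, ∑ y' ∈ Y,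
        b y * (starRingEnd ℂ) (b y') * (e ((i : ℝ) * (β y - β y')) *
          (starRingEnd ℂ) (e ((j : ℝ) * (β y - β y')))) := by
      intro i j
      rw [Complex.ofReal_pow, ← Complex.mul_conj', hT, map_sum, sum_mul_sum]
      refine sum_congr rfl fun y _ => sum_congr rfl fun y' _ => ?_
      rw [map_mul, conj_e, conj_e]
      have h4 : e ((((i : ℤ) - j : ℤ) : ℝ) * β y) * e (-((((i : ℤ) - j : ℤ) : ℝ) * β y')) =
          e ((i : ℝ) * (β y - β y')) * e (-((j : ℝ) * (β y - β y'))) := by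
        rw [← e_add, ← e_add]
        congr 1
        push_cast
        ring
      rw [← h4]
      ring
    rw [Complex.ofReal_sum]
    simp_rw [Complex.ofReal_sum, h3]
    have h5 : ∀ y y', ((‖D (2 * M) (β y - β y')‖ ^ 2 : ℝ) : ℂ) =
        ∑ i ∈ range (2 * M), ∑ j ∈ range (2 * M), e ((i : ℝ) * (β y - β y')) *
          (starRingEnd ℂ) (e ((j : ℝ) * (β y - β y'))) := by
      intro y y'
      rw [Complex.ofReal_pow, ← Complex.mul_conj']
      unfold D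
      rw [map_sum, sum_mul_sum]
    simp_rw [h5, mul_sum]
    calc ∑ i ∈ range (2 * M), ∑ j ∈ range (2 * M), ∑ y ∈ Y, ∑ y' ∈ Y,
        b y * (starRingEnd ℂ) (b y') * (e ((i : ℝ) * (β y - β y')) *
          (starRingEnd ℂ) (e ((j : ℝ) * (β y - β y')))) =
        ∑ i ∈ range (2 * M), ∑ y ∈ Y, ∑ j ∈ range (2 * M), ∑ y' ∈ Y,
        b y * (starRingEnd ℂ) (b y') * (e ((i : ℝ) * (β y - β y')) *
          (starRingEnd ℂ) (e ((j : ℝ) * (β y - β y')))) :=
          sum_congr rfl fun i _ => sum_comm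
      _ = ∑ y ∈ Y, ∑ i ∈ range (2 * M), ∑ j ∈ range (2 * M), ∑ y' ∈ Y,
        b y * (starRingEnd ℂ) (b y') * (e ((i : ℝ) * (β y - β y')) *
          (starRingEnd ℂ) (e ((j : ℝ) * (β y - β y')))) := sum_comm
      _ = ∑ y ∈ Y, ∑ i ∈ range (2 * M), ∑ y' ∈ Y, ∑ j ∈ range (2 * M),
        b y * (starRingEnd ℂ) (b y') * (e ((i : ℝ) * (β y - β y')) *
          (starRingEnd ℂ) (e ((j : ℝ) * (β y - β y')))) :=
          sum_congr rfl fun y _ => sum_congr rfl fun i _ => sum_comm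
      _ = _ := sum_congr rfl fun y _ => sum_comm
  have h3 : ∑ i ∈ range (2 * M), ∑ j ∈ range (2 * M), ‖T ((i : ℤ) - j)‖ ^ 2 ≤
      ∑ y ∈ Y, ∑ y' ∈ Y, ‖b y‖ * ‖b y'‖ * ‖D (2 * M) (β y - β y')‖ ^ 2 := by
    have h4 : ∑ i ∈ range (2 * M), ∑ j ∈ range (2 * M), ‖T ((i : ℤ) - j)‖ ^ 2 =
        ‖((∑ i ∈ range (2 * M), ∑ j ∈ range (2 * M), ‖T ((i : ℤ) - j)‖ ^ 2 : ℝ) : ℂ)‖ := by
      rw [Complex.norm_real, Real.norm_of_nonneg]
      positivity
    rw [h4, h2]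
    refine (norm_sum_le _ _).trans (sum_le_sum fun y _ => (norm_sum_le _ _).trans
      (sum_le_sum fun y' _ => ?_))
    rw [norm_mul, norm_mul, RCLike.norm_conj, Complex.norm_real, Real.norm_of_nonneg (by positivity)]
  have hDsymm : ∀ x : ℝ, ‖D (2 * M) (-x)‖ = ‖D (2 * M) x‖ := by
    intro x
    have h5 : D (2 * M) (-x) = (starRingEnd ℂ) (D (2 * M) x) := by
      unfold D
      rw [map_sum]
      refine sum_congr rfl fun j _ => ?_
      rw [conj_e, mul_neg]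
    rw [h5, RCLike.norm_conj]
  have h4 : ∑ y ∈ Y, ∑ y' ∈ Y, ‖b y‖ * ‖b y'‖ * ‖D (2 * M) (β y - β y')‖ ^ 2 ≤
      ∑ y ∈ Y, ‖b y‖ ^ 2 * ∑ y' ∈ Y, ‖D (2 * M) (β y - β y')‖ ^ 2 := by
    have h5 : ∀ y y', ‖b y‖ * ‖b y'‖ * ‖D (2 * M) (β y - β y')‖ ^ 2 ≤
        ‖b y‖ ^ 2 * ‖D (2 * M) (β y - β y')‖ ^ 2 / 2 + ‖b y'‖ ^ 2 * ‖D (2 * M) (β y - β y')‖ ^ 2 / 2 := by
      intro y y'
      have h6 : ‖b y‖ * ‖b y'‖ ≤ (‖b y‖ ^ 2 + ‖b y'‖ ^ 2) / 2 := by
        nlinarith [sq_nonneg (‖b y‖ - ‖b y'‖)]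
      calc _ ≤ (‖b y‖ ^ 2 + ‖b y'‖ ^ 2) / 2 * ‖D (2 * M) (β y - β y')‖ ^ 2 :=
            mul_le_mul_of_nonneg_right h6 (by positivity)
        _ = _ := by ring
    have h6 : ∑ y ∈ Y, ∑ y' ∈ Y, ‖b y'‖ ^ 2 * ‖D (2 * M) (β y - β y')‖ ^ 2 / 2 =
        ∑ y ∈ Y, ∑ y' ∈ Y, ‖b y‖ ^ 2 * ‖D (2 * M) (β y - β y')‖ ^ 2 / 2 := by
      rw [sum_comm]
      refine sum_congr rfl fun y _ => sum_congr rfl fun y' _ => ?_
      rw [← hDsymm, neg_sub]
    calc _ ≤ ∑ y ∈ Y, ∑ y' ∈ Y, (‖b y‖ ^ 2 * ‖D (2 * M) (β y - β y')‖ ^ 2 / 2 +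
          ‖b y'‖ ^ 2 * ‖D (2 * M) (β y - β y')‖ ^ 2 / 2) :=
          sum_le_sum fun y _ => sum_le_sum fun y' _ => h5 y y'
      _ = ∑ y ∈ Y, ∑ y' ∈ Y, ‖b y‖ ^ 2 * ‖D (2 * M) (β y - β y')‖ ^ 2 / 2 +
          ∑ y ∈ Y, ∑ y' ∈ Y, ‖b y'‖ ^ 2 * ‖D (2 * M) (β y - β y')‖ ^ 2 / 2 := by
          simp_rw [sum_add_distrib]
      _ = _ := by
          rw [h6, ← sum_add_distrib]
          refine sum_congr rfl fun y _ => ?_
          rw [← sum_add_distrib, mul_sum]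
          refine sum_congr rfl fun y' _ => ?_
          ring
  have h5 : ∀ y ∈ Y, ∑ y' ∈ Y, ‖D (2 * M) (β y - β y')‖ ^ 2 ≤ 5 * (M : ℝ) ^ 2 := by
    intro y hy
    rw [← add_sum_erase Y _ hy]
    have h6 := sum_other Y β δ hδ hsep y hy (2 * M)
    have h7 : ‖D (2 * M) (β y - β y)‖ ^ 2 ≤ (2 * (M : ℝ)) ^ 2 := by
      have := norm_D_le (2 * M) (β y - β y)
      push_cast at this
      exact pow_le_pow_left₀ (norm_nonneg _) this 2
    have h8 : 1 / δ ^ 2 ≤ (M : ℝ) ^ 2 := by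
      rw [div_le_iff₀ (by positivity), ← mul_pow, mul_comm]
      exact one_le_pow₀ hδM
    linarith
  have h6 : (M : ℝ) * ∑ n ∈ range (M + 1), ‖T n‖ ^ 2 ≤ 5 * (M : ℝ) ^ 2 * ∑ y ∈ Y, ‖b y‖ ^ 2 := by
    refine (h1.trans (h3.trans h4)).trans ?_
    rw [mul_sum]
    refine sum_le_sum fun y hy => ?_
    rw [mul_comm (5 * (M : ℝ) ^ 2)]
    exact mul_le_mul_of_nonneg_left (h5 y hy) (by positivity)
  have h7 : (M : ℝ) * ∑ n ∈ range (M + 1), ‖T n‖ ^ 2 ≤ M * (5 * M * ∑ y ∈ Y, ‖b y‖ ^ 2) := by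
    refine h6.trans (le_of_eq ?_)
    ring
  have h8 := le_of_mul_le_mul_left h7 hM0
  refine le_trans (le_of_eq ?_) h8
  refine sum_congr rfl fun n _ => ?_
  rw [hT]
  push_cast
  rfl

/-- **Large sieve**, for the sum over a multiset of integers in `[0, M]`. -/
theorem large_sieve {ι κ : Type*} (Y : Finset ι) (β : ι → ℝ) (δ : ℝ) (hδ : 0 < δ) (M : ℕ)
    (hM : 1 ≤ M) (hδM : 1 ≤ δ * M)
    (hsep : ∀ y ∈ Y, ∀ y' ∈ Y, y ≠ y' → δ ≤ dz (β y - β y')) (X : Finset κ) (m : κ → ℕ)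
    (hm : ∀ x ∈ X, m x ≤ M) :
    ∑ y ∈ Y, ‖∑ x ∈ X, e ((m x : ℝ) * β y)‖ ^ 2 ≤
      5 * M * (((X ×ˢ X).filter fun z => m z.1 = m z.2).card : ℝ) := by
  classical
  obtain ⟨R, hR⟩ : ∃ R : ℕ → ℕ, ∀ n, R n = (X.filter fun x => m x = n).card :=
    ⟨fun n => (X.filter fun x => m x = n).card, fun _ => rfl⟩
  obtain ⟨T, hT⟩ : ∃ T : ι → ℂ, ∀ y, T y = ∑ x ∈ X, e ((m x : ℝ) * β y) :=
    ⟨fun y => ∑ x ∈ X, e ((m x : ℝ) * β y), fun _ => rfl⟩
  have hTR : ∀ y, T y = ∑ n ∈ range (M + 1), (R n : ℂ) * e ((n : ℝ) * β y) := by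
    intro y
    rw [hT, ← sum_fiberwise_of_maps_to (g := m) (t := range (M + 1))
      (fun x hx => mem_range.2 (Nat.lt_succ_of_le (hm x hx)))]
    refine sum_congr rfl fun n _ => ?_
    rw [hR, card_eq_sum_ones, Nat.cast_sum, sum_mul]
    refine sum_congr rfl fun x hx => ?_
    rw [(mem_filter.1 hx).2]
    simp
  have hcard : (((X ×ˢ X).filter fun z => m z.1 = m z.2).card : ℝ) =
      ∑ n ∈ range (M + 1), (R n : ℝ) ^ 2 := by
    have h1 : ((X ×ˢ X).filter fun z => m z.1 = m z.2).card =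
        ∑ n ∈ range (M + 1), (((X ×ˢ X).filter fun z => m z.1 = m z.2).filter
          fun z => m z.1 = n).card := by
      refine card_eq_sum_card_fiberwise fun z hz => ?_
      rw [mem_coe, mem_filter, mem_product] at hz
      exact mem_coe.2 (mem_range.2 (Nat.lt_succ_of_le (hm _ hz.1.1)))
    rw [h1]
    push_cast
    refine sum_congr rfl fun n _ => ?_
    have h2 : (((X ×ˢ X).filter fun z => m z.1 = m z.2).filter fun z => m z.1 = n) =
        (X.filter fun x => m x = n) ×ˢ (X.filter fun x => m x = n) := by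
      ext z
      simp only [mem_filter, mem_product]
      constructor
      · rintro ⟨⟨⟨h3, h4⟩, h5⟩, h6⟩
        exact ⟨⟨h3, h6⟩, h4, by rw [← h5]; exact h6⟩
      · rintro ⟨⟨h3, h6⟩, h4, h5⟩
        exact ⟨⟨⟨h3, h4⟩, by rw [h6, h5]⟩, h6⟩
    rw [h2, card_product, ← hR]
    push_cast
    ring
  obtain ⟨V, hV⟩ : ∃ V : ℝ, V = ∑ y ∈ Y, ‖T y‖ ^ 2 := ⟨_, rfl⟩
  have hV0 : 0 ≤ V := by rw [hV]; positivity
  obtain ⟨W, hW⟩ : ∃ W : ℝ, W = ∑ n ∈ range (M + 1), (R n : ℝ) ^ 2 := ⟨_, rfl⟩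
  have hW0 : 0 ≤ W := by rw [hW]; positivity
  have h1 : V ≤ ∑ n ∈ range (M + 1), (R n : ℝ) *
      ‖∑ y ∈ Y, (starRingEnd ℂ) (T y) * e ((n : ℝ) * β y)‖ := by
    have h2 : ((V : ℝ) : ℂ) = ∑ n ∈ range (M + 1), (R n : ℂ) *
        ∑ y ∈ Y, (starRingEnd ℂ) (T y) * e ((n : ℝ) * β y) := by
      rw [hV, Complex.ofReal_sum]
      simp_rw [mul_sum]
      rw [sum_comm]
      refine sum_congr rfl fun y _ => ?_
      rw [Complex.ofReal_pow, ← Complex.conj_mul']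
      nth_rewrite 2 [hTR y]
      rw [mul_sum]
      refine sum_congr rfl fun n _ => ?_
      ring
    have h3 : V = ‖((V : ℝ) : ℂ)‖ := by rw [Complex.norm_real, Real.norm_of_nonneg hV0]
    rw [h3, h2]
    refine (norm_sum_le _ _).trans (sum_le_sum fun n _ => ?_)
    rw [norm_mul, Complex.norm_natCast]
  have h2 : V ^ 2 ≤ W * (5 * M * V) := by
    have h3 := sum_mul_sq_le_sq_mul_sq (range (M + 1)) (fun n => (R n : ℝ))
      (fun n => ‖∑ y ∈ Y, (starRingEnd ℂ) (T y) * e ((n : ℝ) * β y)‖)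
    have h4 := dual Y β δ hδ M hM hδM hsep (fun y => (starRingEnd ℂ) (T y))
    have h5 : ∑ y ∈ Y, ‖(starRingEnd ℂ) (T y)‖ ^ 2 = V := by
      rw [hV]
      refine sum_congr rfl fun y _ => ?_
      rw [RCLike.norm_conj]
    rw [h5] at h4
    calc V ^ 2 ≤ (∑ n ∈ range (M + 1), (R n : ℝ) *
          ‖∑ y ∈ Y, (starRingEnd ℂ) (T y) * e ((n : ℝ) * β y)‖) ^ 2 :=
          pow_le_pow_left₀ hV0 h1 2
      _ ≤ _ := h3
      _ ≤ W * (5 * M * V) := by
          rw [hW]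
          exact mul_le_mul_of_nonneg_left h4 (by positivity)
  have h3 : V ≤ 5 * M * W := by
    rcases eq_or_lt_of_le hV0 with h | h
    · rw [← h]
      positivity
    · have h4 : V * V ≤ V * (5 * M * W) := by
        calc V * V = V ^ 2 := by ring
          _ ≤ W * (5 * M * V) := h2
          _ = V * (5 * M * W) := by ring
      exact le_of_mul_le_mul_left h4 h
  rw [hcard, ← hW]
  refine le_trans (le_of_eq ?_) h3
  rw [hV]
  refine sum_congr rfl fun y _ => ?_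
  rw [hT]

end Pool.Agent.W2helper84.RB
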