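import Mathlib
import Pool.Agent.W2helper84.RB.LS
import Pool.Agent.Y957.VK.Stm

/-!
# From the mean value theorem to a single exponential sum
-/

set_option autoImplicit false

namespace Pool.Agent.W2helper84.RB

open Finset Polynomial
open Pool.Agent.V11226.ETN (e e_add e_zero norm_e e_int e_nsmul e_neg conj_e e_add_int)
open Pool.Agent.Y957.VK (J Tu)

theorem e_sum {ι : Type*} (s : Finset ι) (f : ι → ℝ) : e (∑ i ∈ s, f i) = ∏ i ∈ s, e (f i) := by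
  classical
  induction s using Finset.induction_on with
  | empty => simp
  | insert a s ha ih => rw [sum_insert ha, prod_insert ha, e_add, ih]

theorem sum_pow_eq (s H : ℕ) (g : ℝ[X]) :
    (∑ t ∈ Icc 1 H, e (g.eval (t : ℝ))) ^ s =
      ∑ x ∈ Tu s H, e (∑ l, g.eval (x l : ℝ)) := by
  have h1 : (∑ t ∈ Icc 1 H, e (g.eval (t : ℝ))) ^ s =
      ∏ _l : Fin s, ∑ t ∈ Icc 1 H, e (g.eval (t : ℝ)) := by simp
  rw [h1, Finset.prod_univ_sum]
  unfold Tu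
  refine sum_congr rfl fun x _ => ?_
  rw [e_sum]

theorem sum_eval_eq (s d : ℕ) (hd : 2 ≤ d) (g : ℝ[X]) (hg : g.natDegree ≤ d) (x : Fin s → ℕ) :
    ∑ l, g.eval (x l : ℝ) = (s * g.coeff 0 + ∑ i ∈ (Icc 1 d).erase (d - 1),
      g.coeff i * ((∑ l, x l ^ i : ℕ) : ℝ)) + ((∑ l, x l ^ (d - 1) : ℕ) : ℝ) * g.coeff (d - 1) := by
  have h1 : ∀ l, g.eval (x l : ℝ) = g.coeff 0 + ∑ i ∈ Icc 1 d, g.coeff i * (x l : ℝ) ^ i := by
    intro l
    rw [eval_eq_sum_range' (Nat.lt_succ_of_le hg), sum_range_succ', pow_zero, mul_one, add_comm]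
    congr 1
    rw [Finset.range_eq_Ico, Finset.sum_Ico_add' (fun i => g.coeff i * (x l : ℝ) ^ i) 0 d 1]
    rfl
  simp_rw [h1]
  rw [sum_add_distrib, sum_const, card_univ, Fintype.card_fin, nsmul_eq_mul, sum_comm, add_assoc]
  congr 1
  have h2 : ∀ i, ∑ l, g.coeff i * (x l : ℝ) ^ i = g.coeff i * ((∑ l, x l ^ i : ℕ) : ℝ) := by
    intro i
    rw [← mul_sum]
    push_cast
    rfl
  simp_rw [h2]
  have h3 : d - 1 ∈ Icc 1 d := mem_Icc.2 ⟨by omega, by omega⟩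
  rw [← sum_erase_add _ _ h3]
  congr 1
  ring

theorem prod_erase_eq (d s H : ℕ) (hd : 2 ≤ d) :
    (∏ i ∈ (Icc 1 d).erase (d - 1), s * H ^ i) * (s * H ^ (d - 1)) = s ^ d * H ^ (d * (d + 1) / 2) := by
  have h3 : d - 1 ∈ Icc 1 d := mem_Icc.2 ⟨by omega, by omega⟩
  rw [prod_erase_mul _ _ h3, prod_mul_distrib, prod_const, Nat.card_Icc, Nat.add_sub_cancel]
  congr 1
  rw [prod_pow_eq_pow_sum]
  congr 1
  have h4 : ∑ i ∈ Icc 1 d, i = ∑ i ∈ range (d + 1), i := by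
    rw [Finset.range_eq_Ico, Finset.sum_eq_sum_Ico_succ_bot (by omega), zero_add]
    rfl
  rw [h4, Finset.sum_range_id, Nat.add_sub_cancel, mul_comm]

/-- Mean value over a well spaced family of polynomials. -/
theorem mean_large {ι : Type*} (d s H : ℕ) (hd : 2 ≤ d) (hs : 1 ≤ s) (hH : 1 ≤ H) (Y : Finset ι)
    (g : ι → ℝ[X]) (hg : ∀ y, (g y).natDegree ≤ d)
    (hsep : ∀ y ∈ Y, ∀ y' ∈ Y, y ≠ y' →
      1 ≤ ((s * H ^ (d - 1) : ℕ) : ℝ) * dz ((g y).coeff (d - 1) - (g y').coeff (d - 1))) :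
    ∑ y ∈ Y, ‖∑ t ∈ Icc 1 H, e ((g y).eval (t : ℝ))‖ ^ (2 * s) ≤
      5 * ((s ^ d * H ^ (d * (d + 1) / 2) : ℕ) : ℝ) * (J s d H : ℝ) := by
  classical
  obtain ⟨K, hK⟩ : ∃ K : Finset ℕ, K = (Icc 1 d).erase (d - 1) := ⟨_, rfl⟩
  obtain ⟨M, hM⟩ : ∃ M : ℕ, M = s * H ^ (d - 1) := ⟨_, rfl⟩
  have hM1 : 1 ≤ M := by
    rw [hM]
    exact Nat.mul_pos hs (pow_pos hH _)
  have hM0 : (0 : ℝ) < M := by exact_mod_cast hM1
  -- the other power sums
  obtain ⟨pr, hpr⟩ : ∃ pr : (Fin s → ℕ) → (i : ℕ) → i ∈ K → ℕ, ∀ x i hi, pr x i hi = ∑ l, x l ^ i :=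
    ⟨fun x i _ => ∑ l, x l ^ i, fun _ _ _ => rfl⟩
  obtain ⟨W, hW⟩ : ∃ W : Finset ((i : ℕ) → i ∈ K → ℕ), W = K.pi fun i => Icc 1 (s * H ^ i) := ⟨_, rfl⟩
  have hmaps : ∀ x ∈ Tu s H, pr x ∈ W := by
    intro x hx
    rw [hW, Finset.mem_pi]
    intro i hi
    rw [hpr, mem_Icc]
    unfold Tu at hx
    rw [Fintype.mem_piFinset] at hx
    have h1 : ∀ l, 1 ≤ x l ∧ x l ≤ H := fun l => mem_Icc.1 (hx l)
    constructor
    · calc 1 ≤ s := hs
        _ = ∑ _l : Fin s, 1 := by simp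
        _ ≤ ∑ l, x l ^ i := sum_le_sum fun l _ => Nat.one_le_pow _ _ (h1 l).1
    · calc ∑ l, x l ^ i ≤ ∑ _l : Fin s, H ^ i := sum_le_sum fun l _ => Nat.pow_le_pow_left (h1 l).2 _
        _ = s * H ^ i := by simp
  have hmM : ∀ x ∈ Tu s H, ∑ l, x l ^ (d - 1) ≤ M := by
    intro x hx
    unfold Tu at hx
    rw [Fintype.mem_piFinset] at hx
    calc ∑ l, x l ^ (d - 1) ≤ ∑ _l : Fin s, H ^ (d - 1) :=
          sum_le_sum fun l _ => Nat.pow_le_pow_left (mem_Icc.1 (hx l)).2 _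
      _ = M := by rw [hM]; simp
  -- one polynomial
  have h1 : ∀ y, ‖∑ t ∈ Icc 1 H, e ((g y).eval (t : ℝ))‖ ^ (2 * s) ≤
      (W.card : ℝ) * ∑ w ∈ W, ‖∑ x ∈ (Tu s H).filter (fun x => pr x = w),
        e (((∑ l, x l ^ (d - 1) : ℕ) : ℝ) * (g y).coeff (d - 1))‖ ^ 2 := by
    intro y
    have h2 : ‖∑ t ∈ Icc 1 H, e ((g y).eval (t : ℝ))‖ ^ s ≤
        ∑ w ∈ W, ‖∑ x ∈ (Tu s H).filter (fun x => pr x = w),
        e (((∑ l, x l ^ (d - 1) : ℕ) : ℝ) * (g y).coeff (d - 1))‖ := by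
      rw [← norm_pow, sum_pow_eq, ← sum_fiberwise_of_maps_to hmaps]
      refine (norm_sum_le _ _).trans (sum_le_sum fun w _ => ?_)
      obtain ⟨c, hc⟩ : ∃ c : ℝ, c = s * (g y).coeff 0 +
        ∑ i ∈ K.attach, (g y).coeff i * ((w i i.2 : ℕ) : ℝ) := ⟨_, rfl⟩
      have h3 : ∑ x ∈ (Tu s H).filter (fun x => pr x = w), e (∑ l, (g y).eval (x l : ℝ)) =
          e c * ∑ x ∈ (Tu s H).filter (fun x => pr x = w),
            e (((∑ l, x l ^ (d - 1) : ℕ) : ℝ) * (g y).coeff (d - 1)) := by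
        rw [mul_sum]
        refine sum_congr rfl fun x hx => ?_
        rw [sum_eval_eq s d hd (g y) (hg y) x, e_add]
        congr 2
        rw [hc, ← hK]
        congr 1
        rw [← sum_attach]
        refine sum_congr rfl fun i _ => ?_
        rw [← (mem_filter.1 hx).2, hpr]
      rw [h3, norm_mul, norm_e, one_mul]
    have h3 := sum_mul_sq_le_sq_mul_sq W (fun _ => (1 : ℝ))
      (fun w => ‖∑ x ∈ (Tu s H).filter (fun x => pr x = w),
        e (((∑ l, x l ^ (d - 1) : ℕ) : ℝ) * (g y).coeff (d - 1))‖)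
    simp only [one_mul, one_pow, sum_const, nsmul_eq_mul, mul_one] at h3
    calc ‖∑ t ∈ Icc 1 H, e ((g y).eval (t : ℝ))‖ ^ (2 * s) =
        (‖∑ t ∈ Icc 1 H, e ((g y).eval (t : ℝ))‖ ^ s) ^ 2 := by rw [← pow_mul, mul_comm s 2]
      _ ≤ _ := pow_le_pow_left₀ (by positivity) h2 2
      _ ≤ _ := h3
  have h2 : ∀ w ∈ W, ∑ y ∈ Y, ‖∑ x ∈ (Tu s H).filter (fun x => pr x = w),
        e (((∑ l, x l ^ (d - 1) : ℕ) : ℝ) * (g y).coeff (d - 1))‖ ^ 2 ≤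
      5 * M * ((((Tu s H ×ˢ Tu s H).filter fun z => ∀ j ∈ Icc 1 d,
        ∑ i, z.1 i ^ j = ∑ i, z.2 i ^ j).filter fun z => pr z.1 = w).card : ℝ) := by
    intro w _
    refine (large_sieve Y (fun y => (g y).coeff (d - 1)) (1 / M) (by positivity) M hM1
      (by rw [one_div, inv_mul_cancel₀ hM0.ne']) ?_ ((Tu s H).filter (fun x => pr x = w))
      (fun x => ∑ l, x l ^ (d - 1)) (fun x hx => hmM x (mem_filter.1 hx).1)).trans ?_
    · intro y hy y' hy' hne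
      have h3 := hsep y hy y' hy' hne
      rw [← hM] at h3
      rw [div_le_iff₀ hM0, mul_comm]
      exact h3
    · refine mul_le_mul_of_nonneg_left ?_ (by positivity)
      have h3 : ((((Tu s H).filter (fun x => pr x = w)) ×ˢ
          ((Tu s H).filter (fun x => pr x = w))).filter
          fun z => ∑ l, z.1 l ^ (d - 1) = ∑ l, z.2 l ^ (d - 1)) ⊆
          (((Tu s H ×ˢ Tu s H).filter fun z => ∀ j ∈ Icc 1 d,
            ∑ i, z.1 i ^ j = ∑ i, z.2 i ^ j).filter fun z => pr z.1 = w) := by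
        intro z hz
        rw [mem_filter, mem_product, mem_filter, mem_filter] at hz
        obtain ⟨⟨⟨h4, h5⟩, h6, h7⟩, h8⟩ := hz
        rw [mem_filter, mem_filter, mem_product]
        refine ⟨⟨⟨h4, h6⟩, fun j hj => ?_⟩, h5⟩
        by_cases hjd : j = d - 1
        · rw [hjd]; exact h8
        · have hjK : j ∈ K := by
            rw [hK, mem_erase]
            exact ⟨hjd, hj⟩
          have h9 : pr z.1 j hjK = pr z.2 j hjK := by rw [h5, h7]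
          rw [hpr, hpr] at h9
          exact h9
      exact_mod_cast card_le_card h3
  have h3 : ∑ w ∈ W, ((((Tu s H ×ˢ Tu s H).filter fun z => ∀ j ∈ Icc 1 d,
        ∑ i, z.1 i ^ j = ∑ i, z.2 i ^ j).filter fun z => pr z.1 = w).card : ℝ) = (J s d H : ℝ) := by
    unfold J
    rw [card_eq_sum_card_fiberwise (f := fun z : (Fin s → ℕ) × (Fin s → ℕ) => pr z.1) (t := W)]
    · push_cast
      rfl
    · intro z hz
      rw [mem_coe, mem_filter, mem_product] at hz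
      exact mem_coe.2 (hmaps z.1 hz.1.1)
  have h4 : (W.card : ℝ) * M = ((s ^ d * H ^ (d * (d + 1) / 2) : ℕ) : ℝ) := by
    rw [← prod_erase_eq d s H hd, hW, card_pi, ← hK, hM]
    push_cast
    congr 1
    refine prod_congr rfl fun i _ => ?_
    rw [Nat.card_Icc, Nat.add_sub_cancel]
    push_cast
    rfl
  calc ∑ y ∈ Y, ‖∑ t ∈ Icc 1 H, e ((g y).eval (t : ℝ))‖ ^ (2 * s) ≤
      ∑ y ∈ Y, (W.card : ℝ) * ∑ w ∈ W, ‖∑ x ∈ (Tu s H).filter (fun x => pr x = w),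
        e (((∑ l, x l ^ (d - 1) : ℕ) : ℝ) * (g y).coeff (d - 1))‖ ^ 2 := sum_le_sum fun y _ => h1 y
    _ = (W.card : ℝ) * ∑ w ∈ W, ∑ y ∈ Y, ‖∑ x ∈ (Tu s H).filter (fun x => pr x = w),
        e (((∑ l, x l ^ (d - 1) : ℕ) : ℝ) * (g y).coeff (d - 1))‖ ^ 2 := by
        rw [← mul_sum, sum_comm]
    _ ≤ (W.card : ℝ) * ∑ w ∈ W, 5 * M * ((((Tu s H ×ˢ Tu s H).filter fun z => ∀ j ∈ Icc 1 d,
        ∑ i, z.1 i ^ j = ∑ i, z.2 i ^ j).filter fun z => pr z.1 = w).card : ℝ) :=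
        mul_le_mul_of_nonneg_left (sum_le_sum h2) (by positivity)
    _ = (W.card : ℝ) * (5 * M * (J s d H : ℝ)) := by rw [← mul_sum, h3]
    _ = 5 * ((W.card : ℝ) * M) * (J s d H : ℝ) := by ring
    _ = _ := by rw [h4]

theorem taylor_coeff_pred (f : ℝ[X]) (d : ℕ) (hd : 2 ≤ d) (hdeg : f.natDegree = d) (y : ℝ) :
    (taylor y f).coeff (d - 1) = f.coeff (d - 1) + (d * f.leadingCoeff) * y := by
  rw [taylor_coeff]
  have h1 : (hasseDeriv (d - 1) f).natDegree < 2 := by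
    have := natDegree_hasseDeriv_le f (d - 1)
    omega
  rw [eval_eq_sum_range' h1, sum_range_succ, sum_range_one, hasseDeriv_coeff, hasseDeriv_coeff]
  have h2 : 1 + (d - 1) = d := by omega
  rw [zero_add, h2, Nat.choose_self, pow_zero, pow_one, Nat.cast_one, one_mul, mul_one]
  have h3 : d.choose (d - 1) = d := by
    obtain ⟨k, rfl⟩ : ∃ k, d = k + 1 := ⟨d - 1, by omega⟩
    rw [Nat.add_sub_cancel, Nat.choose_succ_self_right]
  rw [h3, leadingCoeff, hdeg]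

theorem shift_le (F : ℕ → ℂ) (hF : ∀ t, ‖F t‖ ≤ 1) (H y : ℕ) :
    ‖∑ t ∈ Icc 1 H, F t - ∑ t ∈ Icc 1 H, F (t + y)‖ ≤ 2 * y := by
  have e1 : ∑ t ∈ Icc 1 H, F t = ∑ t ∈ Ico 1 (H + 1), F t := rfl
  have e2 : ∑ t ∈ Icc 1 H, F (t + y) = ∑ t ∈ Ico (1 + y) (H + 1 + y), F t := by
    rw [← Finset.sum_Ico_add' F 1 (H + 1) y]
    rfl
  have e3 := Finset.sum_Ico_consecutive F (show 1 ≤ H + 1 by omega) (show H + 1 ≤ H + 1 + y by omega)
  have e4 := Finset.sum_Ico_consecutive F (show 1 ≤ 1 + y by omega) (show 1 + y ≤ H + 1 + y by omega)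
  have e5 : ∑ t ∈ Icc 1 H, F t - ∑ t ∈ Icc 1 H, F (t + y) =
      ∑ t ∈ Ico 1 (1 + y), F t - ∑ t ∈ Ico (H + 1) (H + 1 + y), F t := by
    rw [e1, e2]
    linear_combination e3 - e4
  rw [e5]
  have h1 : ∀ a b : ℕ, ‖∑ t ∈ Ico a b, F t‖ ≤ ((b - a : ℕ) : ℝ) := by
    intro a b
    refine (norm_sum_le _ _).trans ((sum_le_sum fun t _ => hF t).trans ?_)
    simp
  have h2 := h1 1 (1 + y)
  have h3 := h1 (H + 1) (H + 1 + y)
  rw [Nat.add_sub_cancel_left] at h2 h3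
  calc _ ≤ ‖∑ t ∈ Ico 1 (1 + y), F t‖ + ‖∑ t ∈ Ico (H + 1) (H + 1 + y), F t‖ := norm_sub_le _ _
    _ ≤ 2 * y := by linarith

theorem add_pow_le' {a b : ℝ} (ha : 0 ≤ a) (hb : 0 ≤ b) (s : ℕ) :
    (a + b) ^ (2 * s) ≤ 4 ^ s * (a ^ (2 * s) + b ^ (2 * s)) := by
  have h4 : (4 : ℝ) ^ s = 2 ^ (2 * s) := by
    rw [pow_mul]
    norm_num
  rw [h4]
  rcases le_total a b with h | h
  · calc (a + b) ^ (2 * s) ≤ (2 * b) ^ (2 * s) := pow_le_pow_left₀ (by positivity) (by linarith) _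
      _ = 2 ^ (2 * s) * b ^ (2 * s) := mul_pow _ _ _
      _ ≤ _ := mul_le_mul_of_nonneg_left (by linarith [pow_nonneg ha (2 * s)]) (by positivity)
  · calc (a + b) ^ (2 * s) ≤ (2 * a) ^ (2 * s) := pow_le_pow_left₀ (by positivity) (by linarith) _
      _ = 2 ^ (2 * s) * a ^ (2 * s) := mul_pow _ _ _
      _ ≤ _ := mul_le_mul_of_nonneg_left (by linarith [pow_nonneg hb (2 * s)]) (by positivity)

/-- **The Weyl sum of a polynomial** of degree `d` in terms of Vinogradov's mean value and the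
spacing of the multiples of `d` times the leading coefficient. -/
theorem weyl (f : ℝ[X]) (d s H Y : ℕ) (hd : 2 ≤ d) (hdeg : f.natDegree = d) (hs : 1 ≤ s)
    (hH : 1 ≤ H)
    (hsep : ∀ y : ℕ, 1 ≤ y → y < Y →
      1 ≤ ((s * H ^ (d - 1) : ℕ) : ℝ) * dz (d * f.leadingCoeff * y)) :
    Y * ‖∑ t ∈ Icc 1 H, e (f.eval (t : ℝ))‖ ^ (2 * s) ≤
      4 ^ s * (5 * ((s ^ d * H ^ (d * (d + 1) / 2) : ℕ) : ℝ) * (J s d H : ℝ) +
        Y * (2 * Y) ^ (2 * s)) := by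
  obtain ⟨S, hS⟩ : ∃ S : ℝ, S = ‖∑ t ∈ Icc 1 H, e (f.eval (t : ℝ))‖ := ⟨_, rfl⟩
  obtain ⟨T, hT⟩ : ∃ T : ℕ → ℝ, ∀ y, T y = ‖∑ t ∈ Icc 1 H, e ((taylor (y : ℝ) f).eval (t : ℝ))‖ :=
    ⟨fun y => ‖∑ t ∈ Icc 1 H, e ((taylor (y : ℝ) f).eval (t : ℝ))‖, fun _ => rfl⟩
  have hT0 : ∀ y, 0 ≤ T y := fun y => by rw [hT]; exact norm_nonneg _
  have hS0 : 0 ≤ S := by rw [hS]; exact norm_nonneg _
  have h1 : ∀ y ∈ range Y, S ^ (2 * s) ≤ 4 ^ s * (T y ^ (2 * s) + (2 * Y) ^ (2 * s)) := by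
    intro y hy
    have h2 := shift_le (fun t : ℕ => e (f.eval (t : ℝ))) (fun t => (norm_e _).le) H y
    have h3 : S ≤ T y + 2 * Y := by
      have h4 : ∑ t ∈ Icc 1 H, e (f.eval ((t + y : ℕ) : ℝ)) =
          ∑ t ∈ Icc 1 H, e ((taylor (y : ℝ) f).eval (t : ℝ)) := by
        refine sum_congr rfl fun t _ => ?_
        rw [taylor_eval]
        push_cast
        rfl
      rw [h4] at h2
      have h5 : (y : ℝ) ≤ Y := by exact_mod_cast (mem_range.1 hy).le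
      have h6 := norm_sub_norm_le (∑ t ∈ Icc 1 H, e (f.eval (t : ℝ)))
        (∑ t ∈ Icc 1 H, e ((taylor (y : ℝ) f).eval (t : ℝ)))
      rw [← hS, ← hT] at h6
      linarith
    calc S ^ (2 * s) ≤ (T y + 2 * Y) ^ (2 * s) := pow_le_pow_left₀ hS0 h3 _
      _ ≤ _ := add_pow_le' (hT0 y) (by positivity) s
  have h2 := mean_large d s H hd hs hH (range Y) (fun y => taylor (y : ℝ) f)
    (fun y => by rw [natDegree_taylor, hdeg]) (by
      have key : ∀ a b : ℕ, a < b → b < Y → 1 ≤ ((s * H ^ (d - 1) : ℕ) : ℝ) *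
          dz ((taylor (b : ℝ) f).coeff (d - 1) - (taylor (a : ℝ) f).coeff (d - 1)) := by
        intro a b hab hb
        rw [taylor_coeff_pred f d hd hdeg, taylor_coeff_pred f d hd hdeg]
        have h3 := hsep (b - a) (by omega) (by omega)
        rw [Nat.cast_sub hab.le] at h3
        refine le_trans h3 (le_of_eq ?_)
        congr 2
        ring
      intro y hy y' hy' hne
      rw [mem_range] at hy hy'
      rcases lt_or_gt_of_ne hne with h | h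
      · rw [← dz_neg, neg_sub]
        exact key y y' h hy'
      · exact key y' y h hy)
  have h3 : ∑ _y ∈ range Y, S ^ (2 * s) ≤
      ∑ y ∈ range Y, 4 ^ s * (T y ^ (2 * s) + (2 * Y) ^ (2 * s)) := sum_le_sum h1
  rw [sum_const, card_range, nsmul_eq_mul, ← mul_sum, sum_add_distrib, sum_const, card_range,
    nsmul_eq_mul] at h3
  rw [← hS]
  refine h3.trans (mul_le_mul_of_nonneg_left ?_ (by positivity))
  have h4 : ∑ y ∈ range Y, T y ^ (2 * s) ≤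
      5 * ((s ^ d * H ^ (d * (d + 1) / 2) : ℕ) : ℝ) * (J s d H : ℝ) := by
    refine le_trans (le_of_eq ?_) h2
    refine sum_congr rfl fun y _ => ?_
    rw [hT]
  linarith

end Pool.Agent.W2helper84.RB
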