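import Pool.Agent.Y957.VK.Triv
import Pool.Agent.Y901.VK.Vmvt
import Pool.Agent.Y235.VK.Hol
import Pool.Agent.Y950.VK.Cnt
import Pool.Agent.Y331.VK.Lin
import Pool.Agent.Y911.VK.Cond

set_option autoImplicit false

/-!
# Vinogradov's mean value theorem, polynomial constants in the choice of the primes

This follows `Pool.Agent.N586.AN.Vm` (which follows `Pool.Agent.Y901.VK.Vmvt`); the primes are taken
below `2 ^ 24 * r ^ 12 * Z`, so that the constant is `exp (86 m N ^ 2 log N)` with `N = r + m + 2`.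
-/

namespace Pool.Agent.W2helper84.RB

open Finset Filter
open Pool.Agent.Y957.VK (J BB Tu S_REC S_COND)
open Pool.Agent.Y901.VK (Ee et_bounds Ee_eq Ee_nonneg Ee_le Ee_succ pow_le_exp card_Tu J_le)

/-- the constant -/
noncomputable def vm_KK (r : ℕ) : ℝ := 2 ^ 24 * (r : ℝ) ^ 12 * ((r : ℝ) + 2)

/-- many primes -/
theorem vm_exists_primes {r Z : ℕ} (hr : 2 ≤ r) (hrZ : r ≤ Z) : ∃ P : Finset ℕ, P.card = r ^ 3 ∧
    ∀ p ∈ P, p.Prime ∧ Z < p ∧ p ≤ 2 ^ 24 * r ^ 12 * Z := by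
  obtain ⟨n, hn⟩ : ∃ n : ℕ, n = 2 ^ 24 * r ^ 12 * Z := ⟨_, rfl⟩
  rw [← hn]
  have hR : (2 : ℝ) ≤ r := by exact_mod_cast hr
  have hZ2 : (2 : ℝ) ≤ Z := by exact_mod_cast hr.trans hrZ
  have hr12 : 1 ≤ r ^ 12 := Nat.one_le_pow _ _ (by omega)
  have hn1 : 2 ^ 24 * Z ≤ n := by
    rw [hn]
    exact Nat.mul_le_mul_right Z (Nat.le_mul_of_pos_right _ hr12)
  have hn2 : 2 ^ 24 * r ^ 12 ≤ n := by
    rw [hn]
    exact Nat.le_mul_of_pos_right _ (by omega)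
  have hn1' : (2 : ℝ) ^ 24 * Z ≤ n := by exact_mod_cast hn1
  have hn2' : (2 : ℝ) ^ 24 * (r : ℝ) ^ 12 ≤ n := by exact_mod_cast hn2
  have hZn : Z ≤ n := by omega
  have hnp : (0 : ℝ) < n := by
    have : (0 : ℝ) < (2 : ℝ) ^ 24 * Z := by positivity
    linarith
  obtain ⟨S, hS⟩ : ∃ S : Finset ℕ, S = (Finset.Ioc Z n).filter Nat.Prime := ⟨_, rfl⟩
  -- the fourth root
  obtain ⟨y, hy⟩ : ∃ y : ℝ, y = (n : ℝ) ^ (1 / 4 : ℝ) := ⟨_, rfl⟩
  have hy0 : 0 ≤ y := by rw [hy]; positivity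
  have hy4 : y ^ 4 = n := by
    rw [hy, ← Real.rpow_natCast, ← Real.rpow_mul hnp.le]
    norm_num
  have hyr : 64 * (r : ℝ) ^ 3 ≤ y := by
    have h1 : (64 * (r : ℝ) ^ 3) ^ 4 ≤ y ^ 4 := by
      rw [hy4]
      refine le_trans (le_of_eq ?_) hn2'
      ring
    exact (pow_le_pow_iff_left₀ (by positivity) hy0 (by norm_num)).1 h1
  have hy64 : (64 : ℝ) ≤ y := by
    have h1 : (1 : ℝ) ≤ (r : ℝ) ^ 3 := one_le_pow₀ (by linarith)
    linarith
  have hlog : Real.log n ≤ 4 * y := by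
    have h1 := Real.log_le_rpow_div hnp.le (show (0 : ℝ) < 1 / 4 by norm_num)
    rw [hy]
    linarith
  have hsqrt : √(n : ℝ) = y ^ 2 := by
    rw [← hy4, show y ^ 4 = (y ^ 2) ^ 2 by ring, Real.sqrt_sq (by positivity)]
  have hθ1 := Chebyshev.theta_ge n
  have hθ2 := Chebyshev.theta_le_log4_mul_x (x := (Z : ℝ)) (Nat.cast_nonneg _)
  have hlog2 : (0.69 : ℝ) < Real.log 2 := by linarith [Real.log_two_gt_d9]
  have hlog2' : Real.log 2 < (0.7 : ℝ) := by linarith [Real.log_two_lt_d9]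
  have hlog4 : Real.log 4 = 2 * Real.log 2 := by
    rw [show (4 : ℝ) = 2 ^ 2 by norm_num, Real.log_pow]
    norm_num
  have hsum : Chebyshev.theta n - Chebyshev.theta (Z : ℝ) ≤ (S.card : ℝ) * Real.log n := by
    rw [Chebyshev.theta_eq_sum_Icc, Chebyshev.theta_eq_sum_Icc, Nat.floor_natCast, Nat.floor_natCast]
    have h2 : ((Finset.Icc 0 n).filter Nat.Prime) = ((Finset.Icc 0 Z).filter Nat.Prime) ∪ S := by
      ext p
      simp only [hS, Finset.mem_union, Finset.mem_filter, Finset.mem_Icc, Finset.mem_Ioc]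
      constructor
      · rintro ⟨⟨_, h3⟩, h4⟩
        rcases le_or_gt p Z with h5 | h5
        · exact Or.inl ⟨⟨by omega, h5⟩, h4⟩
        · exact Or.inr ⟨⟨h5, h3⟩, h4⟩
      · rintro (⟨⟨_, h3⟩, h4⟩ | ⟨⟨h3, h5⟩, h4⟩)
        · exact ⟨⟨by omega, by omega⟩, h4⟩
        · exact ⟨⟨by omega, by omega⟩, h4⟩
    have h3 : Disjoint ((Finset.Icc 0 Z).filter Nat.Prime) S := by
      rw [Finset.disjoint_left]
      intro p hp hp'
      simp only [hS, Finset.mem_filter, Finset.mem_Icc, Finset.mem_Ioc] at hp hp'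
      omega
    rw [h2, Finset.sum_union h3, add_sub_cancel_left]
    calc ∑ p ∈ S, Real.log p ≤ ∑ _p ∈ S, Real.log n := by
          refine sum_le_sum fun p hp => ?_
          simp only [hS, Finset.mem_filter, Finset.mem_Ioc] at hp
          exact Real.log_le_log (by exact_mod_cast hp.2.pos) (by exact_mod_cast hp.1.2)
      _ = _ := by rw [sum_const, nsmul_eq_mul]
  have hlogp1 : Real.log ((n : ℝ) + 1) ≤ Real.log n + 1 := by
    have h2 : (n : ℝ) + 1 ≤ n * Real.exp 1 := by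
      have := Real.add_one_le_exp (1 : ℝ)
      have h3 : (1 : ℝ) ≤ n := by
        have : (2 : ℝ) ^ 24 * 2 ≤ 2 ^ 24 * Z := by linarith
        norm_num at this hn1'
        linarith
      nlinarith
    calc Real.log ((n : ℝ) + 1) ≤ Real.log (n * Real.exp 1) := Real.log_le_log (by linarith) h2
      _ = Real.log n + 1 := by rw [Real.log_mul hnp.ne' (Real.exp_pos 1).ne', Real.log_exp]
  have hy3 : (64 : ℝ) * y ^ 3 ≤ y ^ 4 := by
    have : 0 ≤ y ^ 3 := by positivity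
    nlinarith
  have hy1 : (64 : ℝ) ^ 3 * y ≤ y ^ 4 := by
    have h1 : (64 : ℝ) ^ 3 ≤ y ^ 3 := by gcongr
    nlinarith
  have hmain : (n : ℝ) / 2 ≤ (S.card : ℝ) * (4 * y) := by
    have h3 : Chebyshev.theta (Z : ℝ) ≤ n / 10 ^ 6 := by
      refine hθ2.trans ?_
      rw [hlog4]
      norm_num at hn1' ⊢
      nlinarith
    have h4 : 2 * √(n : ℝ) * Real.log n ≤ (n : ℝ) / 8 := by
      rw [hsqrt]
      calc 2 * y ^ 2 * Real.log n ≤ 2 * y ^ 2 * (4 * y) := by gcongr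
        _ = 8 * y ^ 3 := by ring
        _ ≤ y ^ 4 / 8 := by linarith
        _ = _ := by rw [hy4]
    have h5 : Real.log n + 1 ≤ (n : ℝ) / 50 := by
      norm_num at hy1
      have h50 : 64 ^ 3 * y ≤ (n : ℝ) := by
        rw [← hy4]
        norm_num
        exact hy1
      norm_num at h50
      linarith
    have h6 : (n : ℝ) * 0.69 ≤ (n : ℝ) * Real.log 2 := mul_le_mul_of_nonneg_left hlog2.le hnp.le
    have h7 : (S.card : ℝ) * Real.log n ≤ (S.card : ℝ) * (4 * y) :=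
      mul_le_mul_of_nonneg_left hlog (Nat.cast_nonneg _)
    linarith
  have hcard : (r : ℝ) ^ 3 ≤ (S.card : ℝ) := by
    have h1 : (r : ℝ) ^ 3 ≤ y := by
      have h2 : (0 : ℝ) ≤ (r : ℝ) ^ 3 := by positivity
      linarith
    have hy0' : 0 < y := by linarith
    have h3 : y * (4 * y) ≤ (S.card : ℝ) * (4 * y) := by
      refine le_trans ?_ hmain
      rw [← hy4]
      have h4 : 8 * y ^ 2 ≤ y ^ 4 := by
        have h5 : (64 : ℝ) ^ 2 ≤ y ^ 2 := by gcongr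
        norm_num at h5
        nlinarith [sq_nonneg y]
      linarith
    have h5 : y ≤ (S.card : ℝ) := le_of_mul_le_mul_right h3 (by linarith)
    linarith
  have hcard' : r ^ 3 ≤ S.card := by exact_mod_cast hcard
  obtain ⟨P, hPS, hP⟩ := Finset.exists_subset_card_eq hcard'
  refine ⟨P, hP, fun p hp => ?_⟩
  have h1 := hPS hp
  simp only [hS, Finset.mem_filter, Finset.mem_Ioc] at h1
  exact ⟨h1.2, h1.1.1, h1.1.2⟩

/-- the set of primes -/
theorem vm_exists_P {r X : ℕ} (hr : 2 ≤ r) (hX : 1 ≤ X) : ∃ P : Finset ℕ, P.card = r ^ 3 ∧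
    (∀ p ∈ P, p.Prime ∧ r < p ∧ X ≤ p ^ r ∧ (p : ℝ) ≤ vm_KK r * (X : ℝ) ^ (1 / (r : ℝ))) ∧
    X ^ (r * r) < ∏ p ∈ P, p := by
  have hR : (2 : ℝ) ≤ r := by exact_mod_cast hr
  have hX' : (1 : ℝ) ≤ X := by exact_mod_cast hX
  obtain ⟨Y, hY⟩ : ∃ Y : ℝ, Y = (X : ℝ) ^ (1 / (r : ℝ)) := ⟨_, rfl⟩
  have hY1 : 1 ≤ Y := by
    rw [hY]
    exact Real.one_le_rpow hX' (by positivity)
  have hYr : Y ^ r = X := by
    rw [hY, ← Real.rpow_natCast, ← Real.rpow_mul (by linarith), one_div, inv_mul_cancel₀ (by linarith),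
      Real.rpow_one]
  obtain ⟨Z, hZ⟩ : ∃ Z : ℕ, Z = ⌈Y⌉₊ + r := ⟨_, rfl⟩
  have hZY : Y ≤ Z := by
    rw [hZ]
    push_cast
    have := Nat.le_ceil Y
    linarith
  have hZr : r ≤ Z := by omega
  have hZ0 : Z ≠ 0 := by omega
  have hZle : (Z : ℝ) ≤ (r + 2) * Y := by
    rw [hZ]
    push_cast
    have := Nat.ceil_lt_add_one (show 0 ≤ Y by linarith)
    nlinarith
  have hXZ : X ≤ Z ^ r := by
    have h1 : (X : ℝ) ≤ (Z : ℝ) ^ r := by
      rw [← hYr]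
      exact pow_le_pow_left₀ (by linarith) hZY r
    exact_mod_cast h1
  obtain ⟨P, hP1, hP2⟩ := vm_exists_primes hr hZr
  refine ⟨P, hP1, ?_, ?_⟩
  · intro p hp
    obtain ⟨a, b, c⟩ := hP2 p hp
    refine ⟨a, by omega, hXZ.trans (Nat.pow_le_pow_left b.le r), ?_⟩
    have c' : (p : ℝ) ≤ 2 ^ 24 * (r : ℝ) ^ 12 * Z := by exact_mod_cast c
    rw [← hY]
    unfold vm_KK
    refine c'.trans ?_
    rw [mul_assoc (2 ^ 24 * (r : ℝ) ^ 12)]
    exact mul_le_mul_of_nonneg_left hZle (by positivity)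
  · have h1 : (Z + 1) ^ P.card ≤ ∏ p ∈ P, p :=
      Finset.pow_card_le_prod P (fun p => p) (Z + 1) (fun p hp => (hP2 p hp).2.1)
    rw [hP1] at h1
    have h2 : X ^ (r * r) ≤ Z ^ (r ^ 3) := by
      calc X ^ (r * r) ≤ (Z ^ r) ^ (r * r) := Nat.pow_le_pow_left hXZ _
        _ = Z ^ (r ^ 3) := by
            rw [← pow_mul]
            congr 1
            ring
    have h3 : Z ^ (r ^ 3) < (Z + 1) ^ (r ^ 3) :=
      Nat.pow_lt_pow_left (Nat.lt_succ_self Z) (by positivity)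
    omega

theorem vm_KK_ge {r : ℕ} (hr : 2 ≤ r) : 1 ≤ vm_KK r := by
  unfold vm_KK
  have hR : (2 : ℝ) ≤ r := by exact_mod_cast hr
  have h1 : (1 : ℝ) ≤ 2 ^ 24 * (r : ℝ) ^ 12 := by
    have h2 : (1 : ℝ) ≤ (r : ℝ) ^ 12 := one_le_pow₀ (by linarith)
    linarith
  have h3 : (1 : ℝ) ≤ (r : ℝ) + 2 := by linarith
  calc (1 : ℝ) = 1 * 1 := by ring
    _ ≤ _ := mul_le_mul h1 h3 (by norm_num) (by linarith)

/-- one term of the recursion -/
theorem vm_term_le (h1 : S_REC) {r m : ℕ} (hr : 2 ≤ r) {D : ℝ} (hD : 1 ≤ D)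
    (ih : ∀ X : ℕ, 1 ≤ X → (J (r ^ 2 + r * m) r X : ℝ) ≤ D * (X : ℝ) ^ Ee r m) {X : ℕ} (hX : 1 ≤ X)
    {p : ℕ} (hp : p.Prime) (hrp : r < p) (hXp : X ≤ p ^ r)
    (hpK : (p : ℝ) ≤ vm_KK r * (X : ℝ) ^ (1 / (r : ℝ))) :
    (BB (r ^ 2 + r * m) r p X : ℝ) ≤
      (r.factorial : ℝ) * (1 + vm_KK r) ^ Ee r m * vm_KK r ^ (r ^ 2) * D * (X : ℝ) ^ Ee r (m + 1) := by
  have hR : (2 : ℝ) ≤ r := by exact_mod_cast hr
  have hX' : (1 : ℝ) ≤ X := by exact_mod_cast hX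
  have hX0 : (0 : ℝ) < X := by linarith
  have hp0 : (0 : ℝ) < p := by exact_mod_cast hp.pos
  have hK := vm_KK_ge hr
  have hE := Ee_nonneg hr m
  obtain ⟨e1, e2⟩ := et_bounds hr m
  have h3 := h1 (r ^ 2 + r * m) r p X (by omega) hp hrp hXp
  have h4 : (BB (r ^ 2 + r * m) r p X : ℝ) ≤ (p : ℝ) ^ (2 * (r ^ 2 + r * m)) *
      ((r.factorial : ℝ) * (p : ℝ) ^ (r * (r - 1) / 2) * (X : ℝ) ^ r *
        (J (r ^ 2 + r * m) r (X / p + 1) : ℝ)) := by exact_mod_cast h3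
  -- the mean value for the shorter range
  have h5 : (((X / p + 1 : ℕ) : ℕ) : ℝ) ≤ (1 + vm_KK r) * X / p := by
    have h6 : ((X / p : ℕ) : ℝ) ≤ (X : ℝ) / p := Nat.cast_div_le
    have h7 : (p : ℝ) ≤ vm_KK r * X := by
      refine hpK.trans (mul_le_mul_of_nonneg_left ?_ (by linarith))
      calc (X : ℝ) ^ (1 / (r : ℝ)) ≤ (X : ℝ) ^ (1 : ℝ) := by
            refine Real.rpow_le_rpow_of_exponent_le hX' ?_
            rw [div_le_one (by linarith)]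
            linarith
        _ = X := Real.rpow_one _
    rw [le_div_iff₀ hp0]
    push_cast
    have h8 : ((X / p : ℕ) : ℝ) * p ≤ X := by
      rw [← le_div_iff₀ hp0]
      exact h6
    nlinarith
  have h6 : (J (r ^ 2 + r * m) r (X / p + 1) : ℝ) ≤
      D * ((1 + vm_KK r) ^ Ee r m * (X : ℝ) ^ Ee r m * (p : ℝ) ^ (-Ee r m)) := by
    refine (ih (X / p + 1) (Nat.le_add_left 1 _)).trans ?_
    refine mul_le_mul_of_nonneg_left ?_ (by linarith)
    calc ((X / p + 1 : ℕ) : ℝ) ^ Ee r m ≤ ((1 + vm_KK r) * X / p) ^ Ee r m :=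
          Real.rpow_le_rpow (Nat.cast_nonneg _) h5 hE
      _ = (1 + vm_KK r) ^ Ee r m * (X : ℝ) ^ Ee r m * (p : ℝ) ^ (-Ee r m) := by
          rw [Real.div_rpow (by positivity) hp0.le, Real.mul_rpow (by positivity) hX0.le,
            Real.rpow_neg hp0.le]
          rfl
  -- the powers of `p`
  have h7 : (p : ℝ) ^ (2 * (r ^ 2 + r * m)) * (p : ℝ) ^ (r * (r - 1) / 2) * (p : ℝ) ^ (-Ee r m) =
      (p : ℝ) ^ ((r : ℝ) ^ 2 - Pool.Agent.Y901.VK.et r m) := by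
    have h8 : ((r * (r - 1) / 2 : ℕ) : ℝ) = (r : ℝ) * (r - 1) / 2 := by
      rw [← Nat.choose_two_right, Nat.cast_choose_two]
    rw [← Real.rpow_natCast, ← Real.rpow_natCast, ← Real.rpow_add hp0, ← Real.rpow_add hp0]
    congr 1
    rw [h8, Ee_eq]
    push_cast
    ring
  have hexp : 0 ≤ (r : ℝ) ^ 2 - Pool.Agent.Y901.VK.et r m := by nlinarith
  have h8 : (p : ℝ) ^ ((r : ℝ) ^ 2 - Pool.Agent.Y901.VK.et r m) ≤
      vm_KK r ^ (r ^ 2) * (X : ℝ) ^ (((r : ℝ) ^ 2 - Pool.Agent.Y901.VK.et r m) / r) := by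
    calc (p : ℝ) ^ ((r : ℝ) ^ 2 - Pool.Agent.Y901.VK.et r m) ≤
        (vm_KK r * (X : ℝ) ^ (1 / (r : ℝ))) ^ ((r : ℝ) ^ 2 - Pool.Agent.Y901.VK.et r m) :=
          Real.rpow_le_rpow hp0.le hpK hexp
      _ = vm_KK r ^ ((r : ℝ) ^ 2 - Pool.Agent.Y901.VK.et r m) * (X : ℝ) ^ (((r : ℝ) ^ 2 - Pool.Agent.Y901.VK.et r m) / r) := by
          rw [Real.mul_rpow (by linarith) (by positivity), ← Real.rpow_mul hX0.le]
          congr 2
          ring
      _ ≤ vm_KK r ^ (r ^ 2) * (X : ℝ) ^ (((r : ℝ) ^ 2 - Pool.Agent.Y901.VK.et r m) / r) := by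
          refine mul_le_mul_of_nonneg_right ?_ (by positivity)
          rw [← Real.rpow_natCast (vm_KK r) (r ^ 2)]
          refine Real.rpow_le_rpow_of_exponent_le hK ?_
          push_cast
          linarith
  -- the powers of `X`
  have h9 : (X : ℝ) ^ r * (X : ℝ) ^ Ee r m * (X : ℝ) ^ (((r : ℝ) ^ 2 - Pool.Agent.Y901.VK.et r m) / r) =
      (X : ℝ) ^ Ee r (m + 1) := by
    rw [← Real.rpow_natCast, ← Real.rpow_add hX0, ← Real.rpow_add hX0, Ee_succ hr]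
  have hfac : (0 : ℝ) ≤ (r.factorial : ℝ) := Nat.cast_nonneg _
  have hK1 : (0 : ℝ) ≤ (1 + vm_KK r) ^ Ee r m := Real.rpow_nonneg (by linarith) _
  calc (BB (r ^ 2 + r * m) r p X : ℝ) ≤ (p : ℝ) ^ (2 * (r ^ 2 + r * m)) *
      ((r.factorial : ℝ) * (p : ℝ) ^ (r * (r - 1) / 2) * (X : ℝ) ^ r *
        (J (r ^ 2 + r * m) r (X / p + 1) : ℝ)) := h4
    _ ≤ (p : ℝ) ^ (2 * (r ^ 2 + r * m)) *
      ((r.factorial : ℝ) * (p : ℝ) ^ (r * (r - 1) / 2) * (X : ℝ) ^ r *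
        (D * ((1 + vm_KK r) ^ Ee r m * (X : ℝ) ^ Ee r m * (p : ℝ) ^ (-Ee r m)))) := by
        refine mul_le_mul_of_nonneg_left ?_ (by positivity)
        exact mul_le_mul_of_nonneg_left h6 (by positivity)
    _ = (r.factorial : ℝ) * (1 + vm_KK r) ^ Ee r m * D * ((X : ℝ) ^ r * (X : ℝ) ^ Ee r m) *
        ((p : ℝ) ^ (2 * (r ^ 2 + r * m)) * (p : ℝ) ^ (r * (r - 1) / 2) * (p : ℝ) ^ (-Ee r m)) := by
        ring
    _ = (r.factorial : ℝ) * (1 + vm_KK r) ^ Ee r m * D * ((X : ℝ) ^ r * (X : ℝ) ^ Ee r m) *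
        (p : ℝ) ^ ((r : ℝ) ^ 2 - Pool.Agent.Y901.VK.et r m) := by rw [h7]
    _ ≤ (r.factorial : ℝ) * (1 + vm_KK r) ^ Ee r m * D * ((X : ℝ) ^ r * (X : ℝ) ^ Ee r m) *
        (vm_KK r ^ (r ^ 2) * (X : ℝ) ^ (((r : ℝ) ^ 2 - Pool.Agent.Y901.VK.et r m) / r)) := by
        refine mul_le_mul_of_nonneg_left h8 ?_
        have hD0 : 0 ≤ D := by linarith
        positivity
    _ = (r.factorial : ℝ) * (1 + vm_KK r) ^ Ee r m * vm_KK r ^ (r ^ 2) * D *
        ((X : ℝ) ^ r * (X : ℝ) ^ Ee r m * (X : ℝ) ^ (((r : ℝ) ^ 2 - Pool.Agent.Y901.VK.et r m) / r)) := by ring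
    _ = _ := by rw [h9]

/-- the factor in one vm_step -/
noncomputable def vm_FF (r m : ℕ) : ℝ := ((r : ℝ) ^ 3 + 1) * ((r : ℝ) ^ (2 * (r ^ 2 + r * m + r)) +
  (r : ℝ) ^ 3 * (((r ^ 2 + r * m + r).choose r : ℝ) ^ 2 *
    ((r.factorial : ℝ) * (1 + vm_KK r) ^ Ee r m * vm_KK r ^ (r ^ 2))))

/-- one vm_step -/
theorem vm_step (h1 : S_REC) (h2 : S_COND) {r m : ℕ} (hr : 2 ≤ r) {D : ℝ} (hD : 1 ≤ D)
    (ih : ∀ X : ℕ, 1 ≤ X → (J (r ^ 2 + r * m) r X : ℝ) ≤ D * (X : ℝ) ^ Ee r m) {X : ℕ}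
    (hX : 1 ≤ X) :
    (J (r ^ 2 + r * (m + 1)) r X : ℝ) ≤ vm_FF r m * D * (X : ℝ) ^ Ee r (m + 1) := by
  have hR : (2 : ℝ) ≤ r := by exact_mod_cast hr
  have hX' : (1 : ℝ) ≤ X := by exact_mod_cast hX
  obtain ⟨P, hP1, hP2, hP3⟩ := vm_exists_P hr hX
  have h3 := h2 (r ^ 2 + r * m) r X hr hX P (fun p hp => (hP2 p hp).1) hP3
  have e1 : r ^ 2 + r * (m + 1) = r ^ 2 + r * m + r := by ring
  rw [e1]
  have h4 : (J (r ^ 2 + r * m + r) r X : ℝ) ≤ ((P.card : ℝ) + 1) *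
      (((r : ℝ) ^ (r ^ 2 + r * m + r) * (X : ℝ) ^ (r - 1)) ^ 2 +
      ∑ p ∈ P, ((r ^ 2 + r * m + r).choose r : ℝ) ^ 2 * (BB (r ^ 2 + r * m) r p X : ℝ)) := by
    exact_mod_cast h3
  rw [hP1] at h4
  push_cast at h4
  obtain ⟨T, hT⟩ : ∃ T : ℝ, T = (r.factorial : ℝ) * (1 + vm_KK r) ^ Ee r m * vm_KK r ^ (r ^ 2) :=
    ⟨_, rfl⟩
  have hK := vm_KK_ge hr
  have hT0 : 0 ≤ T := by
    rw [hT]
    have : (0 : ℝ) ≤ (1 + vm_KK r) ^ Ee r m := Real.rpow_nonneg (by linarith) _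
    positivity
  have h5 : ∑ p ∈ P, ((r ^ 2 + r * m + r).choose r : ℝ) ^ 2 * (BB (r ^ 2 + r * m) r p X : ℝ) ≤
      (r : ℝ) ^ 3 * (((r ^ 2 + r * m + r).choose r : ℝ) ^ 2 * (T * D * (X : ℝ) ^ Ee r (m + 1))) := by
    have h6 : ∀ p ∈ P, ((r ^ 2 + r * m + r).choose r : ℝ) ^ 2 * (BB (r ^ 2 + r * m) r p X : ℝ) ≤
        ((r ^ 2 + r * m + r).choose r : ℝ) ^ 2 * (T * D * (X : ℝ) ^ Ee r (m + 1)) := by
      intro p hp
      obtain ⟨a, b, c, d⟩ := hP2 p hp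
      refine mul_le_mul_of_nonneg_left ?_ (by positivity)
      rw [hT]
      exact vm_term_le h1 hr hD ih hX a b c d
    refine (Finset.sum_le_card_nsmul P _ _ h6).trans (le_of_eq ?_)
    rw [nsmul_eq_mul, hP1]
    push_cast
    rfl
  have h7 : ((r : ℝ) ^ (r ^ 2 + r * m + r) * (X : ℝ) ^ (r - 1)) ^ 2 ≤
      (r : ℝ) ^ (2 * (r ^ 2 + r * m + r)) * D * (X : ℝ) ^ Ee r (m + 1) := by
    have h8 : ((X : ℝ) ^ (r - 1)) ^ 2 ≤ (X : ℝ) ^ Ee r (m + 1) := by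
      rw [← pow_mul, ← Real.rpow_natCast]
      refine Real.rpow_le_rpow_of_exponent_le hX' ?_
      rw [Ee_eq]
      have h9 := (et_bounds hr (m + 1)).1
      have h10 : (((r - 1) * 2 : ℕ) : ℝ) = ((r : ℝ) - 1) * 2 := by
        rw [Nat.cast_mul, Nat.cast_sub (by omega)]
        push_cast
        ring
      rw [h10]
      push_cast
      have h11 : (0 : ℝ) ≤ (r : ℝ) * m := by positivity
      nlinarith
    calc ((r : ℝ) ^ (r ^ 2 + r * m + r) * (X : ℝ) ^ (r - 1)) ^ 2 =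
        (r : ℝ) ^ (2 * (r ^ 2 + r * m + r)) * 1 * ((X : ℝ) ^ (r - 1)) ^ 2 := by
          rw [mul_pow, ← pow_mul, mul_one]
          congr 2
          ring
      _ ≤ (r : ℝ) ^ (2 * (r ^ 2 + r * m + r)) * D * (X : ℝ) ^ Ee r (m + 1) := by
          refine mul_le_mul ?_ h8 (by positivity) (by positivity)
          exact mul_le_mul_of_nonneg_left hD (by positivity)
  calc (J (r ^ 2 + r * m + r) r X : ℝ) ≤ ((r : ℝ) ^ 3 + 1) *
      (((r : ℝ) ^ (r ^ 2 + r * m + r) * (X : ℝ) ^ (r - 1)) ^ 2 +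
      ∑ p ∈ P, ((r ^ 2 + r * m + r).choose r : ℝ) ^ 2 * (BB (r ^ 2 + r * m) r p X : ℝ)) := h4
    _ ≤ ((r : ℝ) ^ 3 + 1) *
      ((r : ℝ) ^ (2 * (r ^ 2 + r * m + r)) * D * (X : ℝ) ^ Ee r (m + 1) +
      (r : ℝ) ^ 3 * (((r ^ 2 + r * m + r).choose r : ℝ) ^ 2 *
        (T * D * (X : ℝ) ^ Ee r (m + 1)))) := by
        refine mul_le_mul_of_nonneg_left ?_ (by positivity)
        exact add_le_add h7 h5
    _ = _ := by
        unfold vm_FF
        rw [hT]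
        ring

/-- the bound for the factor -/
theorem vm_FF_le {r : ℕ} (hr : 2 ≤ r) (m : ℕ) : vm_FF r m ≤
    Real.exp (86 * (((r : ℝ) + m + 2) ^ 2 * Real.log ((r : ℝ) + m + 2))) := by
  have hR : (2 : ℝ) ≤ r := by exact_mod_cast hr
  have hM : (0 : ℝ) ≤ m := Nat.cast_nonneg m
  obtain ⟨N, hN⟩ : ∃ N : ℝ, N = (r : ℝ) + m + 2 := ⟨_, rfl⟩
  rw [← hN]
  have hN4 : 4 ≤ N := by linarith
  have hN1 : 1 ≤ N := by linarith
  have hrN : (r : ℝ) ≤ N := by linarith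
  have hN0 : 0 < N := by linarith
  obtain ⟨L, hL⟩ : ∃ L : ℝ, L = Real.log N := ⟨_, rfl⟩
  rw [← hL]
  have hNL : N = Real.exp L := by rw [hL, Real.exp_log hN0]
  have hL1 : 1 ≤ L := by
    rw [hL, Real.le_log_iff_exp_le hN0]
    have := Real.exp_one_lt_d9
    linarith
  have r2 : (r : ℝ) ^ 2 ≤ N ^ 2 := pow_le_pow_left₀ (by linarith) hrN 2
  have hN2 : 1 ≤ N ^ 2 := one_le_pow₀ hN1
  have hNN : N ≤ N ^ 2 := by nlinarith
  have h3N : 3 ≤ N ^ 2 := by nlinarith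
  have hsr : (r : ℝ) ^ 2 + r * m + r ≤ N ^ 2 := by
    rw [hN]
    nlinarith [mul_nonneg (show (0 : ℝ) ≤ r by linarith) hM]
  obtain ⟨T, hT⟩ : ∃ T : ℝ, T = N ^ 2 * L := ⟨_, rfl⟩
  have hT0 : 0 ≤ T := by rw [hT]; positivity
  have hNT : ∀ (c : ℝ), 0 ≤ c → c ≤ N ^ 2 → c * L ≤ T := fun c _ h => by
    rw [hT]
    exact mul_le_mul_of_nonneg_right h (by linarith)
  have hre : (r : ℝ) ≤ Real.exp L := by rw [← hNL]; exact hrN
  have he2 : (2 : ℝ) ≤ Real.exp L := by rw [← hNL]; linarith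
  -- the factors
  have a1 : (r : ℝ) ^ 3 + 1 ≤ Real.exp (2 * T) := by
    have h1 : (r : ℝ) ^ 3 + 1 ≤ N ^ 4 := by
      have h2 : (r : ℝ) ^ 3 ≤ N ^ 3 := pow_le_pow_left₀ (by linarith) hrN 3
      have h3 : (1 : ℝ) ≤ N ^ 3 := one_le_pow₀ hN1
      nlinarith
    refine h1.trans ?_
    rw [hNL, ← Real.exp_nat_mul]
    refine Real.exp_le_exp.2 ?_
    have h2 := hNT 3 (by norm_num) h3N
    push_cast
    linarith
  have a3 : (r : ℝ) ^ 3 ≤ Real.exp (2 * T) := by linarith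
  have a2 : (r : ℝ) ^ (2 * (r ^ 2 + r * m + r)) ≤ Real.exp (2 * T) := by
    refine (pow_le_exp (by linarith) hre _).trans (Real.exp_le_exp.2 ?_)
    push_cast
    have := hNT _ (by positivity) hsr
    linarith
  have a4 : ((r ^ 2 + r * m + r).choose r : ℝ) ^ 2 ≤ Real.exp (2 * T) := by
    have h1 : ((r ^ 2 + r * m + r).choose r : ℝ) ≤ 2 ^ (r ^ 2 + r * m + r) := by
      exact_mod_cast Nat.choose_le_two_pow _ _
    have h2 : ((r ^ 2 + r * m + r).choose r : ℝ) ≤ Real.exp T := by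
      refine h1.trans ((pow_le_exp (by norm_num) he2 _).trans (Real.exp_le_exp.2 ?_))
      push_cast
      exact hNT _ (by positivity) hsr
    calc ((r ^ 2 + r * m + r).choose r : ℝ) ^ 2 ≤ Real.exp ((2 : ℕ) * T) :=
          pow_le_exp (Nat.cast_nonneg _) h2 2
      _ = Real.exp (2 * T) := by norm_num
  have a5 : (r.factorial : ℝ) ≤ Real.exp T := by
    have h1 : (r.factorial : ℝ) ≤ (r : ℝ) ^ r := by exact_mod_cast Nat.factorial_le_pow r
    refine h1.trans ((pow_le_exp (by linarith) hre _).trans (Real.exp_le_exp.2 ?_))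
    exact hNT _ (by linarith) (hrN.trans hNN)
  have hK := vm_KK_ge hr
  have hKe : 1 + vm_KK r ≤ Real.exp (26 * L) := by
    have h1 : vm_KK r ≤ N ^ 12 * N ^ 12 * N := by
      unfold vm_KK
      refine mul_le_mul (mul_le_mul ?_ ?_ (by positivity) (by positivity)) (by linarith)
        (by linarith) (by positivity)
      · calc (2 : ℝ) ^ 24 = 4 ^ 12 := by norm_num
          _ ≤ N ^ 12 := pow_le_pow_left₀ (by norm_num) hN4 12
      · exact pow_le_pow_left₀ (by linarith) hrN 12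
    have h2 : Real.exp (26 * L) = N ^ 12 * N ^ 12 * N * N := by
      have h3 : Real.exp (26 * L) = N ^ 26 := by
        rw [hNL, ← Real.exp_nat_mul]
        norm_num
      rw [h3]
      ring
    rw [h2]
    calc 1 + vm_KK r ≤ vm_KK r * 2 := by linarith
      _ ≤ (N ^ 12 * N ^ 12 * N) * N := mul_le_mul h1 (by linarith) (by norm_num) (by positivity)
  have a6 : (1 + vm_KK r) ^ Ee r m ≤ Real.exp (52 * T) := by
    have hE := Ee_nonneg hr m
    have hE2 := Ee_le hr m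
    calc (1 + vm_KK r) ^ Ee r m ≤ Real.exp (26 * L) ^ Ee r m :=
          Real.rpow_le_rpow (by linarith) hKe hE
      _ = Real.exp (26 * L * Ee r m) := (Real.exp_mul _ _).symm
      _ ≤ Real.exp (52 * T) := by
          refine Real.exp_le_exp.2 ?_
          have h1 : Ee r m ≤ 2 * N ^ 2 := by linarith
          calc 26 * L * Ee r m ≤ 26 * L * (2 * N ^ 2) := mul_le_mul_of_nonneg_left h1 (by linarith)
            _ = 52 * T := by rw [hT]; ring
  have a7 : vm_KK r ^ (r ^ 2) ≤ Real.exp (26 * T) := by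
    refine (pow_le_exp (by linarith) (show vm_KK r ≤ Real.exp (26 * L) by linarith) _).trans
      (Real.exp_le_exp.2 ?_)
    push_cast
    have := hNT _ (by positivity) r2
    linarith
  have hK1 : (0 : ℝ) ≤ (1 + vm_KK r) ^ Ee r m := Real.rpow_nonneg (by linarith) _
  have hf : (0 : ℝ) ≤ (r.factorial : ℝ) := Nat.cast_nonneg _
  have hKp : (0 : ℝ) ≤ vm_KK r ^ (r ^ 2) := pow_nonneg (by linarith) _
  have b1 : (r.factorial : ℝ) * (1 + vm_KK r) ^ Ee r m * vm_KK r ^ (r ^ 2) ≤ Real.exp (79 * T) := by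
    calc (r.factorial : ℝ) * (1 + vm_KK r) ^ Ee r m * vm_KK r ^ (r ^ 2) ≤
        Real.exp T * Real.exp (52 * T) * Real.exp (26 * T) :=
          mul_le_mul (mul_le_mul a5 a6 hK1 (Real.exp_nonneg _)) a7 hKp (by positivity)
      _ = Real.exp (79 * T) := by
          rw [← Real.exp_add, ← Real.exp_add]
          congr 1
          ring
  have b3 : (r : ℝ) ^ 3 * (((r ^ 2 + r * m + r).choose r : ℝ) ^ 2 *
      ((r.factorial : ℝ) * (1 + vm_KK r) ^ Ee r m * vm_KK r ^ (r ^ 2))) ≤ Real.exp (83 * T) := by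
    calc (r : ℝ) ^ 3 * (((r ^ 2 + r * m + r).choose r : ℝ) ^ 2 *
        ((r.factorial : ℝ) * (1 + vm_KK r) ^ Ee r m * vm_KK r ^ (r ^ 2))) ≤
        Real.exp (2 * T) * (Real.exp (2 * T) * Real.exp (79 * T)) :=
          mul_le_mul a3 (mul_le_mul a4 b1 (by positivity) (by positivity)) (by positivity)
            (by positivity)
      _ = Real.exp (83 * T) := by
          rw [← Real.exp_add, ← Real.exp_add]
          congr 1
          ring
  have hTT : 1 ≤ T := by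
    have := hNT 1 (by norm_num) hN2
    linarith
  unfold vm_FF
  have b4 : (r : ℝ) ^ (2 * (r ^ 2 + r * m + r)) ≤ Real.exp (83 * T) :=
    a2.trans (Real.exp_le_exp.2 (by linarith))
  have b5 : (2 : ℝ) ≤ Real.exp T := by
    have := Real.add_one_le_exp T
    linarith
  rw [← hT]
  calc ((r : ℝ) ^ 3 + 1) * ((r : ℝ) ^ (2 * (r ^ 2 + r * m + r)) +
      (r : ℝ) ^ 3 * (((r ^ 2 + r * m + r).choose r : ℝ) ^ 2 *
      ((r.factorial : ℝ) * (1 + vm_KK r) ^ Ee r m * vm_KK r ^ (r ^ 2)))) ≤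
      Real.exp (2 * T) * (Real.exp (83 * T) + Real.exp (83 * T)) :=
        mul_le_mul a1 (add_le_add b4 b3) (by positivity) (by positivity)
    _ = 2 * (Real.exp (2 * T) * Real.exp (83 * T)) := by ring
    _ ≤ Real.exp T * (Real.exp (2 * T) * Real.exp (83 * T)) :=
        mul_le_mul_of_nonneg_right b5 (by positivity)
    _ = Real.exp (86 * T) := by
        rw [← Real.exp_add, ← Real.exp_add]
        congr 1
        ring

/-- the induction -/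
theorem vm_main (h1 : S_REC) (h2 : S_COND) {r : ℕ} (hr : 2 ≤ r) (m : ℕ) : ∀ X : ℕ, 1 ≤ X →
    (J (r ^ 2 + r * m) r X : ℝ) ≤
      Real.exp (86 * m * (((r : ℝ) + m + 2) ^ 2 * Real.log ((r : ℝ) + m + 2))) * (X : ℝ) ^ Ee r m := by
  have hR : (2 : ℝ) ≤ r := by exact_mod_cast hr
  induction m with
  | zero =>
    intro X hX
    have h3 : (J (r ^ 2 + r * 0) r X : ℝ) ≤ (X : ℝ) ^ (2 * (r ^ 2 + r * 0)) := by
      exact_mod_cast J_le (r ^ 2 + r * 0) r X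
    have h4 : Ee r 0 = ((2 * (r ^ 2 + r * 0) : ℕ) : ℝ) := by
      unfold Ee
      push_cast
      ring
    rw [h4, Real.rpow_natCast]
    simpa using h3
  | succ m ih =>
    intro X hX
    have hM : (0 : ℝ) ≤ m := Nat.cast_nonneg m
    have hL0 : 0 ≤ Real.log ((r : ℝ) + m + 2) := Real.log_nonneg (by linarith)
    have h3 := vm_step h1 h2 hr (Real.one_le_exp (by positivity)) ih hX
    refine h3.trans ?_
    refine mul_le_mul_of_nonneg_right ?_ (by positivity)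
    calc vm_FF r m * Real.exp (86 * m * (((r : ℝ) + m + 2) ^ 2 * Real.log ((r : ℝ) + m + 2))) ≤
        Real.exp (86 * (((r : ℝ) + m + 2) ^ 2 * Real.log ((r : ℝ) + m + 2))) *
          Real.exp (86 * m * (((r : ℝ) + m + 2) ^ 2 * Real.log ((r : ℝ) + m + 2))) :=
          mul_le_mul_of_nonneg_right (vm_FF_le hr m) (Real.exp_nonneg _)
      _ = Real.exp (86 * (m + 1) * (((r : ℝ) + m + 2) ^ 2 * Real.log ((r : ℝ) + m + 2))) := by
          rw [← Real.exp_add]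
          congr 1
          ring
      _ ≤ Real.exp (86 * ((m + 1 : ℕ) : ℝ) * (((r : ℝ) + ((m + 1 : ℕ) : ℝ) + 2) ^ 2 *
          Real.log ((r : ℝ) + ((m + 1 : ℕ) : ℝ) + 2))) := by
          refine Real.exp_le_exp.2 ?_
          push_cast
          refine mul_le_mul_of_nonneg_left ?_ (by positivity)
          refine mul_le_mul (pow_le_pow_left₀ (by positivity) (by linarith) 2)
            (Real.log_le_log (by linarith) (by linarith)) hL0 (by positivity)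

/-- **The mean value theorem.** -/
theorem vm (r m X : ℕ) (hr : 2 ≤ r) (hX : 1 ≤ X) :
    (J (r ^ 2 + r * m) r X : ℝ) ≤
      Real.exp (86 * m * (((r : ℝ) + m + 2) ^ 2 * Real.log ((r : ℝ) + m + 2))) *
      (X : ℝ) ^ (2 * ((r : ℝ) ^ 2 + r * m) - r * (r + 1) / 2 +
        r * (r + 1) / 2 * (1 - 1 / (r : ℝ)) ^ m : ℝ) := by
  have h5 := vm_main
    (Pool.Agent.Y957.VK.rec_of Pool.Agent.Y235.VK.hol
      (Pool.Agent.Y950.VK.cnt Pool.Agent.Y331.VK.lin))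
    Pool.Agent.Y911.VK.cond hr m X hX
  unfold Ee at h5
  exact h5

end Pool.Agent.W2helper84.RB
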