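import Mathlib
import Pool.Agent.W2helper84.RB.MV
import Pool.Agent.W2helper84.RB.Vm

/-!
# Weyl sums of large degree: asymptotic form
-/

set_option autoImplicit false

namespace Pool.Agent.W2helper84.RB

open Finset Polynomial Filter
open Pool.Agent.V11226.ETN (e e_add e_zero norm_e e_int e_nsmul e_neg conj_e e_add_int)
open Pool.Agent.Y957.VK (J Tu)

/-- powers with smaller exponents are negligible -/
theorem ev_pow_le (a b K : ℝ) (hab : a < b) : ∀ᶠ x : ℝ in atTop, K * x ^ a ≤ x ^ b := by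
  have h1 : Tendsto (fun x : ℝ => x ^ (b - a)) atTop atTop := tendsto_rpow_atTop (by linarith)
  filter_upwards [h1.eventually_ge_atTop K, eventually_gt_atTop 0] with x hx hx0
  calc K * x ^ a ≤ x ^ (b - a) * x ^ a := mul_le_mul_of_nonneg_right hx (Real.rpow_nonneg hx0.le _)
    _ = x ^ b := by rw [← Real.rpow_add hx0]; congr 1; ring

theorem ev_const_le (b K : ℝ) (hb : 0 < b) : ∀ᶠ x : ℝ in atTop, K ≤ x ^ b :=
  (tendsto_rpow_atTop hb).eventually_ge_atTop K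

/-- the bound for `d + m` -/
theorem ev_dm (κ κ' γ : ℝ) (hκ : 0 < κ) (h : κ < κ') (hγ : 0 < γ) :
    ∀ᶠ x : ℝ in atTop, x ^ κ * (Real.log (4 * (x ^ κ) ^ 2 / γ) + 3) ≤ x ^ κ' := by
  have h1 : (fun x : ℝ => Real.log x) =o[atTop] fun x : ℝ => x ^ (κ' - κ) :=
    isLittleO_log_rpow_atTop (by linarith)
  have h2 := h1.bound (show (0 : ℝ) < 1 / (4 * κ + 1) by positivity)
  filter_upwards [h2, eventually_ge_atTop 1,
    ev_const_le (κ' - κ) (2 * (Real.log (4 / γ) + 3)) (by linarith)] with x hx hx1 hx2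
  have hx0 : (0 : ℝ) < x := by linarith
  have hlog : 0 ≤ Real.log x := Real.log_nonneg hx1
  rw [Real.norm_of_nonneg hlog, Real.norm_of_nonneg (Real.rpow_nonneg hx0.le _)] at hx
  have h3 : Real.log (4 * (x ^ κ) ^ 2 / γ) = Real.log (4 / γ) + 2 * κ * Real.log x := by
    have h4 : 4 * (x ^ κ) ^ 2 / γ = (4 / γ) * (x ^ κ) ^ 2 := by ring
    rw [h4, Real.log_mul (by positivity) (by positivity), Real.log_pow, Real.log_rpow hx0]
    push_cast
    ring
  have h5 : 2 * κ * Real.log x ≤ x ^ (κ' - κ) / 2 := by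
    have h6 : 2 * κ * Real.log x ≤ 2 * κ * (1 / (4 * κ + 1) * x ^ (κ' - κ)) :=
      mul_le_mul_of_nonneg_left hx (by positivity)
    have h7 : 2 * κ * (1 / (4 * κ + 1) * x ^ (κ' - κ)) = (2 * κ / (4 * κ + 1)) * x ^ (κ' - κ) := by
      ring
    have h8 : 2 * κ / (4 * κ + 1) ≤ 1 / 2 := by
      rw [div_le_div_iff₀ (by positivity) (by norm_num)]
      linarith
    have h9 : (2 * κ / (4 * κ + 1)) * x ^ (κ' - κ) ≤ 1 / 2 * x ^ (κ' - κ) :=
      mul_le_mul_of_nonneg_right h8 (Real.rpow_nonneg hx0.le _)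
    linarith
  have h6 : Real.log (4 * (x ^ κ) ^ 2 / γ) + 3 ≤ x ^ (κ' - κ) := by
    rw [h3]
    linarith
  calc x ^ κ * (Real.log (4 * (x ^ κ) ^ 2 / γ) + 3) ≤ x ^ κ * x ^ (κ' - κ) :=
        mul_le_mul_of_nonneg_left h6 (Real.rpow_nonneg hx0.le _)
    _ = x ^ κ' := by rw [← Real.rpow_add hx0]; congr 1; ring

/-- the bound for the constant in the mean value theorem -/
theorem ev_vm (κ' γ : ℝ) (hκ0 : 0 < κ') (hκ : κ' < 1 / 3) (hγ : 0 < γ) :
    ∀ᶠ x : ℝ in atTop, 86 * x ^ κ' * ((2 * x ^ κ') ^ 2 * Real.log (2 * x ^ κ')) ≤ γ / 8 * x := by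
  obtain ⟨δ, hδ0, hδ⟩ : ∃ δ : ℝ, 0 < δ ∧ 3 * κ' + δ < 1 := ⟨(1 - 3 * κ') / 2, by linarith, by linarith⟩
  have h1 : (fun x : ℝ => Real.log x) =o[atTop] fun x : ℝ => x ^ δ := isLittleO_log_rpow_atTop hδ0
  have h2 := h1.bound (show (0 : ℝ) < 1 by norm_num)
  filter_upwards [h2, eventually_ge_atTop 1, ev_const_le δ 1 hδ0,
    ev_pow_le (3 * κ' + δ) 1 (8 * (86 * 4 * 2) / γ) hδ] with x hx hx1 hx2 hx3
  have hx0 : (0 : ℝ) < x := by linarith
  have hlog : 0 ≤ Real.log x := Real.log_nonneg hx1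
  rw [Real.norm_of_nonneg hlog, Real.norm_of_nonneg (Real.rpow_nonneg hx0.le _), one_mul] at hx
  have h3 : Real.log (2 * x ^ κ') ≤ 2 * x ^ δ := by
    rw [Real.log_mul (by norm_num) (by positivity), Real.log_rpow hx0]
    have h4 : Real.log 2 ≤ x ^ δ := by
      have := Real.log_two_lt_d9
      linarith
    have h5 : κ' * Real.log x ≤ 1 * Real.log x := mul_le_mul_of_nonneg_right (by linarith) hlog
    linarith
  calc 86 * x ^ κ' * ((2 * x ^ κ') ^ 2 * Real.log (2 * x ^ κ')) ≤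
      86 * x ^ κ' * ((2 * x ^ κ') ^ 2 * (2 * x ^ δ)) :=
        mul_le_mul_of_nonneg_left (mul_le_mul_of_nonneg_left h3 (by positivity)) (by positivity)
    _ = 86 * 4 * 2 * x ^ (3 * κ' + δ) := by
        have h6 : x ^ (3 * κ' + δ) = x ^ κ' * x ^ κ' * x ^ κ' * x ^ δ := by
          rw [← Real.rpow_add hx0, ← Real.rpow_add hx0, ← Real.rpow_add hx0]
          congr 1
          ring
        rw [h6]
        ring
    _ ≤ γ / 8 * x := by
        rw [Real.rpow_one, div_mul_eq_mul_div, div_le_iff₀ hγ] at hx3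
        linarith

/-- the choice of `m` -/
theorem eta_le (d m : ℕ) (hd : 2 ≤ d) (γ : ℝ) (hγ : 0 < γ)
    (hm : (d : ℝ) * Real.log (4 * (d : ℝ) ^ 2 / γ) ≤ m) :
    (d : ℝ) * (d + 1) / 2 * (1 - 1 / (d : ℝ)) ^ m ≤ γ / 4 := by
  have hd2 : (2 : ℝ) ≤ d := by exact_mod_cast hd
  have hd0 : (0 : ℝ) < d := by linarith
  have h1 : (1 - 1 / (d : ℝ)) ^ m ≤ Real.exp (-(m / d)) := by
    have h2 : 1 - 1 / (d : ℝ) ≤ Real.exp (-(1 / d)) := by
      have := Real.add_one_le_exp (-(1 / (d : ℝ)))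
      linarith
    have h3 : (0 : ℝ) ≤ 1 - 1 / (d : ℝ) := by
      rw [sub_nonneg, div_le_one hd0]
      linarith
    calc (1 - 1 / (d : ℝ)) ^ m ≤ (Real.exp (-(1 / d))) ^ m := pow_le_pow_left₀ h3 h2 m
      _ = Real.exp (-(m / d)) := by
        rw [← Real.exp_nat_mul]
        congr 1
        ring
  have h2 : Real.exp (-((m : ℝ) / d)) ≤ γ / (4 * (d : ℝ) ^ 2) := by
    have h3 : Real.log (4 * (d : ℝ) ^ 2 / γ) ≤ m / d := by
      rw [le_div_iff₀ hd0, mul_comm]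
      exact hm
    calc Real.exp (-((m : ℝ) / d)) ≤ Real.exp (-Real.log (4 * (d : ℝ) ^ 2 / γ)) :=
          Real.exp_le_exp.2 (by linarith)
      _ = γ / (4 * (d : ℝ) ^ 2) := by
        rw [Real.exp_neg, Real.exp_log (by positivity), inv_div]
  calc (d : ℝ) * (d + 1) / 2 * (1 - 1 / (d : ℝ)) ^ m ≤
      (d : ℝ) * (d + 1) / 2 * (γ / (4 * (d : ℝ) ^ 2)) :=
        mul_le_mul_of_nonneg_left (h1.trans h2) (by positivity)
    _ = γ / 4 * ((d + 1) / (2 * d)) := by field_simp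
    _ ≤ γ / 4 * 1 := by
        refine mul_le_mul_of_nonneg_left ?_ (by positivity)
        rw [div_le_one (by positivity)]
        linarith
    _ = γ / 4 := mul_one _

/-- the size of the sum, parameters fixed -/
theorem size_aux (A : ℝ) (f : ℝ[X]) (d m s H Y : ℕ) (γ : ℝ) (hγ : 0 < γ) (hγ1 : γ ≤ 1 / 2)
    (hJ : (J (d ^ 2 + d * m) d H : ℝ) ≤ Real.exp A *
      (H : ℝ) ^ (2 * ((d : ℝ) ^ 2 + d * m) - d * (d + 1) / 2 +
        d * (d + 1) / 2 * (1 - 1 / (d : ℝ)) ^ m : ℝ))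
    (hd : 2 ≤ d) (hdeg : f.natDegree = d) (hs : s = d ^ 2 + d * m) (hH : 16 ≤ H)
    (hm : (d : ℝ) * Real.log (4 * (d : ℝ) ^ 2 / γ) ≤ m)
    (hY1 : (H : ℝ) ^ γ ≤ 2 * Y) (hY2 : (Y : ℝ) ≤ (H : ℝ) ^ γ) (hY0 : 1 ≤ Y)
    (h1 : A ≤ γ / 8 * Real.log H)
    (h2 : Real.log 10 + ((d : ℝ) + m) ^ 2 ≤ γ / 8 * Real.log H)
    (hsep : ∀ y : ℕ, 1 ≤ y → y < Y →
      1 ≤ ((s * H ^ (d - 1) : ℕ) : ℝ) * dz (d * f.leadingCoeff * y)) :
    ‖∑ t ∈ Icc 1 H, e (f.eval (t : ℝ))‖ ≤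
      4 * H * Real.exp (-(γ * Real.log H / (4 * s))) := by
  have hd2 : (2 : ℝ) ≤ d := by exact_mod_cast hd
  have hm0 : (0 : ℝ) ≤ m := Nat.cast_nonneg m
  have hH16 : (16 : ℝ) ≤ H := by exact_mod_cast hH
  have hH0 : (0 : ℝ) < H := by linarith
  have hs4 : 4 ≤ s := by
    rw [hs]
    nlinarith
  have hs4' : (4 : ℝ) ≤ s := by exact_mod_cast hs4
  have hsR : (s : ℝ) = (d : ℝ) ^ 2 + d * m := by rw [hs]; push_cast; ring
  obtain ⟨ℓ, hℓ⟩ : ∃ ℓ : ℝ, ℓ = Real.log H := ⟨_, rfl⟩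
  have hHe : (H : ℝ) = Real.exp ℓ := by rw [hℓ, Real.exp_log hH0]
  have hℓ0 : 0 < ℓ := by rw [hℓ]; exact Real.log_pos (by linarith)
  rw [← hℓ] at h1 h2
  have hw := weyl f d s H Y hd hdeg (by omega) (by omega) hsep
  obtain ⟨S, hS⟩ : ∃ S : ℝ, S = ‖∑ t ∈ Icc 1 H, e (f.eval (t : ℝ))‖ := ⟨_, rfl⟩
  have hS0 : 0 ≤ S := by rw [hS]; exact norm_nonneg _
  rw [← hS] at hw ⊢
  rw [← hs] at hJ
  obtain ⟨η, hη⟩ : ∃ η : ℝ, η = (d : ℝ) * (d + 1) / 2 * (1 - 1 / (d : ℝ)) ^ m := ⟨_, rfl⟩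
  have hη1 : η ≤ γ / 4 := by rw [hη]; exact eta_le d m hd γ hγ hm
  have hYpos : (0 : ℝ) < Y := by exact_mod_cast hY0
  -- the main term
  have hA : 5 * ((s ^ d * H ^ (d * (d + 1) / 2) : ℕ) : ℝ) * (J s d H : ℝ) ≤
      Real.exp (ℓ * (2 * s) + γ / 2 * ℓ) / 2 := by
    have e1 : ((H : ℝ) ^ (d * (d + 1) / 2 : ℕ)) = Real.exp (ℓ * (d * (d + 1) / 2)) := by
      have h3 : ((d * (d + 1) / 2 : ℕ) : ℝ) = (d : ℝ) * (d + 1) / 2 := by
        have h4 : 2 ∣ d * (d + 1) := (Nat.even_mul_succ_self d).two_dvd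
        rw [Nat.cast_div h4 (by norm_num)]
        push_cast
        ring
      rw [hHe, ← Real.exp_nat_mul, h3]
      congr 1
      ring
    have e2 : (s : ℝ) ^ d ≤ Real.exp (((d : ℝ) + m) ^ 2) := by
      have h3 : (s : ℝ) ≤ Real.exp ((d : ℝ) + m) := by
        -- `(1 + x / 4)^4 ≤ exp x`
        have h7 := Real.add_one_le_exp (((d : ℝ) + m) / 4)
        have h8 : Real.exp ((d : ℝ) + m) = Real.exp (((d : ℝ) + m) / 4) ^ 4 := by
          rw [← Real.exp_nat_mul]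
          congr 1
          push_cast
          ring
        have h9 : (((d : ℝ) + m) / 4 + 1) ^ 4 ≤ Real.exp ((d : ℝ) + m) := by
          rw [h8]
          exact pow_le_pow_left₀ (by positivity) h7 4
        refine le_trans ?_ h9
        have h10 : (s : ℝ) ≤ ((d : ℝ) + m) ^ 2 := by
          rw [hsR]
          nlinarith [mul_nonneg hm0 hm0, mul_nonneg (show (0 : ℝ) ≤ d by linarith) hm0]
        refine h10.trans ?_
        obtain ⟨x, hx⟩ : ∃ x : ℝ, x = (d : ℝ) + m := ⟨_, rfl⟩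
        rw [← hx]
        have hx0 : 0 ≤ x := by rw [hx]; positivity
        -- `x ≤ (x/4+1)^2`
        have h11 : x ≤ (x / 4 + 1) ^ 2 := by nlinarith [sq_nonneg (x / 4 - 1)]
        calc x ^ 2 ≤ ((x / 4 + 1) ^ 2) ^ 2 := pow_le_pow_left₀ hx0 h11 2
          _ = (x / 4 + 1) ^ 4 := by ring
      calc (s : ℝ) ^ d ≤ (Real.exp ((d : ℝ) + m)) ^ d := pow_le_pow_left₀ (by positivity) h3 d
        _ = Real.exp (d * ((d : ℝ) + m)) := by rw [← Real.exp_nat_mul]
        _ ≤ _ := by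
            refine Real.exp_le_exp.2 ?_
            rw [sq]
            exact mul_le_mul_of_nonneg_right (by linarith) (by positivity)
    have e3 : (J s d H : ℝ) ≤ Real.exp (γ / 8 * ℓ) * Real.exp (ℓ * (2 * s - d * (d + 1) / 2 + η)) := by
      refine hJ.trans ?_
      refine mul_le_mul (Real.exp_le_exp.2 h1) ?_ (by positivity) (by positivity)
      rw [hHe, ← Real.exp_mul, hsR, hη]
    have e4 : (5 : ℝ) * Real.exp (((d : ℝ) + m) ^ 2) ≤ Real.exp (γ / 8 * ℓ) / 2 := by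
      have h3 : (10 : ℝ) * Real.exp (((d : ℝ) + m) ^ 2) = Real.exp (Real.log 10 + ((d : ℝ) + m) ^ 2) := by
        rw [Real.exp_add, Real.exp_log (by norm_num)]
      have h4 := Real.exp_le_exp.2 h2
      rw [← h3] at h4
      linarith
    push_cast
    rw [e1]
    calc 5 * ((s : ℝ) ^ d * Real.exp (ℓ * (d * (d + 1) / 2))) * (J s d H : ℝ) ≤
        5 * (Real.exp (((d : ℝ) + m) ^ 2) * Real.exp (ℓ * (d * (d + 1) / 2))) *
          (Real.exp (γ / 8 * ℓ) * Real.exp (ℓ * (2 * s - d * (d + 1) / 2 + η))) := by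
          refine mul_le_mul ?_ e3 (Nat.cast_nonneg _) (by positivity)
          refine mul_le_mul_of_nonneg_left ?_ (by norm_num)
          exact mul_le_mul_of_nonneg_right e2 (Real.exp_nonneg _)
      _ = (5 * Real.exp (((d : ℝ) + m) ^ 2)) * (Real.exp (ℓ * (d * (d + 1) / 2)) *
          (Real.exp (γ / 8 * ℓ) * Real.exp (ℓ * (2 * s - d * (d + 1) / 2 + η)))) := by ring
      _ ≤ (Real.exp (γ / 8 * ℓ) / 2) * (Real.exp (ℓ * (d * (d + 1) / 2)) *
          (Real.exp (γ / 8 * ℓ) * Real.exp (ℓ * (2 * s - d * (d + 1) / 2 + η)))) :=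
          mul_le_mul_of_nonneg_right e4 (by positivity)
      _ = Real.exp (γ / 4 * ℓ + ℓ * (2 * s + η)) / 2 := by
          rw [div_mul_eq_mul_div, ← Real.exp_add, ← Real.exp_add, ← Real.exp_add]
          congr 2
          ring
      _ ≤ Real.exp (ℓ * (2 * s) + γ / 2 * ℓ) / 2 := by
          refine div_le_div_of_nonneg_right (Real.exp_le_exp.2 ?_) (by norm_num)
          nlinarith
  -- the second term
  have hB : (2 * (Y : ℝ)) ^ (2 * s) ≤ Real.exp (ℓ * (2 * s) - γ / 2 * ℓ) := by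
    have e1 : 2 * (Y : ℝ) ≤ Real.exp (3 / 4 * ℓ) := by
      have h3 : (H : ℝ) ^ γ ≤ Real.exp (ℓ / 2) := by
        rw [hHe, ← Real.exp_mul]
        refine Real.exp_le_exp.2 ?_
        nlinarith
      have h4 : (2 : ℝ) ≤ Real.exp (ℓ / 4) := by
        have h5 : (16 : ℝ) ≤ Real.exp (ℓ / 4) ^ 4 := by
          rw [← Real.exp_nat_mul]
          have : ((4 : ℕ) : ℝ) * (ℓ / 4) = ℓ := by push_cast; ring
          rw [this, ← hHe]
          exact hH16
        by_contra hcon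
        push Not at hcon
        have h6 : Real.exp (ℓ / 4) ^ 4 < 2 ^ 4 :=
          pow_lt_pow_left₀ hcon (Real.exp_nonneg _) (by norm_num)
        norm_num at h6
        linarith
      calc 2 * (Y : ℝ) ≤ Real.exp (ℓ / 4) * Real.exp (ℓ / 2) :=
            mul_le_mul h4 (hY2.trans h3) hYpos.le (Real.exp_nonneg _)
        _ = Real.exp (3 / 4 * ℓ) := by
            rw [← Real.exp_add]
            congr 1
            ring
    calc (2 * (Y : ℝ)) ^ (2 * s) ≤ (Real.exp (3 / 4 * ℓ)) ^ (2 * s) :=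
          pow_le_pow_left₀ (by positivity) e1 _
      _ = Real.exp (((2 * s : ℕ) : ℝ) * (3 / 4 * ℓ)) := by rw [← Real.exp_nat_mul]
      _ ≤ _ := by
          refine Real.exp_le_exp.2 ?_
          push_cast
          nlinarith
  -- combine
  have hC1 : S ^ (2 * s) ≤ 4 ^ s * (2 * Real.exp (ℓ * (2 * s) - γ / 2 * ℓ)) := by
    have h3 : (Y : ℝ) * S ^ (2 * s) ≤ Y * (4 ^ s * (2 * Real.exp (ℓ * (2 * s) - γ / 2 * ℓ))) := by
      refine hw.trans ?_
      have h4 : 5 * ((s ^ d * H ^ (d * (d + 1) / 2) : ℕ) : ℝ) * (J s d H : ℝ) ≤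
          Y * Real.exp (ℓ * (2 * s) - γ / 2 * ℓ) := by
        refine hA.trans ?_
        have h5 : Real.exp (ℓ * (2 * s) + γ / 2 * ℓ) =
            (H : ℝ) ^ γ * Real.exp (ℓ * (2 * s) - γ / 2 * ℓ) := by
          rw [hHe, ← Real.exp_mul, ← Real.exp_add]
          congr 1
          ring
        rw [h5]
        have h6 : (H : ℝ) ^ γ / 2 ≤ Y := by linarith
        calc (H : ℝ) ^ γ * Real.exp (ℓ * (2 * s) - γ / 2 * ℓ) / 2 =
            (H : ℝ) ^ γ / 2 * Real.exp (ℓ * (2 * s) - γ / 2 * ℓ) := by ring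
          _ ≤ _ := mul_le_mul_of_nonneg_right h6 (Real.exp_nonneg _)
      calc 4 ^ s * (5 * ((s ^ d * H ^ (d * (d + 1) / 2) : ℕ) : ℝ) * (J s d H : ℝ) +
            Y * (2 * Y) ^ (2 * s)) ≤
          4 ^ s * (Y * Real.exp (ℓ * (2 * s) - γ / 2 * ℓ) +
            Y * Real.exp (ℓ * (2 * s) - γ / 2 * ℓ)) := by
            refine mul_le_mul_of_nonneg_left (add_le_add h4 ?_) (by positivity)
            exact mul_le_mul_of_nonneg_left hB hYpos.le
        _ = _ := by ring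
    exact le_of_mul_le_mul_left h3 hYpos
  have hfin : S ^ (2 * s) ≤ (4 * H * Real.exp (-(γ * ℓ / (4 * s)))) ^ (2 * s) := by
    refine hC1.trans ?_
    have h3 : (4 * (H : ℝ) * Real.exp (-(γ * ℓ / (4 * s)))) ^ (2 * s) =
        16 ^ s * Real.exp (ℓ * (2 * s) - γ / 2 * ℓ) := by
      rw [mul_pow, mul_pow, hHe, ← Real.exp_nat_mul, ← Real.exp_nat_mul, mul_assoc, ← Real.exp_add]
      have h4 : (4 : ℝ) ^ (2 * s) = 16 ^ s := by rw [pow_mul]; norm_num
      rw [h4]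
      congr 2
      push_cast
      have hs0 : (s : ℝ) ≠ 0 := by linarith
      field_simp
      ring
    rw [h3]
    have h4 : (4 : ℝ) ^ s * 2 ≤ 16 ^ s := by
      have h5 : (16 : ℝ) ^ s = 4 ^ s * 4 ^ s := by rw [← mul_pow]; norm_num
      rw [h5]
      refine mul_le_mul_of_nonneg_left ?_ (by positivity)
      calc (2 : ℝ) ≤ 4 ^ 1 := by norm_num
        _ ≤ 4 ^ s := pow_le_pow_right₀ (by norm_num) (by omega)
    calc 4 ^ s * (2 * Real.exp (ℓ * (2 * s) - γ / 2 * ℓ)) =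
        (4 ^ s * 2) * Real.exp (ℓ * (2 * s) - γ / 2 * ℓ) := by ring
      _ ≤ _ := mul_le_mul_of_nonneg_right h4 (Real.exp_nonneg _)
  rw [← hℓ]
  exact (pow_le_pow_iff_left₀ hS0 (by positivity) (by omega)).1 hfin

/-- **Weyl sums of large degree.** -/
theorem weyl_asym (κ β₁ β₂ κ₀ c : ℝ) (hκ : 0 < κ) (hκ4 : κ < 1 / 3) (hβ₁ : β₁ < 1)
    (hβ₂ : β₂ < 1 - 2 * κ) (hκ₀ : 0 ≤ κ₀) (hc : 0 < c) :
    ∃ H₀ : ℕ, ∀ H : ℕ, H₀ ≤ H → ∀ f : ℝ[X], 1 ≤ f.natDegree →
      (f.natDegree : ℝ) ≤ (Real.log H) ^ κ → ∀ N : ℝ, 1 ≤ N → N ≤ Real.exp ((Real.log H) ^ β₁) →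
      (∀ n : ℕ, 1 ≤ n → c ≤ (n * N) ^ κ₀ * dz (n * f.leadingCoeff)) → ∀ a : ℕ,
      ‖∑ b ∈ Ioc a (a + H), e (f.eval (b : ℝ))‖ ≤ H * Real.exp (-(Real.log H) ^ β₂) := by
  obtain ⟨γ, hγ⟩ : ∃ γ : ℝ, γ = 1 / (2 * κ₀ + 2) := ⟨_, rfl⟩
  have hγ0 : 0 < γ := by rw [hγ]; positivity
  have hγ1 : γ ≤ 1 / 2 := by
    rw [hγ, div_le_div_iff₀ (by positivity) (by norm_num)]
    linarith
  have hγκ : κ₀ * γ ≤ 1 / 2 := by
    rw [hγ, mul_one_div, div_le_div_iff₀ (by positivity) (by norm_num)]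
    linarith
  obtain ⟨κ', h1, h2, h3⟩ : ∃ κ' : ℝ, κ < κ' ∧ κ' < 1 / 3 ∧ β₂ < 1 - 2 * κ' := by
    refine ⟨(κ + min (1 / 3) ((1 - β₂) / 2)) / 2, ?_, ?_, ?_⟩
    · have : κ < min (1 / 3) ((1 - β₂) / 2) := lt_min hκ4 (by linarith)
      linarith
    · have := min_le_left (1 / 3) ((1 - β₂) / 2)
      linarith
    · have h4 := min_le_right (1 / 3) ((1 - β₂) / 2)
      linarith
  have hlog : Tendsto (fun H : ℕ => Real.log (H : ℝ)) atTop atTop :=
    Real.tendsto_log_atTop.comp tendsto_natCast_atTop_atTop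
  have hev : ∀ᶠ x : ℝ in atTop,
      x ^ κ * (Real.log (4 * (x ^ κ) ^ 2 / γ) + 3) ≤ x ^ κ' ∧
      86 * x ^ κ' * ((2 * x ^ κ') ^ 2 * Real.log (2 * x ^ κ')) ≤ γ / 8 * x ∧
      16 / γ * x ^ (2 * κ') ≤ x ^ (1 : ℝ) ∧
      16 / γ * Real.log 10 ≤ x ^ (1 : ℝ) ∧
      8 * κ₀ * x ^ κ ≤ x ^ (1 : ℝ) ∧
      8 * κ₀ * x ^ β₁ ≤ x ^ (1 : ℝ) ∧
      8 * (-Real.log c) ≤ x ^ (1 : ℝ) ∧
      8 / γ * x ^ β₂ ≤ x ^ (1 - 2 * κ') ∧
      8 / γ * Real.log 4 ≤ x ^ (1 - 2 * κ') ∧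
      8 * x ^ β₂ ≤ x ^ (1 : ℝ) ∧ 1 ≤ x := by
    filter_upwards [ev_dm κ κ' γ hκ h1 hγ0, ev_vm κ' γ (by linarith) h2 hγ0,
      ev_pow_le (2 * κ') 1 (16 / γ) (by linarith), ev_const_le 1 (16 / γ * Real.log 10) one_pos,
      ev_pow_le κ 1 (8 * κ₀) (by linarith), ev_pow_le β₁ 1 (8 * κ₀) hβ₁,
      ev_const_le 1 (8 * (-Real.log c)) one_pos, ev_pow_le β₂ (1 - 2 * κ') (8 / γ) h3,
      ev_const_le (1 - 2 * κ') (8 / γ * Real.log 4) (by linarith),
      ev_pow_le β₂ 1 8 (by linarith), eventually_ge_atTop 1]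
      with x a1 a2 a3 a4 a5 a6 a7 a8 a9 a10 a11
    exact ⟨a1, a2, a3, a4, a5, a6, a7, a8, a9, a10, a11⟩
  obtain ⟨H₀, hH₀⟩ := eventually_atTop.1 ((hlog.eventually hev).and (eventually_ge_atTop 16))
  refine ⟨H₀, fun H hH f hf1 hfκ N hN1 hN hdio a => ?_⟩
  obtain ⟨⟨a1, a2, a3, a4, a5, a6, a7, a8, a9, a10, a11⟩, hH16⟩ := hH₀ H hH
  obtain ⟨x, hx⟩ : ∃ x : ℝ, x = Real.log H := ⟨_, rfl⟩
  rw [← hx] at a1 a2 a3 a4 a5 a6 a7 a8 a9 a10 a11 hfκ hN ⊢
  have hx0 : 0 < x := by linarith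
  rw [Real.rpow_one] at a3 a4 a5 a6 a7 a10
  have hHR : (16 : ℝ) ≤ H := by exact_mod_cast hH16
  have hH0 : (0 : ℝ) < H := by linarith
  have hHe : (H : ℝ) = Real.exp x := by rw [hx, Real.exp_log hH0]
  have hN0 : 0 < N := by linarith
  -- the sum over `Icc 1 H`
  obtain ⟨F, hF⟩ : ∃ F : ℝ[X], F = taylor (a : ℝ) f := ⟨_, rfl⟩
  have hFdeg : F.natDegree = f.natDegree := by rw [hF, natDegree_taylor]
  have hFlc : F.leadingCoeff = f.leadingCoeff := by
    rw [hF]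
    exact leadingCoeff_taylor _ _
  have hsum : ∑ b ∈ Ioc a (a + H), e (f.eval (b : ℝ)) = ∑ t ∈ Icc 1 H, e (F.eval (t : ℝ)) := by
    have h4 : ∑ t ∈ Icc 1 H, e (F.eval (t : ℝ)) =
        ∑ t ∈ Ico 1 (H + 1), (fun b : ℕ => e (f.eval (b : ℝ))) (t + a) := by
      refine sum_congr rfl fun t _ => ?_
      rw [hF, taylor_eval]
      push_cast
      rfl
    rw [h4, Finset.sum_Ico_add' (fun b : ℕ => e (f.eval (b : ℝ))) 1 (H + 1) a]
    refine sum_congr ?_ fun _ _ => rfl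
    ext b
    rw [mem_Ioc, mem_Ico]
    omega
  rw [hsum]
  have hdio' : ∀ n : ℕ, 1 ≤ n → c ≤ (n * N) ^ κ₀ * dz (n * F.leadingCoeff) := by
    rw [hFlc]; exact hdio
  rw [← hFdeg] at hf1 hfκ
  rcases Nat.lt_or_ge 1 F.natDegree with hd | hd
  · -- degree at least two
    obtain ⟨d, hdd⟩ : ∃ d : ℕ, d = F.natDegree := ⟨_, rfl⟩
    rw [← hdd] at hd hfκ
    have hd2 : (2 : ℝ) ≤ d := by exact_mod_cast hd
    have hd0 : (0 : ℝ) < d := by linarith
    obtain ⟨m, hm⟩ : ∃ m : ℕ, m = ⌈(d : ℝ) * Real.log (4 * (d : ℝ) ^ 2 / γ)⌉₊ := ⟨_, rfl⟩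
    have hlg : 0 ≤ Real.log (4 * (d : ℝ) ^ 2 / γ) := by
      apply Real.log_nonneg
      rw [le_div_iff₀ hγ0]
      nlinarith
    have hm1 : (d : ℝ) * Real.log (4 * (d : ℝ) ^ 2 / γ) ≤ m := by rw [hm]; exact Nat.le_ceil _
    have hm2 : (m : ℝ) ≤ (d : ℝ) * Real.log (4 * (d : ℝ) ^ 2 / γ) + 1 := by
      rw [hm]; exact (Nat.ceil_lt_add_one (by positivity)).le
    have hdm : (d : ℝ) + m ≤ x ^ κ' := by
      refine le_trans ?_ a1
      have h4 : Real.log (4 * (d : ℝ) ^ 2 / γ) ≤ Real.log (4 * (x ^ κ) ^ 2 / γ) := by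
        apply Real.log_le_log (by positivity)
        gcongr
      calc (d : ℝ) + m ≤ d * (Real.log (4 * (d : ℝ) ^ 2 / γ) + 3) := by nlinarith
        _ ≤ x ^ κ * (Real.log (4 * (x ^ κ) ^ 2 / γ) + 3) :=
            mul_le_mul hfκ (by linarith) (by linarith) (by positivity)
    obtain ⟨s, hs⟩ : ∃ s : ℕ, s = d ^ 2 + d * m := ⟨_, rfl⟩
    have hsR : (s : ℝ) = d * (d + m) := by rw [hs]; push_cast; ring
    have hm0 : (0 : ℝ) ≤ m := Nat.cast_nonneg m
    have hsx : (s : ℝ) ≤ x ^ (2 * κ') := by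
      calc (s : ℝ) ≤ ((d : ℝ) + m) * (d + m) := by
            rw [hsR]
            exact mul_le_mul_of_nonneg_right (by linarith) (by positivity)
        _ ≤ x ^ κ' * x ^ κ' := mul_le_mul hdm hdm (by positivity) (by positivity)
        _ = x ^ (2 * κ') := by rw [← Real.rpow_add hx0]; congr 1; ring
    have hs0 : (0 : ℝ) < s := by rw [hsR]; positivity
    obtain ⟨Y, hY⟩ : ∃ Y : ℕ, Y = ⌊(H : ℝ) ^ γ⌋₊ := ⟨_, rfl⟩
    have hHγ1 : (1 : ℝ) ≤ (H : ℝ) ^ γ := Real.one_le_rpow (by linarith) hγ0.le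
    have hY0 : 1 ≤ Y := by rw [hY]; exact Nat.one_le_floor_iff _ |>.2 hHγ1
    have hY0' : (1 : ℝ) ≤ Y := by exact_mod_cast hY0
    have hY2 : (Y : ℝ) ≤ (H : ℝ) ^ γ := by rw [hY]; exact Nat.floor_le (by linarith)
    have hY1 : (H : ℝ) ^ γ ≤ 2 * Y := by
      have := Nat.lt_floor_add_one ((H : ℝ) ^ γ)
      rw [← hY] at this
      linarith
    have hsz := size_aux _ F d m s H Y γ hγ0 hγ1 (vm d m H hd (by omega)) hd hdd.symm hs hH16 hm1
      hY1 hY2 hY0 ?_ ?_ ?_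
    · refine hsz.trans ?_
      rw [← hx]
      have h4 : x ^ β₂ + Real.log 4 ≤ γ * x / (4 * s) := by
        have h5 : x ^ β₂ ≤ γ / 8 * x ^ (1 - 2 * κ') := by
          rw [div_mul_eq_mul_div, div_le_iff₀ hγ0] at a8
          linarith
        have h6 : Real.log 4 ≤ γ / 8 * x ^ (1 - 2 * κ') := by
          rw [div_mul_eq_mul_div, div_le_iff₀ hγ0] at a9
          linarith
        have h7 : γ / 4 * x ^ (1 - 2 * κ') ≤ γ * x / (4 * s) := by
          rw [le_div_iff₀ (by positivity)]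
          have h8 : x ^ (1 - 2 * κ') * s ≤ x := by
            calc x ^ (1 - 2 * κ') * s ≤ x ^ (1 - 2 * κ') * x ^ (2 * κ') :=
                  mul_le_mul_of_nonneg_left hsx (by positivity)
              _ = x := by
                  rw [← Real.rpow_add hx0]
                  have : 1 - 2 * κ' + 2 * κ' = 1 := by ring
                  rw [this, Real.rpow_one]
          nlinarith
        linarith
      calc 4 * (H : ℝ) * Real.exp (-(γ * x / (4 * s))) =
            H * (Real.exp (Real.log 4) * Real.exp (-(γ * x / (4 * s)))) := by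
            rw [Real.exp_log (by norm_num)]
            ring
        _ = H * Real.exp (Real.log 4 + -(γ * x / (4 * s))) := by rw [Real.exp_add]
        _ ≤ H * Real.exp (-x ^ β₂) :=
            mul_le_mul_of_nonneg_left (Real.exp_le_exp.2 (by linarith)) hH0.le
    · rw [← hx]
      refine le_trans ?_ a2
      have h4 : (d : ℝ) + m + 2 ≤ 2 * x ^ κ' := by linarith
      have h5 : Real.log ((d : ℝ) + m + 2) ≤ Real.log (2 * x ^ κ') :=
        Real.log_le_log (by positivity) h4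
      have h6 : 0 ≤ Real.log ((d : ℝ) + m + 2) := Real.log_nonneg (by linarith)
      refine mul_le_mul (mul_le_mul_of_nonneg_left (by linarith) (by norm_num)) ?_ (by positivity)
        (by positivity)
      exact mul_le_mul (pow_le_pow_left₀ (by positivity) h4 2) h5 h6 (by positivity)
    · rw [← hx]
      have h4 : ((d : ℝ) + m) ^ 2 ≤ x ^ (2 * κ') := by
        calc ((d : ℝ) + m) ^ 2 ≤ (x ^ κ') ^ 2 := pow_le_pow_left₀ (by positivity) hdm 2
          _ = x ^ (2 * κ') := by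
              rw [← Real.rpow_natCast, ← Real.rpow_mul hx0.le]
              congr 1
              push_cast
              ring
      rw [div_mul_eq_mul_div, div_le_iff₀ hγ0] at a3 a4
      linarith
    · intro y hy1 hyY
      have h4 := hdio' (d * y) (Nat.mul_pos (by omega) hy1)
      have hy1' : (1 : ℝ) ≤ y := by exact_mod_cast hy1
      have hyY' : (y : ℝ) ≤ Y := by exact_mod_cast hyY.le
      push_cast at h4
      have h5 : (d : ℝ) * y * N ≤ Real.exp (x ^ κ + γ * x + x ^ β₁) := by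
        have e1 : (d : ℝ) ≤ Real.exp (x ^ κ) := by
          have := Real.add_one_le_exp (x ^ κ)
          linarith
        have e2 : (y : ℝ) ≤ Real.exp (γ * x) := by
          refine (hyY'.trans hY2).trans (le_of_eq ?_)
          rw [hHe, ← Real.exp_mul]
          congr 1
          ring
        calc (d : ℝ) * y * N ≤ Real.exp (x ^ κ) * Real.exp (γ * x) * Real.exp (x ^ β₁) :=
              mul_le_mul (mul_le_mul e1 e2 (by positivity) (by positivity)) hN (by positivity)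
                (by positivity)
          _ = _ := by rw [← Real.exp_add, ← Real.exp_add]
      have h6 : ((d : ℝ) * y * N) ^ κ₀ ≤ c * H := by
        calc ((d : ℝ) * y * N) ^ κ₀ ≤ (Real.exp (x ^ κ + γ * x + x ^ β₁)) ^ κ₀ :=
              Real.rpow_le_rpow (by positivity) h5 hκ₀
          _ = Real.exp ((x ^ κ + γ * x + x ^ β₁) * κ₀) := by rw [← Real.exp_mul]
          _ ≤ Real.exp (Real.log c + x) := by
              refine Real.exp_le_exp.2 ?_
              have : κ₀ * γ * x ≤ 1 / 2 * x := mul_le_mul_of_nonneg_right hγκ hx0.le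
              nlinarith
          _ = c * H := by rw [Real.exp_add, Real.exp_log hc, hHe]
      have h7 : dz (d * y * F.leadingCoeff) * (c * H) ≥ c := by
        calc dz (d * y * F.leadingCoeff) * (c * H) ≥
            dz (d * y * F.leadingCoeff) * ((d : ℝ) * y * N) ^ κ₀ :=
              mul_le_mul_of_nonneg_left h6 (dz_nonneg _)
          _ = ((d : ℝ) * y * N) ^ κ₀ * dz (d * y * F.leadingCoeff) := mul_comm _ _
          _ ≥ c := h4
      have h8 : 1 ≤ (H : ℝ) * dz (d * F.leadingCoeff * y) := by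
        have h9 : c * 1 ≤ c * ((H : ℝ) * dz (d * F.leadingCoeff * y)) := by
          have e1 : (d : ℝ) * F.leadingCoeff * y = d * y * F.leadingCoeff := by ring
          rw [e1]
          linarith
        exact le_of_mul_le_mul_left h9 hc
      refine h8.trans (mul_le_mul_of_nonneg_right ?_ (dz_nonneg _))
      have h10 : H ≤ s * H ^ (d - 1) := by
        calc H = 1 * H ^ 1 := by ring
          _ ≤ s * H ^ (d - 1) := by
              refine Nat.mul_le_mul ?_ (Nat.pow_le_pow_right (by omega) (by omega))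
              exact_mod_cast hs0
      exact_mod_cast h10
  · -- degree one
    have hd1 : F.natDegree = 1 := by omega
    have h4 : ∑ t ∈ Icc 1 H, e (F.eval (t : ℝ)) =
        e (F.coeff 0 + F.leadingCoeff) * D H F.leadingCoeff := by
      unfold D
      rw [mul_sum]
      have h5 : ∑ t ∈ Icc 1 H, e (F.eval (t : ℝ)) = ∑ t ∈ range H, e (F.eval ((t + 1 : ℕ) : ℝ)) := by
        have := Finset.sum_Ico_add' (fun t : ℕ => e (F.eval (t : ℝ))) 0 H 1
        rw [zero_add, ← Finset.range_eq_Ico] at this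
        rw [this]
        rfl
      rw [h5]
      refine sum_congr rfl fun t _ => ?_
      rw [← e_add]
      congr 1
      rw [eval_eq_sum_range' (show F.natDegree < 2 by omega), sum_range_succ, sum_range_one,
        leadingCoeff, hd1]
      push_cast
      ring
    rw [h4, norm_mul, norm_e, one_mul]
    have h5 := norm_D_dz H F.leadingCoeff
    have h6 := hdio' 1 le_rfl
    rw [Nat.cast_one, one_mul, one_mul] at h6
    have h7 : N ^ κ₀ ≤ Real.exp (κ₀ * x ^ β₁) := by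
      calc N ^ κ₀ ≤ (Real.exp (x ^ β₁)) ^ κ₀ := Real.rpow_le_rpow hN0.le hN hκ₀
        _ = Real.exp (κ₀ * x ^ β₁) := by rw [← Real.exp_mul, mul_comm]
    have h8 : ‖D H F.leadingCoeff‖ * c ≤ Real.exp (κ₀ * x ^ β₁) := by
      calc ‖D H F.leadingCoeff‖ * c ≤ ‖D H F.leadingCoeff‖ * (N ^ κ₀ * dz F.leadingCoeff) :=
            mul_le_mul_of_nonneg_left h6 (norm_nonneg _)
        _ = N ^ κ₀ * (‖D H F.leadingCoeff‖ * dz F.leadingCoeff) := by ring
        _ ≤ N ^ κ₀ * 1 := by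
            refine mul_le_mul_of_nonneg_left ?_ (Real.rpow_nonneg hN0.le _)
            have := mul_nonneg (norm_nonneg (D H F.leadingCoeff)) (dz_nonneg F.leadingCoeff)
            nlinarith
        _ ≤ _ := by rw [mul_one]; exact h7
    have h9 : Real.exp (κ₀ * x ^ β₁) ≤ c * (H * Real.exp (-x ^ β₂)) := by
      calc Real.exp (κ₀ * x ^ β₁) ≤ Real.exp (Real.log c + (x + -x ^ β₂)) := by
            refine Real.exp_le_exp.2 ?_
            nlinarith
        _ = c * (H * Real.exp (-x ^ β₂)) := by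
            rw [Real.exp_add, Real.exp_add, Real.exp_log hc, hHe]
    have h10 : c * ‖D H F.leadingCoeff‖ ≤ c * (H * Real.exp (-x ^ β₂)) := by linarith
    exact le_of_mul_le_mul_left h10 hc

end Pool.Agent.W2helper84.RB
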