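import Mathlib
import Pool.Agent.W2helper84.RB.MV
import Pool.Agent.V11226.ETN.Maj

/-!
# From exponential sums to the total variation distance of cells
-/

set_option autoImplicit false

namespace Pool.Agent.W2helper84.RB

open Finset
open Pool.Agent.V11226.ETN (e e_add e_zero norm_e e_int e_nsmul e_neg conj_e e_add_int coef φ P
  φ_eq φ_nonneg coef_zero one_le_φ)

theorem coef_le (q w d g : ℕ) (τ : ℝ) (hq : 0 < q) (hd : 0 < d) (hg : 0 < g) (hτ : 0 ≤ τ) (u : ℤ) :
    ‖coef q w d g τ u‖ ≤ τ + (d + 2) / (q * d) := by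
  have hq' : (0 : ℝ) < q := by exact_mod_cast hq
  have hd' : (0 : ℝ) < d := by exact_mod_cast hd
  have hg' : (0 : ℝ) < g := by exact_mod_cast hg
  unfold coef
  refine (norm_add_le _ _).trans (add_le_add ?_ ?_)
  · split_ifs
    · rw [Complex.norm_real, Real.norm_of_nonneg hτ]
    · rw [norm_zero]; exact hτ
  · refine (norm_sum_le _ _).trans ?_
    have h1 : ∀ x ∈ (range (d * g + 2 * g) ×ˢ (range g ×ˢ range g)).filter
        (fun x : ℕ × ℕ × ℕ => (x.2.1 : ℤ) - (x.2.2 : ℤ) = u),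
        ‖(1 / ((q * d * g : ℕ) * g) : ℂ) * e (-((u : ℝ) *
        (((((w * d * g : ℕ) : ℤ) - (g : ℤ) : ℤ) + (x.1 : ℝ)) / (q * d * g : ℕ))))‖ =
        1 / (((q * d * g : ℕ) : ℝ) * g) := by
      intro x _
      rw [norm_mul, norm_e, mul_one, norm_div, norm_one, norm_mul, Complex.norm_natCast,
        Complex.norm_natCast]
    rw [sum_congr rfl h1, sum_const, nsmul_eq_mul]
    have h2 : (((range (d * g + 2 * g) ×ˢ (range g ×ˢ range g)).filter
        (fun x : ℕ × ℕ × ℕ => (x.2.1 : ℤ) - (x.2.2 : ℤ) = u)).card : ℝ) ≤ (d * g + 2 * g) * g := by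
      have h3 : ((range (d * g + 2 * g) ×ˢ (range g ×ˢ range g)).filter
        (fun x : ℕ × ℕ × ℕ => (x.2.1 : ℤ) - (x.2.2 : ℤ) = u)).card ≤
          (range (d * g + 2 * g) ×ˢ range g).card := by
        refine card_le_card_of_injOn (fun x => (x.1, x.2.1)) ?_ ?_
        · intro x hx
          rw [mem_coe, mem_filter, mem_product, mem_product] at hx
          rw [mem_coe, mem_product]
          exact ⟨hx.1.1, hx.1.2.1⟩
        · intro x hx y hy hxy
          rw [mem_coe, mem_filter] at hx hy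
          simp only [Prod.mk.injEq] at hxy
          ext
          · exact hxy.1
          · exact hxy.2
          · have h4 := hx.2
            have h5 := hy.2
            rw [hxy.2] at h4
            omega
      rw [card_product, card_range, card_range] at h3
      exact_mod_cast h3
    calc _ ≤ ((d * g + 2 * g) * g : ℝ) * (1 / (((q * d * g : ℕ) : ℝ) * g)) :=
          mul_le_mul_of_nonneg_right h2 (by positivity)
      _ = (d + 2) / (q * d) := by
          push_cast
          field_simp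

/-- the number of points in a cell -/
theorem cell_le {α ι : Type*} [Fintype ι] [DecidableEq ι] (B : Finset α) (v : α → ι → ℝ)
    (q d : ℕ) (hq : 1 ≤ q) (hd : 3 ≤ d) (hqd : 2 ≤ q) (ε : ℝ) (hε : 0 ≤ ε)
    (hS : ∀ u : ι → ℤ, u ≠ 0 → (∀ i, |u i| ≤ ((q * d) ^ 3 : ℕ)) →
      ‖∑ b ∈ B, e (∑ i, (u i : ℝ) * v b i)‖ ≤ ε * B.card) (c : ι → ℕ) :
    ((B.filter fun b => ∀ i, (c i : ℝ) ≤ q * Int.fract (v b i) ∧
      q * Int.fract (v b i) < c i + 1).card : ℝ) ≤
      B.card * (((1 + 3 / d) / q) ^ Fintype.card ι *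
        (1 + (2 * ((q : ℝ) * d) ^ 3 + 1) ^ Fintype.card ι * ε)) := by
  classical
  obtain ⟨g, hg⟩ : ∃ g : ℕ, g = (q * d) ^ 3 := ⟨_, rfl⟩
  obtain ⟨τ, hτ⟩ : ∃ τ : ℝ, τ = 1 / ((q : ℝ) * d) := ⟨_, rfl⟩
  obtain ⟨μ, hμ⟩ : ∃ μ : ℝ, μ = (1 + 3 / d) / q := ⟨_, rfl⟩
  have hq' : (0 : ℝ) < q := by exact_mod_cast hq
  have hd' : (0 : ℝ) < d := by exact_mod_cast (show 0 < d by omega)
  have hg0 : 0 < g := by rw [hg]; positivity
  have hτ0 : 0 ≤ τ := by rw [hτ]; positivity
  have hμ0 : 0 ≤ μ := by rw [hμ]; positivity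
  have hμτ : τ + (d + 2) / (q * d) = μ := by
    rw [hτ, hμ]
    field_simp
    ring
  rw [← hμ]
  have hgR : ((q : ℝ) * d) ^ 3 = g := by rw [hg]; push_cast; ring
  rw [hgR]
  rw [← hg] at hS
  -- majorant
  have hmaj : ((B.filter fun b => ∀ i, (c i : ℝ) ≤ q * Int.fract (v b i) ∧
      q * Int.fract (v b i) < c i + 1).card : ℝ) ≤ ∑ b ∈ B, ∏ i, φ q (c i) d g τ (v b i) := by
    rw [card_filter]
    push_cast
    refine sum_le_sum fun b _ => ?_
    split_ifs with h
    · have h1 : (1 : ℝ) = ∏ _i : ι, (1 : ℝ) := by simp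
      rw [h1]
      refine prod_le_prod (fun _ _ => zero_le_one) fun i _ => ?_
      refine one_le_φ q (c i) d g τ hq (by omega) hg0 ?_ (v b i) ?_ (h i).1 (h i).2
      · rw [hτ, hg]
        push_cast
        have h2 : (1 : ℝ) ≤ (q : ℝ) * d := by
          have : 1 ≤ q * d := Nat.mul_pos hq (by omega)
          exact_mod_cast this
        have h3 : 4 * ((q : ℝ) * d) ^ 3 * (1 / ((q : ℝ) * d)) = 4 * ((q : ℝ) * d) ^ 2 := by
          field_simp
        rw [h3]
        nlinarith [sq_nonneg ((q : ℝ) * d)]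
      · have h2 : d + 2 ≤ q * d := by nlinarith
        calc d * g + 2 * g = (d + 2) * g := by ring
          _ ≤ q * d * g := Nat.mul_le_mul_right _ h2
    · exact prod_nonneg fun i _ => φ_nonneg q (c i) d g τ hτ0 _
  refine hmaj.trans ?_
  -- expansion
  have hexp : ((∑ b ∈ B, ∏ i, φ q (c i) d g τ (v b i) : ℝ) : ℂ) =
      ∑ u ∈ Fintype.piFinset (fun _ : ι => Icc (-(g : ℤ)) g),
        (∏ i, coef q (c i) d g τ (u i)) * ∑ b ∈ B, e (∑ i, (u i : ℝ) * v b i) := by
    rw [Complex.ofReal_sum]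
    simp_rw [Complex.ofReal_prod, φ_eq, mul_sum]
    rw [sum_comm]
    refine sum_congr rfl fun b _ => ?_
    unfold P
    rw [Finset.prod_univ_sum]
    refine sum_congr rfl fun u _ => ?_
    rw [prod_mul_distrib, e_sum]
  have hnn : 0 ≤ ∑ b ∈ B, ∏ i, φ q (c i) d g τ (v b i) :=
    sum_nonneg fun b _ => prod_nonneg fun i _ => φ_nonneg q (c i) d g τ hτ0 _
  have h1 : ∑ b ∈ B, ∏ i, φ q (c i) d g τ (v b i) ≤
      ∑ u ∈ Fintype.piFinset (fun _ : ι => Icc (-(g : ℤ)) g),
        μ ^ Fintype.card ι * ‖∑ b ∈ B, e (∑ i, (u i : ℝ) * v b i)‖ := by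
    calc ∑ b ∈ B, ∏ i, φ q (c i) d g τ (v b i) =
        ‖((∑ b ∈ B, ∏ i, φ q (c i) d g τ (v b i) : ℝ) : ℂ)‖ := by
          rw [Complex.norm_real, Real.norm_of_nonneg hnn]
      _ ≤ _ := by
          rw [hexp]
          refine (norm_sum_le _ _).trans (sum_le_sum fun u _ => ?_)
          rw [norm_mul]
          refine mul_le_mul_of_nonneg_right ?_ (norm_nonneg _)
          rw [norm_prod]
          calc ∏ i, ‖coef q (c i) d g τ (u i)‖ ≤ ∏ _i : ι, μ := by
                refine prod_le_prod (fun _ _ => norm_nonneg _) fun i _ => ?_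
                rw [← hμτ]
                exact coef_le q (c i) d g τ hq (by omega) hg0 hτ0 (u i)
            _ = μ ^ Fintype.card ι := by rw [prod_const, card_univ]
  refine h1.trans ?_
  have hmem0 : (0 : ι → ℤ) ∈ Fintype.piFinset (fun _ : ι => Icc (-(g : ℤ)) g) := by
    rw [Fintype.mem_piFinset]
    intro i
    rw [mem_Icc]
    simp
  rw [← mul_sum, ← add_sum_erase _ _ hmem0]
  have h2 : ‖∑ b ∈ B, e (∑ i, (((0 : ι → ℤ) i : ℤ) : ℝ) * v b i)‖ = B.card := by
    simp
  have h3 : ∑ u ∈ (Fintype.piFinset (fun _ : ι => Icc (-(g : ℤ)) g)).erase 0,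
      ‖∑ b ∈ B, e (∑ i, (u i : ℝ) * v b i)‖ ≤ (2 * (g : ℝ) + 1) ^ Fintype.card ι * (ε * B.card) := by
    calc _ ≤ ∑ _u ∈ (Fintype.piFinset (fun _ : ι => Icc (-(g : ℤ)) g)).erase 0, ε * (B.card : ℝ) := by
          refine sum_le_sum fun u hu => ?_
          rw [mem_erase, Fintype.mem_piFinset] at hu
          refine hS u hu.1 fun i => ?_
          have := mem_Icc.1 (hu.2 i)
          rw [abs_le]
          exact this
      _ = (((Fintype.piFinset (fun _ : ι => Icc (-(g : ℤ)) g)).erase 0).card : ℝ) * (ε * B.card) := by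
          rw [sum_const, nsmul_eq_mul]
      _ ≤ _ := by
          refine mul_le_mul_of_nonneg_right ?_ (by positivity)
          have h4 : (((Fintype.piFinset (fun _ : ι => Icc (-(g : ℤ)) g)).erase 0).card : ℝ) ≤
              ((Fintype.piFinset (fun _ : ι => Icc (-(g : ℤ)) g)).card : ℝ) := by
            exact_mod_cast card_le_card (erase_subset _ _)
          refine h4.trans (le_of_eq ?_)
          rw [Fintype.card_piFinset, prod_const, card_univ, Int.card_Icc]
          have h5 : ((g : ℤ) + 1 - -(g : ℤ)).toNat = 2 * g + 1 := by omega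
          rw [h5]
          push_cast
          ring
  calc μ ^ Fintype.card ι * (‖∑ b ∈ B, e (∑ i, (((0 : ι → ℤ) i : ℤ) : ℝ) * v b i)‖ +
      ∑ u ∈ (Fintype.piFinset (fun _ : ι => Icc (-(g : ℤ)) g)).erase 0,
        ‖∑ b ∈ B, e (∑ i, (u i : ℝ) * v b i)‖) ≤
      μ ^ Fintype.card ι * (B.card + (2 * (g : ℝ) + 1) ^ Fintype.card ι * (ε * B.card)) := by
        refine mul_le_mul_of_nonneg_left ?_ (by positivity)
        rw [h2]
        linarith
    _ = _ := by ring

/-- the cell of a point -/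
noncomputable def cell {ι : Type*} (q : ℕ) (v : ι → ℝ) : ι → ℕ := fun i => ⌊(q : ℝ) * Int.fract (v i)⌋₊

theorem cell_mem {ι : Type*} [Fintype ι] [DecidableEq ι] (q : ℕ) (hq : 1 ≤ q) (v : ι → ℝ) :
    cell q v ∈ Fintype.piFinset fun _ : ι => range q := by
  rw [Fintype.mem_piFinset]
  intro i
  rw [mem_range]
  have hq' : (0 : ℝ) < q := by exact_mod_cast hq
  unfold cell
  rw [Nat.floor_lt (mul_nonneg hq'.le (Int.fract_nonneg _))]
  have := Int.fract_lt_one (v i)
  nlinarith

/-- **Total variation distance.** -/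
theorem tv_cells {α ι : Type*} [Fintype ι] [DecidableEq ι] (B : Finset α) (hB : B.Nonempty)
    (v : α → ι → ℝ) (q : ℕ) (hq : 1 ≤ q) (ρ : ℝ)
    (hρ : ∀ c : ι → ℕ, ((B.filter fun b => cell q (v b) = c).card : ℝ) ≤ B.card * ρ)
    (E : Finset (ι → ℕ)) (hE : E ⊆ Fintype.piFinset fun _ : ι => range q) :
    |((B.filter fun b => cell q (v b) ∈ E).card : ℝ) - B.card * (E.card / (q : ℝ) ^ Fintype.card ι)| ≤
      B.card * ((q : ℝ) ^ Fintype.card ι * ρ - 1) := by
  classical
  have hq' : (0 : ℝ) < q := by exact_mod_cast hq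
  have hB0 : (0 : ℝ) < B.card := by exact_mod_cast card_pos.2 hB
  obtain ⟨Q, hQ⟩ : ∃ Q : ℝ, Q = (q : ℝ) ^ Fintype.card ι := ⟨_, rfl⟩
  have hQ0 : 0 < Q := by rw [hQ]; positivity
  obtain ⟨A, hA⟩ : ∃ A : Finset (ι → ℕ), A = Fintype.piFinset fun _ : ι => range q := ⟨_, rfl⟩
  have hAc : (A.card : ℝ) = Q := by
    rw [hA, hQ, Fintype.card_piFinset, prod_const, card_univ, card_range]
    push_cast
    rfl
  rw [← hQ]
  rw [← hA] at hE
  have key : ∀ F : Finset (ι → ℕ), F ⊆ A → ((B.filter fun b => cell q (v b) ∈ F).card : ℝ) ≤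
      F.card * (B.card * ρ) := by
    intro F _
    have h1 : (B.filter fun b => cell q (v b) ∈ F).card =
        ∑ c ∈ F, (B.filter fun b => cell q (v b) = c).card := by
      rw [card_eq_sum_card_fiberwise (f := fun b => cell q (v b)) (t := F)]
      · refine sum_congr rfl fun c hc => ?_
        congr 1
        ext b
        rw [mem_filter, mem_filter, mem_filter]
        constructor
        · rintro ⟨⟨h2, _⟩, h3⟩
          exact ⟨h2, h3⟩
        · rintro ⟨h2, h3⟩
          exact ⟨⟨h2, by rw [h3]; exact hc⟩, h3⟩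
      · intro b hb
        exact mem_coe.2 (mem_filter.1 (mem_coe.1 hb)).2
    rw [h1]
    push_cast
    calc _ ≤ ∑ _c ∈ F, B.card * ρ := sum_le_sum fun c _ => hρ c
      _ = _ := by rw [sum_const, nsmul_eq_mul]
  -- everything
  have hall : ((B.filter fun b => cell q (v b) ∈ A).card : ℝ) = B.card := by
    congr 2
    rw [filter_eq_self]
    intro b _
    rw [hA]
    exact cell_mem q hq (v b)
  have h1 : 1 ≤ Q * ρ := by
    have h2 := key A (Subset.refl _)
    rw [hall, hAc] at h2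
    have h3 : (B.card : ℝ) * 1 ≤ B.card * (Q * ρ) := by linarith
    exact le_of_mul_le_mul_left h3 hB0
  have hup : ∀ F : Finset (ι → ℕ), F ⊆ A → ((B.filter fun b => cell q (v b) ∈ F).card : ℝ) ≤
      B.card * (F.card / Q) + B.card * (Q * ρ - 1) := by
    intro F hF
    refine (key F hF).trans ?_
    have hFQ : (F.card : ℝ) ≤ Q := by
      rw [← hAc]
      exact_mod_cast card_le_card hF
    have h2 : (F.card : ℝ) / Q ≤ 1 := by rw [div_le_one hQ0]; exact hFQ
    have h3 : (F.card : ℝ) = F.card / Q * Q := by field_simp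
    have h4 : (F.card : ℝ) * (B.card * ρ) = B.card * (F.card / Q) + B.card * (F.card / Q * (Q * ρ - 1)) := by
      nth_rewrite 1 [h3]
      ring
    rw [h4]
    have h5 : (F.card : ℝ) / Q * (Q * ρ - 1) ≤ 1 * (Q * ρ - 1) :=
      mul_le_mul_of_nonneg_right h2 (by linarith)
    have := mul_le_mul_of_nonneg_left h5 hB0.le
    linarith
  rw [abs_le]
  constructor
  · have h2 := hup (A \ E) sdiff_subset
    have h3 : ((B.filter fun b => cell q (v b) ∈ A \ E).card : ℝ) =
        B.card - ((B.filter fun b => cell q (v b) ∈ E).card : ℝ) := by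
      rw [eq_sub_iff_add_eq, ← hall]
      have h4 : (B.filter fun b => cell q (v b) ∈ A) =
          (B.filter fun b => cell q (v b) ∈ A \ E) ∪ (B.filter fun b => cell q (v b) ∈ E) := by
        ext b
        simp only [mem_filter, mem_union, mem_sdiff]
        constructor
        · rintro ⟨h5, h6⟩
          by_cases h7 : cell q (v b) ∈ E
          · exact Or.inr ⟨h5, h7⟩
          · exact Or.inl ⟨h5, h6, h7⟩
        · rintro (⟨h5, h6, _⟩ | ⟨h5, h6⟩)
          · exact ⟨h5, h6⟩
          · exact ⟨h5, hE h6⟩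
      rw [h4, card_union_of_disjoint]
      · push_cast
        rfl
      · rw [disjoint_left]
        intro b hb hb'
        rw [mem_filter, mem_sdiff] at hb
        exact hb.2.2 (mem_filter.1 hb').2
    have h4 : ((A \ E).card : ℝ) = Q - E.card := by
      rw [card_sdiff_of_subset hE, Nat.cast_sub (card_le_card hE), hAc]
    rw [h3, h4] at h2
    have h5 : (Q - E.card) / Q = 1 - E.card / Q := by field_simp
    rw [h5] at h2
    linarith
  · have := hup E hE
    linarith

end Pool.Agent.W2helper84.RB
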