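import Mathlib
import Pool.Agent.W2helper84.RB.TV

/-!
# Cells of fractional parts and classes of digits
-/

set_option autoImplicit false

namespace Pool.Agent.W2helper84.RB

open Finset

/-- the `n`-th digit after the point of `x` in base `b`, `n ≥ 1` -/
noncomputable def digit (b : ℕ) (x : ℝ) (n : ℕ) : ℤ := ⌊x * (b : ℝ) ^ n⌋ % (b : ℤ)

/-- the class, among `q` classes of (nearly) equal size, of the `n`-th digit -/
noncomputable def cls (q b : ℕ) (x : ℝ) (n : ℕ) : ℤ := (q : ℤ) * digit b x n / (b : ℤ)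

theorem cls_eq (q M b : ℕ) (hq : 1 ≤ q) (hM : 1 ≤ M) (hb : q * M ≤ b) (x : ℝ) (n : ℕ)
    (hc : ⌊((q * M : ℕ) : ℝ) * Int.fract (x * (b : ℝ) ^ n)⌋₊ % M ≠ 0) :
    cls q b x (n + 1) = ((⌊((q * M : ℕ) : ℝ) * Int.fract (x * (b : ℝ) ^ n)⌋₊ / M : ℕ) : ℤ) := by
  obtain ⟨y, hy⟩ : ∃ y : ℝ, y = x * (b : ℝ) ^ n := ⟨_, rfl⟩
  rw [← hy] at hc ⊢
  obtain ⟨c', hc'⟩ : ∃ c' : ℕ, c' = ⌊((q * M : ℕ) : ℝ) * Int.fract y⌋₊ := ⟨_, rfl⟩
  rw [← hc'] at hc ⊢
  obtain ⟨c, hcc⟩ : ∃ c : ℕ, c = c' / M := ⟨_, rfl⟩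
  rw [← hcc]
  have hb1 : 1 ≤ b := le_trans (Nat.mul_pos hq hM) hb
  have hbR : (0 : ℝ) < b := by exact_mod_cast hb1
  have hqR : (0 : ℝ) < q := by exact_mod_cast hq
  have hMR : (0 : ℝ) < M := by exact_mod_cast hM
  have hbI : (0 : ℤ) < b := by exact_mod_cast hb1
  have hf0 := Int.fract_nonneg y
  have hf1 := Int.fract_lt_one y
  obtain ⟨D, hD⟩ : ∃ D : ℤ, D = ⌊Int.fract y * b⌋ := ⟨_, rfl⟩
  have hD0 : 0 ≤ D := by rw [hD]; exact Int.floor_nonneg.2 (by positivity)
  have hD1 : D < b := by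
    rw [hD, Int.floor_lt]
    push_cast
    nlinarith
  have hdig : digit b x (n + 1) = D := by
    unfold digit
    have h1 : x * (b : ℝ) ^ (n + 1) = Int.fract y * b + ((⌊y⌋ * b : ℤ) : ℝ) := by
      have h2 := Int.floor_add_fract y
      push_cast
      calc x * (b : ℝ) ^ (n + 1) = y * b := by rw [hy]; ring
        _ = (⌊y⌋ + Int.fract y) * b := by rw [h2]
        _ = _ := by ring
    rw [h1, Int.floor_add_intCast, ← hD, Int.add_mul_emod_self_right]
    exact Int.emod_eq_of_lt hD0 hD1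
  unfold cls
  rw [hdig]
  -- bounds
  have hc1 : (c' : ℝ) ≤ q * M * Int.fract y := by
    rw [hc']
    have := Nat.floor_le (show 0 ≤ ((q * M : ℕ) : ℝ) * Int.fract y by positivity)
    push_cast at this ⊢
    exact this
  have hc2 : q * M * Int.fract y < c' + 1 := by
    rw [hc']
    have := Nat.lt_floor_add_one (((q * M : ℕ) : ℝ) * Int.fract y)
    push_cast at this ⊢
    exact this
  have hdm : M * c + c' % M = c' := by rw [hcc]; exact Nat.div_add_mod c' M
  have hml : c' % M < M := Nat.mod_lt _ hM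
  have h3 : (M : ℝ) * c + 1 ≤ c' := by
    have : M * c + 1 ≤ c' := by omega
    exact_mod_cast this
  have h4 : (c' : ℝ) + 1 ≤ M * (c + 1) := by
    have : c' + 1 ≤ M * (c + 1) := by
      have : M * (c + 1) = M * c + M := by ring
      omega
    exact_mod_cast this
  have hDle : (D : ℝ) ≤ Int.fract y * b := by rw [hD]; exact Int.floor_le _
  have hDgt : Int.fract y * b - 1 < D := by rw [hD]; exact Int.sub_one_lt_floor _
  have hbM : (q : ℝ) * M ≤ b := by exact_mod_cast hb
  have hup : (q : ℤ) * D < (c + 1) * b := by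
    have h5 : (q : ℝ) * Int.fract y < c + 1 := by
      have h6 : (M : ℝ) * (q * Int.fract y) < M * (c + 1) := by
        calc (M : ℝ) * (q * Int.fract y) = q * M * Int.fract y := by ring
          _ < c' + 1 := hc2
          _ ≤ _ := h4
      exact lt_of_mul_lt_mul_left h6 hMR.le
    have h6 : (q : ℝ) * D < (c + 1) * b := by
      calc (q : ℝ) * D ≤ q * (Int.fract y * b) := mul_le_mul_of_nonneg_left hDle hqR.le
        _ = (q * Int.fract y) * b := by ring
        _ < (c + 1) * b := mul_lt_mul_of_pos_right h5 hbR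
    exact_mod_cast h6
  have hlo : (c : ℤ) * b ≤ q * D := by
    have h5 : (M : ℝ) * c + 1 ≤ M * (q * Int.fract y) := by
      calc (M : ℝ) * c + 1 ≤ c' := h3
        _ ≤ q * M * Int.fract y := hc1
        _ = _ := by ring
    have h6 : (c : ℝ) * b < q * D := by
      have h7 : (M : ℝ) * (c * b) < M * (q * D) := by
        calc (M : ℝ) * (c * b) = (M * c + 1) * b - b := by ring
          _ ≤ (M * (q * Int.fract y)) * b - M * q := by
              have := mul_le_mul_of_nonneg_right h5 hbR.le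
              nlinarith
          _ = M * (q * (Int.fract y * b - 1)) := by ring
          _ < M * (q * D) := by
              refine mul_lt_mul_of_pos_left ?_ hMR
              exact mul_lt_mul_of_pos_left hDgt hqR
      exact lt_of_mul_lt_mul_left h7 hMR.le
    exact_mod_cast h6.le
  rw [Int.ediv_eq_iff_of_pos hbI]
  constructor
  · linarith
  · linarith

theorem card_fine (q M : ℕ) (hM : 1 ≤ M) (w : ℤ) (hw : 0 ≤ w ∧ w < q) :
    ((range (q * M)).filter fun t => ((t / M : ℕ) : ℤ) = w).card = M := by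
  obtain ⟨v, rfl⟩ := Int.eq_ofNat_of_zero_le hw.1
  have hv : v < q := by exact_mod_cast hw.2
  have h1 : ((range (q * M)).filter fun t => ((t / M : ℕ) : ℤ) = (v : ℤ)) = Ico (v * M) ((v + 1) * M) := by
    ext t
    rw [mem_filter, mem_range, mem_Ico]
    constructor
    · rintro ⟨_, h2⟩
      have h3 : t / M = v := by exact_mod_cast h2
      rw [← h3]
      constructor
      · exact Nat.div_mul_le_self t M
      · rw [mul_comm]
        exact Nat.lt_mul_div_succ t hM
    · rintro ⟨h2, h3⟩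
      have h4 : t / M = v := Nat.div_eq_of_lt_le h2 h3
      refine ⟨lt_of_lt_of_le h3 (Nat.mul_le_mul_right M hv), by rw [h4]⟩
  rw [h1, Nat.card_Ico, ← Nat.sub_mul]
  simp

theorem card_E' {ι : Type*} [Fintype ι] [DecidableEq ι] (q M : ℕ) (hM : 1 ≤ M)
    (E : Finset (ι → ℤ)) (hE : ∀ w ∈ E, ∀ p, 0 ≤ w p ∧ w p < q) :
    ((Fintype.piFinset fun _ : ι => range (q * M)).filter fun c =>
      (fun p => ((c p / M : ℕ) : ℤ)) ∈ E).card = E.card * M ^ Fintype.card ι := by
  classical
  rw [card_eq_sum_card_fiberwise (f := fun c : ι → ℕ => fun p => ((c p / M : ℕ) : ℤ)) (t := E)]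
  · have h0 : E.card * M ^ Fintype.card ι = ∑ _w ∈ E, M ^ Fintype.card ι := by
      rw [sum_const, smul_eq_mul]
    rw [h0]
    refine sum_congr rfl fun w hw => ?_
    have h1 : (((Fintype.piFinset fun _ : ι => range (q * M)).filter fun c =>
        (fun p => ((c p / M : ℕ) : ℤ)) ∈ E).filter fun c => (fun p => ((c p / M : ℕ) : ℤ)) = w) =
        Fintype.piFinset fun p => (range (q * M)).filter fun t => ((t / M : ℕ) : ℤ) = w p := by
      ext c
      rw [mem_filter, mem_filter, Fintype.mem_piFinset, Fintype.mem_piFinset]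
      constructor
      · rintro ⟨⟨h2, _⟩, h3⟩ p
        rw [mem_filter]
        exact ⟨h2 p, congrFun h3 p⟩
      · intro h2
        have h3 : (fun p => ((c p / M : ℕ) : ℤ)) = w := by
          funext p
          exact (mem_filter.1 (h2 p)).2
        refine ⟨⟨fun p => (mem_filter.1 (h2 p)).1, ?_⟩, h3⟩
        rw [h3]
        exact hw
    rw [h1, Fintype.card_piFinset]
    rw [prod_congr rfl fun p _ => card_fine q M hM (w p) (hE w hw p), prod_const, card_univ]
  · intro c hc
    exact mem_coe.2 (mem_filter.1 (mem_coe.1 hc)).2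

theorem card_bad {ι : Type*} [Fintype ι] [DecidableEq ι] (q M : ℕ) (hM : 1 ≤ M) (p : ι) :
    M * ((Fintype.piFinset fun _ : ι => range (q * M)).filter fun c => c p % M = 0).card =
      (q * M) ^ Fintype.card ι := by
  classical
  have h1 : ((Fintype.piFinset fun _ : ι => range (q * M)).filter fun c => c p % M = 0) =
      Fintype.piFinset fun p' => if p' = p then (range (q * M)).filter fun t => t % M = 0
        else range (q * M) := by
    ext c
    rw [mem_filter, Fintype.mem_piFinset, Fintype.mem_piFinset]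
    constructor
    · rintro ⟨h2, h3⟩ p'
      split_ifs with h4
      · rw [mem_filter, h4]
        exact ⟨h2 p, h3⟩
      · exact h2 p'
    · intro h2
      refine ⟨fun p' => ?_, ?_⟩
      · have := h2 p'
        split_ifs at this
        · exact (mem_filter.1 this).1
        · exact this
      · have := h2 p
        rw [if_pos rfl] at this
        exact (mem_filter.1 this).2
  have h2 : ((range (q * M)).filter fun t => t % M = 0).card = q := by
    have h3 : ((range (q * M)).filter fun t => t % M = 0) = (range q).image fun t => t * M := by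
      ext t
      rw [mem_filter, mem_range, mem_image]
      constructor
      · rintro ⟨h4, h5⟩
        refine ⟨t / M, ?_, Nat.div_mul_cancel (Nat.dvd_of_mod_eq_zero h5)⟩
        rw [mem_range]
        exact Nat.div_lt_of_lt_mul (by rw [mul_comm]; exact h4)
      · rintro ⟨s, hs, rfl⟩
        rw [mem_range] at hs
        exact ⟨Nat.mul_lt_mul_of_pos_right hs hM, Nat.mul_mod_left _ _⟩
    rw [h3, card_image_of_injective _ (fun s t hst => Nat.eq_of_mul_eq_mul_right hM hst),
      card_range]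
  rw [h1, Fintype.card_piFinset, ← mul_prod_erase univ _ (mem_univ p), if_pos rfl, h2]
  have h3 : ∏ p' ∈ univ.erase p, ((if p' = p then (range (q * M)).filter fun t => t % M = 0
      else range (q * M)) : Finset ℕ).card = ∏ _p' ∈ univ.erase p, (q * M) := by
    refine prod_congr rfl fun p' hp' => ?_
    rw [if_neg (mem_erase.1 hp').1, card_range]
  rw [h3]
  have h4 : (q * M) ^ Fintype.card ι = ∏ _p' : ι, (q * M) := by rw [prod_const, card_univ]
  rw [h4, ← mul_prod_erase univ _ (mem_univ p)]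
  ring

/-- **Total variation distance for the classes of digits.** -/
theorem tv_digits {ι : Type*} [Fintype ι] [DecidableEq ι] (B : Finset ℕ) (hB : B.Nonempty)
    (x : ι → ℝ) (n : ι → ℕ) (q M : ℕ) (hq : 1 ≤ q) (hM : 1 ≤ M) (ρ : ℝ)
    (hρ : ∀ c : ι → ℕ, ((B.filter fun b : ℕ => cell (q * M) (fun p => x p * (b : ℝ) ^ n p) = c).card : ℝ) ≤
      B.card * ρ)
    (E : Finset (ι → ℤ)) (hE : ∀ w ∈ E, ∀ p, 0 ≤ w p ∧ w p < q) :
    |((B.filter fun b => (fun p => cls q b (x p) (n p + 1)) ∈ E).card : ℝ) -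
      B.card * (E.card / (q : ℝ) ^ Fintype.card ι)| ≤
      B.card * (Fintype.card ι / M + 2 * (((q * M : ℕ) : ℝ) ^ Fintype.card ι * ρ - 1)) + q * M := by
  classical
  have hqR : (0 : ℝ) < q := by exact_mod_cast hq
  have hMR : (0 : ℝ) < M := by exact_mod_cast hM
  have hB0 : (0 : ℝ) < B.card := by exact_mod_cast card_pos.2 hB
  have hqM : 1 ≤ q * M := Nat.mul_pos hq hM
  obtain ⟨A, hA⟩ : ∃ A : Finset (ι → ℕ), A = Fintype.piFinset fun _ : ι => range (q * M) := ⟨_, rfl⟩
  obtain ⟨v, hv⟩ : ∃ v : ℕ → ι → ℝ, ∀ b, v b = fun p => x p * (b : ℝ) ^ n p :=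
    ⟨fun b p => x p * (b : ℝ) ^ n p, fun _ => rfl⟩
  simp_rw [← hv] at hρ
  obtain ⟨Δ, hΔ⟩ : ∃ Δ : ℝ, Δ = ((q * M : ℕ) : ℝ) ^ Fintype.card ι * ρ - 1 := ⟨_, rfl⟩
  -- the fine cells which belong to `E`
  obtain ⟨E', hE'⟩ : ∃ E' : Finset (ι → ℕ), E' = A.filter fun c =>
    (fun p => ((c p / M : ℕ) : ℤ)) ∈ E := ⟨_, rfl⟩
  obtain ⟨Bad, hBad⟩ : ∃ Bad : Finset (ι → ℕ), Bad = A.filter fun c => ∃ p, c p % M = 0 := ⟨_, rfl⟩
  have t1 := tv_cells B hB v (q * M) hqM ρ hρ E' (by rw [hE', hA]; exact filter_subset _ _)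
  have t2 := tv_cells B hB v (q * M) hqM ρ hρ Bad (by rw [hBad, hA]; exact filter_subset _ _)
  rw [← hΔ] at t1 t2
  have c1 : (E'.card : ℝ) / ((q * M : ℕ) : ℝ) ^ Fintype.card ι = E.card / (q : ℝ) ^ Fintype.card ι := by
    rw [hE', hA, card_E' q M hM E hE]
    push_cast
    rw [mul_pow]
    field_simp
  have c2 : (Bad.card : ℝ) / ((q * M : ℕ) : ℝ) ^ Fintype.card ι ≤ Fintype.card ι / M := by
    have h1 : (Bad.card : ℝ) * M ≤ Fintype.card ι * ((q * M : ℕ) : ℝ) ^ Fintype.card ι := by
      have h2 : Bad ⊆ univ.biUnion fun p => A.filter fun c => c p % M = 0 := by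
        intro c hc
        rw [hBad, mem_filter] at hc
        obtain ⟨p, hp⟩ := hc.2
        rw [mem_biUnion]
        exact ⟨p, mem_univ _, mem_filter.2 ⟨hc.1, hp⟩⟩
      have h3 : M * Bad.card ≤ Fintype.card ι * (q * M) ^ Fintype.card ι := by
        calc M * Bad.card ≤ M * ∑ p : ι, (A.filter fun c => c p % M = 0).card :=
              Nat.mul_le_mul_left _ ((card_le_card h2).trans card_biUnion_le)
          _ = ∑ p : ι, M * (A.filter fun c => c p % M = 0).card := by rw [mul_sum]
          _ = ∑ _p : ι, (q * M) ^ Fintype.card ι := by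
              refine sum_congr rfl fun p _ => ?_
              rw [hA]
              exact card_bad q M hM p
          _ = _ := by rw [sum_const, card_univ, smul_eq_mul]
      have h4 : ((M * Bad.card : ℕ) : ℝ) ≤ ((Fintype.card ι * (q * M) ^ Fintype.card ι : ℕ) : ℝ) := by
        exact_mod_cast h3
      push_cast at h4 ⊢
      linarith
    rw [div_le_div_iff₀ (by positivity) hMR]
    exact h1
  -- comparison
  obtain ⟨G, hG⟩ : ∃ G : Finset ℕ, G = B.filter fun b => q * M ≤ b ∧ cell (q * M) (v b) ∉ Bad :=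
    ⟨_, rfl⟩
  have hgood : ∀ b ∈ B, q * M ≤ b → cell (q * M) (v b) ∉ Bad →
      ((fun p => cls q b (x p) (n p + 1)) ∈ E ↔ cell (q * M) (v b) ∈ E') := by
    intro b _ hb hnb
    have h1 : ∀ p, cell (q * M) (v b) p % M ≠ 0 := by
      intro p hp
      apply hnb
      rw [hBad, mem_filter, hA]
      exact ⟨cell_mem _ hqM _, p, hp⟩
    have h2 : (fun p => cls q b (x p) (n p + 1)) = fun p => ((cell (q * M) (v b) p / M : ℕ) : ℤ) := by
      funext p
      have h3 := h1 p
      unfold cell at h3 ⊢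
      rw [hv] at h3 ⊢
      exact cls_eq q M b hq hM hb (x p) (n p) h3
    rw [h2, hE', mem_filter, hA]
    exact ⟨fun h => ⟨cell_mem _ hqM _, h⟩, fun h => h.2⟩
  have hrest : ((B.filter fun b => ¬ (q * M ≤ b ∧ cell (q * M) (v b) ∉ Bad)).card : ℝ) ≤
      B.card * (Fintype.card ι / M + Δ) + q * M := by
    have h1 : (B.filter fun b => ¬ (q * M ≤ b ∧ cell (q * M) (v b) ∉ Bad)) ⊆
        (B.filter fun b => cell (q * M) (v b) ∈ Bad) ∪ range (q * M) := by
      intro b hb
      rw [mem_filter] at hb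
      rw [mem_union, mem_filter, mem_range]
      by_cases h2 : q * M ≤ b
      · refine Or.inl ⟨hb.1, ?_⟩
        by_contra h3
        exact hb.2 ⟨h2, h3⟩
      · exact Or.inr (not_le.1 h2)
    have h2 : ((B.filter fun b => ¬ (q * M ≤ b ∧ cell (q * M) (v b) ∉ Bad)).card : ℝ) ≤
        ((B.filter fun b => cell (q * M) (v b) ∈ Bad).card : ℝ) + q * M := by
      have h3 := (card_le_card h1).trans (card_union_le _ _)
      rw [card_range] at h3
      exact_mod_cast h3
    have h3 := (abs_le.1 t2).2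
    have h4 := mul_le_mul_of_nonneg_left c2 hB0.le
    rw [mul_add]
    linarith
  have hcmp : |((B.filter fun b => (fun p => cls q b (x p) (n p + 1)) ∈ E).card : ℝ) -
      ((B.filter fun b => cell (q * M) (v b) ∈ E').card : ℝ)| ≤
      ((B.filter fun b => ¬ (q * M ≤ b ∧ cell (q * M) (v b) ∉ Bad)).card : ℝ) := by
    have key : ∀ (P Q : ℕ → Prop) [DecidablePred P] [DecidablePred Q],
        (∀ b ∈ B, q * M ≤ b → cell (q * M) (v b) ∉ Bad → P b → Q b) →
        ((B.filter P).card : ℝ) ≤ ((B.filter Q).card : ℝ) +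
          ((B.filter fun b => ¬ (q * M ≤ b ∧ cell (q * M) (v b) ∉ Bad)).card : ℝ) := by
      intro P Q _ _ hPQ
      have h1 : B.filter P ⊆ B.filter Q ∪
          (B.filter fun b => ¬ (q * M ≤ b ∧ cell (q * M) (v b) ∉ Bad)) := by
        intro b hb
        rw [mem_filter] at hb
        rw [mem_union, mem_filter, mem_filter]
        by_cases h2 : q * M ≤ b ∧ cell (q * M) (v b) ∉ Bad
        · exact Or.inl ⟨hb.1, hPQ b hb.1 h2.1 h2.2 hb.2⟩
        · exact Or.inr ⟨hb.1, h2⟩
      exact_mod_cast (card_le_card h1).trans (card_union_le _ _)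
    have h1 := key (fun b => (fun p => cls q b (x p) (n p + 1)) ∈ E)
      (fun b => cell (q * M) (v b) ∈ E') (fun b hb h2 h3 h4 => (hgood b hb h2 h3).1 h4)
    have h2 := key (fun b => cell (q * M) (v b) ∈ E')
      (fun b => (fun p => cls q b (x p) (n p + 1)) ∈ E) (fun b hb h2 h3 h4 => (hgood b hb h2 h3).2 h4)
    rw [abs_le]
    constructor <;> linarith
  rw [c1] at t1
  rw [← hΔ]
  have h1 := abs_le.1 t1
  have h2 := abs_le.1 hcmp
  rw [abs_le]
  constructor
  · linarith [h1.1, h2.1]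
  · linarith [h1.2, h2.2]

end Pool.Agent.W2helper84.RB
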