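import Mathlib
import Pool.Agent.W2helper84.RB.Main

/-!
# Weyl sums of large degree and random digits at a fixed scale
-/

set_option autoImplicit false

namespace Pool.Agent.W2helper84.RB

open Finset Polynomial Filter
open Pool.Agent.V11226.ETN (e e_add e_zero norm_e e_int e_nsmul e_neg conj_e e_add_int)
open Pool.Agent.Y957.VK (J Tu)

/-- **Weyl sums of large degree.** -/
theorem weyl_at (κ β₂ γ : ℝ) (hκ : 0 < κ) (hκ4 : κ < 1 / 3)
    (hβ₂ : β₂ < 1 - 2 * κ) (hγ0 : 0 < γ) (hγ1 : γ ≤ 1 / 2) :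
    ∃ H₀ : ℕ, ∀ H : ℕ, H₀ ≤ H → ∀ f : ℝ[X], 1 ≤ f.natDegree →
      (f.natDegree : ℝ) ≤ (Real.log H) ^ κ →
      (∀ n : ℕ, 1 ≤ n → (n : ℝ) ≤ (Real.log H) ^ κ * (H : ℝ) ^ γ →
        1 ≤ (H : ℝ) ^ (1 / 2 : ℝ) * dz (n * f.leadingCoeff)) → ∀ a : ℕ,
      ‖∑ b ∈ Ioc a (a + H), e (f.eval (b : ℝ))‖ ≤ H * Real.exp (-(Real.log H) ^ β₂) := by
  obtain ⟨κ', h1, h2, h3⟩ : ∃ κ' : ℝ, κ < κ' ∧ κ' < 1 / 3 ∧ β₂ < 1 - 2 * κ' := by
    refine ⟨(κ + min (1 / 3) ((1 - β₂) / 2)) / 2, ?_, ?_, ?_⟩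
    · have : κ < min (1 / 3) ((1 - β₂) / 2) := lt_min hκ4 (by linarith)
      linarith
    · have := min_le_left (1 / 3) ((1 - β₂) / 2)
      linarith
    · have h4 := min_le_right (1 / 3) ((1 - β₂) / 2)
      linarith
  have hlog : Tendsto (fun H : ℕ => Real.log (H : ℝ)) atTop atTop :=
    Real.tendsto_log_atTop.comp tendsto_natCast_atTop_atTop
  have hev : ∀ᶠ x : ℝ in atTop,
      x ^ κ * (Real.log (4 * (x ^ κ) ^ 2 / γ) + 3) ≤ x ^ κ' ∧
      86 * x ^ κ' * ((2 * x ^ κ') ^ 2 * Real.log (2 * x ^ κ')) ≤ γ / 8 * x ∧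
      16 / γ * x ^ (2 * κ') ≤ x ^ (1 : ℝ) ∧
      16 / γ * Real.log 10 ≤ x ^ (1 : ℝ) ∧
      8 / γ * x ^ β₂ ≤ x ^ (1 - 2 * κ') ∧
      8 / γ * Real.log 4 ≤ x ^ (1 - 2 * κ') ∧
      8 * x ^ β₂ ≤ x ^ (1 : ℝ) ∧ 1 ≤ x := by
    filter_upwards [ev_dm κ κ' γ hκ h1 hγ0, ev_vm κ' γ (by linarith) h2 hγ0,
      ev_pow_le (2 * κ') 1 (16 / γ) (by linarith), ev_const_le 1 (16 / γ * Real.log 10) one_pos,
      ev_pow_le β₂ (1 - 2 * κ') (8 / γ) h3,
      ev_const_le (1 - 2 * κ') (8 / γ * Real.log 4) (by linarith),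
      ev_pow_le β₂ 1 8 (by linarith), eventually_ge_atTop 1]
      with x a1 a2 a3 a4 a8 a9 a10 a11
    exact ⟨a1, a2, a3, a4, a8, a9, a10, a11⟩
  obtain ⟨H₀, hH₀⟩ := eventually_atTop.1 ((hlog.eventually hev).and (eventually_ge_atTop 16))
  refine ⟨H₀, fun H hH f hf1 hfκ hdio a => ?_⟩
  obtain ⟨⟨a1, a2, a3, a4, a8, a9, a10, a11⟩, hH16⟩ := hH₀ H hH
  obtain ⟨x, hx⟩ : ∃ x : ℝ, x = Real.log H := ⟨_, rfl⟩
  rw [← hx] at a1 a2 a3 a4 a8 a9 a10 a11 hfκ hdio ⊢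
  have hx0 : 0 < x := by linarith
  rw [Real.rpow_one] at a3 a4 a10
  have hHR : (16 : ℝ) ≤ H := by exact_mod_cast hH16
  have hH0 : (0 : ℝ) < H := by linarith
  have hHe : (H : ℝ) = Real.exp x := by rw [hx, Real.exp_log hH0]
  have hHh : (H : ℝ) ^ (1 / 2 : ℝ) = Real.exp (x / 2) := by
    rw [hHe, ← Real.exp_mul]
    congr 1
    ring
  -- the sum over `Icc 1 H`
  obtain ⟨F, hF⟩ : ∃ F : ℝ[X], F = taylor (a : ℝ) f := ⟨_, rfl⟩
  have hFdeg : F.natDegree = f.natDegree := by rw [hF, natDegree_taylor]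
  have hFlc : F.leadingCoeff = f.leadingCoeff := by
    rw [hF]
    exact leadingCoeff_taylor _ _
  have hsum : ∑ b ∈ Ioc a (a + H), e (f.eval (b : ℝ)) = ∑ t ∈ Icc 1 H, e (F.eval (t : ℝ)) := by
    have h4 : ∑ t ∈ Icc 1 H, e (F.eval (t : ℝ)) =
        ∑ t ∈ Ico 1 (H + 1), (fun b : ℕ => e (f.eval (b : ℝ))) (t + a) := by
      refine sum_congr rfl fun t _ => ?_
      rw [hF, taylor_eval]
      push_cast
      rfl
    rw [h4, Finset.sum_Ico_add' (fun b : ℕ => e (f.eval (b : ℝ))) 1 (H + 1) a]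
    refine sum_congr ?_ fun _ _ => rfl
    ext b
    rw [mem_Ioc, mem_Ico]
    omega
  rw [hsum]
  have hdio' : ∀ n : ℕ, 1 ≤ n → (n : ℝ) ≤ x ^ κ * (H : ℝ) ^ γ →
      1 ≤ (H : ℝ) ^ (1 / 2 : ℝ) * dz (n * F.leadingCoeff) := by
    rw [hFlc]; exact hdio
  rw [← hFdeg] at hf1 hfκ
  rcases Nat.lt_or_ge 1 F.natDegree with hd | hd
  · -- degree at least two
    obtain ⟨d, hdd⟩ : ∃ d : ℕ, d = F.natDegree := ⟨_, rfl⟩
    rw [← hdd] at hd hfκ
    have hd2 : (2 : ℝ) ≤ d := by exact_mod_cast hd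
    have hd0 : (0 : ℝ) < d := by linarith
    obtain ⟨m, hm⟩ : ∃ m : ℕ, m = ⌈(d : ℝ) * Real.log (4 * (d : ℝ) ^ 2 / γ)⌉₊ := ⟨_, rfl⟩
    have hlg : 0 ≤ Real.log (4 * (d : ℝ) ^ 2 / γ) := by
      apply Real.log_nonneg
      rw [le_div_iff₀ hγ0]
      nlinarith
    have hm1 : (d : ℝ) * Real.log (4 * (d : ℝ) ^ 2 / γ) ≤ m := by rw [hm]; exact Nat.le_ceil _
    have hm2 : (m : ℝ) ≤ (d : ℝ) * Real.log (4 * (d : ℝ) ^ 2 / γ) + 1 := by
      rw [hm]; exact (Nat.ceil_lt_add_one (by positivity)).le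
    have hdm : (d : ℝ) + m ≤ x ^ κ' := by
      refine le_trans ?_ a1
      have h4 : Real.log (4 * (d : ℝ) ^ 2 / γ) ≤ Real.log (4 * (x ^ κ) ^ 2 / γ) := by
        apply Real.log_le_log (by positivity)
        gcongr
      calc (d : ℝ) + m ≤ d * (Real.log (4 * (d : ℝ) ^ 2 / γ) + 3) := by nlinarith
        _ ≤ x ^ κ * (Real.log (4 * (x ^ κ) ^ 2 / γ) + 3) :=
            mul_le_mul hfκ (by linarith) (by linarith) (by positivity)
    obtain ⟨s, hs⟩ : ∃ s : ℕ, s = d ^ 2 + d * m := ⟨_, rfl⟩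
    have hsR : (s : ℝ) = d * (d + m) := by rw [hs]; push_cast; ring
    have hm0 : (0 : ℝ) ≤ m := Nat.cast_nonneg m
    have hsx : (s : ℝ) ≤ x ^ (2 * κ') := by
      calc (s : ℝ) ≤ ((d : ℝ) + m) * (d + m) := by
            rw [hsR]
            exact mul_le_mul_of_nonneg_right (by linarith) (by positivity)
        _ ≤ x ^ κ' * x ^ κ' := mul_le_mul hdm hdm (by positivity) (by positivity)
        _ = x ^ (2 * κ') := by rw [← Real.rpow_add hx0]; congr 1; ring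
    have hs0 : (0 : ℝ) < s := by rw [hsR]; positivity
    obtain ⟨Y, hY⟩ : ∃ Y : ℕ, Y = ⌊(H : ℝ) ^ γ⌋₊ := ⟨_, rfl⟩
    have hHγ1 : (1 : ℝ) ≤ (H : ℝ) ^ γ := Real.one_le_rpow (by linarith) hγ0.le
    have hY0 : 1 ≤ Y := by rw [hY]; exact Nat.one_le_floor_iff _ |>.2 hHγ1
    have hY0' : (1 : ℝ) ≤ Y := by exact_mod_cast hY0
    have hY2 : (Y : ℝ) ≤ (H : ℝ) ^ γ := by rw [hY]; exact Nat.floor_le (by linarith)
    have hY1 : (H : ℝ) ^ γ ≤ 2 * Y := by
      have := Nat.lt_floor_add_one ((H : ℝ) ^ γ)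
      rw [← hY] at this
      linarith
    have hsz := size_aux _ F d m s H Y γ hγ0 hγ1 (vm d m H hd (by omega)) hd hdd.symm hs hH16 hm1
      hY1 hY2 hY0 ?_ ?_ ?_
    · refine hsz.trans ?_
      rw [← hx]
      have h4 : x ^ β₂ + Real.log 4 ≤ γ * x / (4 * s) := by
        have h5 : x ^ β₂ ≤ γ / 8 * x ^ (1 - 2 * κ') := by
          rw [div_mul_eq_mul_div, div_le_iff₀ hγ0] at a8
          linarith
        have h6 : Real.log 4 ≤ γ / 8 * x ^ (1 - 2 * κ') := by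
          rw [div_mul_eq_mul_div, div_le_iff₀ hγ0] at a9
          linarith
        have h7 : γ / 4 * x ^ (1 - 2 * κ') ≤ γ * x / (4 * s) := by
          rw [le_div_iff₀ (by positivity)]
          have h8 : x ^ (1 - 2 * κ') * s ≤ x := by
            calc x ^ (1 - 2 * κ') * s ≤ x ^ (1 - 2 * κ') * x ^ (2 * κ') :=
                  mul_le_mul_of_nonneg_left hsx (by positivity)
              _ = x := by
                  rw [← Real.rpow_add hx0]
                  have : 1 - 2 * κ' + 2 * κ' = 1 := by ring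
                  rw [this, Real.rpow_one]
          nlinarith
        linarith
      calc 4 * (H : ℝ) * Real.exp (-(γ * x / (4 * s))) =
            H * (Real.exp (Real.log 4) * Real.exp (-(γ * x / (4 * s)))) := by
            rw [Real.exp_log (by norm_num)]
            ring
        _ = H * Real.exp (Real.log 4 + -(γ * x / (4 * s))) := by rw [Real.exp_add]
        _ ≤ H * Real.exp (-x ^ β₂) :=
            mul_le_mul_of_nonneg_left (Real.exp_le_exp.2 (by linarith)) hH0.le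
    · rw [← hx]
      refine le_trans ?_ a2
      have h4 : (d : ℝ) + m + 2 ≤ 2 * x ^ κ' := by linarith
      have h5 : Real.log ((d : ℝ) + m + 2) ≤ Real.log (2 * x ^ κ') :=
        Real.log_le_log (by positivity) h4
      have h6 : 0 ≤ Real.log ((d : ℝ) + m + 2) := Real.log_nonneg (by linarith)
      refine mul_le_mul (mul_le_mul_of_nonneg_left (by linarith) (by norm_num)) ?_ (by positivity)
        (by positivity)
      exact mul_le_mul (pow_le_pow_left₀ (by positivity) h4 2) h5 h6 (by positivity)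
    · rw [← hx]
      have h4 : ((d : ℝ) + m) ^ 2 ≤ x ^ (2 * κ') := by
        calc ((d : ℝ) + m) ^ 2 ≤ (x ^ κ') ^ 2 := pow_le_pow_left₀ (by positivity) hdm 2
          _ = x ^ (2 * κ') := by
              rw [← Real.rpow_natCast, ← Real.rpow_mul hx0.le]
              congr 1
              push_cast
              ring
      rw [div_mul_eq_mul_div, div_le_iff₀ hγ0] at a3 a4
      linarith
    · intro y hy1 hyY
      have hy1' : (1 : ℝ) ≤ y := by exact_mod_cast hy1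
      have hyY' : (y : ℝ) ≤ Y := by exact_mod_cast hyY.le
      have h4 := hdio' (d * y) (Nat.mul_pos (by omega) hy1) (by
        push_cast
        exact mul_le_mul hfκ (hyY'.trans hY2) (by linarith) (by positivity))
      push_cast at h4
      have h8 : 1 ≤ (H : ℝ) * dz (d * F.leadingCoeff * y) := by
        refine h4.trans ?_
        have e1 : (d : ℝ) * F.leadingCoeff * y = d * y * F.leadingCoeff := by ring
        rw [e1]
        refine mul_le_mul_of_nonneg_right ?_ (dz_nonneg _)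
        rw [hHh, hHe]
        exact Real.exp_le_exp.2 (by linarith)
      refine h8.trans (mul_le_mul_of_nonneg_right ?_ (dz_nonneg _))
      have h10 : H ≤ s * H ^ (d - 1) := by
        calc H = 1 * H ^ 1 := by ring
          _ ≤ s * H ^ (d - 1) := by
              refine Nat.mul_le_mul ?_ (Nat.pow_le_pow_right (by omega) (by omega))
              exact_mod_cast hs0
      exact_mod_cast h10
  · -- degree one
    have hd1 : F.natDegree = 1 := by omega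
    have h4 : ∑ t ∈ Icc 1 H, e (F.eval (t : ℝ)) =
        e (F.coeff 0 + F.leadingCoeff) * D H F.leadingCoeff := by
      unfold D
      rw [mul_sum]
      have h5 : ∑ t ∈ Icc 1 H, e (F.eval (t : ℝ)) = ∑ t ∈ range H, e (F.eval ((t + 1 : ℕ) : ℝ)) := by
        have := Finset.sum_Ico_add' (fun t : ℕ => e (F.eval (t : ℝ))) 0 H 1
        rw [zero_add, ← Finset.range_eq_Ico] at this
        rw [this]
        rfl
      rw [h5]
      refine sum_congr rfl fun t _ => ?_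
      rw [← e_add]
      congr 1
      rw [eval_eq_sum_range' (show F.natDegree < 2 by omega), sum_range_succ, sum_range_one,
        leadingCoeff, hd1]
      push_cast
      ring
    rw [h4, norm_mul, norm_e, one_mul]
    have h5 := norm_D_dz H F.leadingCoeff
    have h6 := hdio' 1 le_rfl (by
      rw [Nat.cast_one]
      have h8 : (1 : ℝ) ≤ x ^ κ := Real.one_le_rpow a11 hκ.le
      have h9 : (1 : ℝ) ≤ (H : ℝ) ^ γ := Real.one_le_rpow (by linarith) hγ0.le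
      nlinarith)
    rw [Nat.cast_one, one_mul, hHh] at h6
    have h7 : ‖D H F.leadingCoeff‖ ≤ Real.exp (x / 2) := by
      calc ‖D H F.leadingCoeff‖ = ‖D H F.leadingCoeff‖ * 1 := (mul_one _).symm
        _ ≤ ‖D H F.leadingCoeff‖ * (Real.exp (x / 2) * dz F.leadingCoeff) :=
            mul_le_mul_of_nonneg_left h6 (norm_nonneg _)
        _ = Real.exp (x / 2) * (‖D H F.leadingCoeff‖ * dz F.leadingCoeff) := by ring
        _ ≤ Real.exp (x / 2) * 1 := by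
            refine mul_le_mul_of_nonneg_left ?_ (Real.exp_nonneg _)
            have := mul_nonneg (norm_nonneg (D H F.leadingCoeff)) (dz_nonneg F.leadingCoeff)
            nlinarith
        _ = _ := mul_one _
    calc ‖D H F.leadingCoeff‖ ≤ Real.exp (x / 2) := h7
      _ ≤ Real.exp (x + -x ^ β₂) := Real.exp_le_exp.2 (by linarith)
      _ = H * Real.exp (-x ^ β₂) := by rw [Real.exp_add, hHe]

theorem fpol_prop_at {R k : ℕ} (x : Fin R → ℝ) {T Q : ℝ}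
    (hx : ∀ h : Fin R → ℤ, h ≠ 0 → (∀ i, |(h i : ℝ)| ≤ T) →
      1 ≤ Q * dz (∑ i, (h i : ℝ) * x i))
    (u : Fin R × Fin k → ℤ) (hu : u ≠ 0) (N : ℝ) (hN : ∀ p, |(u p : ℝ)| ≤ N) (hNT : N ≤ T) :
    1 ≤ (fpol x u).natDegree ∧
      ∀ n : ℕ, 1 ≤ n → n * N ≤ T → 1 ≤ Q * dz (n * (fpol x u).leadingCoeff) := by
  have hne : ∀ j : Fin k, (fun i => u (i, j)) ≠ 0 → (fpol x u).coeff ((j : ℕ) + 1) ≠ 0 := by
    intro j hj h0
    have h1 := hx (fun i => u (i, j)) hj fun i => (hN (i, j)).trans hNT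
    rw [← fpol_coeff, h0, dz_zero, mul_zero] at h1
    linarith
  obtain ⟨p, hp⟩ : ∃ p, u p ≠ 0 := by
    by_contra hcon
    push Not at hcon
    exact hu (funext hcon)
  have hf0 : fpol x u ≠ 0 := by
    intro h0
    refine hne p.2 ?_ (by rw [h0, coeff_zero])
    intro h1
    exact hp (congrFun h1 p.1)
  have hdeg : 1 ≤ (fpol x u).natDegree := by
    by_contra hcon
    have h1 : (fpol x u).natDegree = 0 := by omega
    apply hf0
    rw [eq_C_of_natDegree_eq_zero h1, fpol_coeff_zero, C_0]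
  refine ⟨hdeg, fun n hn hnT => ?_⟩
  have hle := fpol_natDegree x u
  obtain ⟨j, hj⟩ : ∃ j : Fin k, (fpol x u).natDegree = (j : ℕ) + 1 :=
    ⟨⟨(fpol x u).natDegree - 1, by omega⟩, by simp; omega⟩
  have hlc : (fpol x u).leadingCoeff = ∑ i, (u (i, j) : ℝ) * x i := by
    rw [leadingCoeff, hj, fpol_coeff]
  have hlc0 : (fpol x u).leadingCoeff ≠ 0 := leadingCoeff_ne_zero.2 hf0
  have hn' : (1 : ℝ) ≤ n := by exact_mod_cast hn
  have h1 := hx (fun i => (n : ℤ) * u (i, j)) (by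
    intro h2
    apply hlc0
    rw [hlc]
    refine sum_eq_zero fun i _ => ?_
    have h3 := congrFun h2 i
    simp only [Pi.zero_apply, mul_eq_zero, Nat.cast_eq_zero] at h3
    rcases h3 with h3 | h3
    · omega
    · rw [h3]; simp) (fun i => by
      push_cast
      rw [abs_mul, Nat.abs_cast]
      exact (mul_le_mul_of_nonneg_left (hN (i, j)) (by linarith)).trans hnT)
  refine h1.trans (le_of_eq ?_)
  congr 2
  rw [hlc, mul_sum]
  refine sum_congr rfl fun i _ => ?_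
  push_cast
  ring

/-- **Main theorem at a fixed scale**, uniform in the tuple. -/
theorem main_at (R : ℕ) (κ β γ : ℝ) (hκ : 0 < κ)
    (hβ0 : 0 < β) (hβ : β < 1 - 3 * κ) (hγ0 : 0 < γ) :
    ∃ H₀ : ℕ, ∀ H : ℕ, H₀ ≤ H → ∀ x : Fin R → ℝ,
      (∀ h : Fin R → ℤ, h ≠ 0 → (∀ i, |(h i : ℝ)| ≤ (H : ℝ) ^ γ) →
        1 ≤ (H : ℝ) ^ (1 / 2 : ℝ) * dz (∑ i, (h i : ℝ) * x i)) → ∀ a k q : ℕ, 1 ≤ q → (k : ℝ) ≤ (Real.log H) ^ κ →
      (q : ℝ) ≤ Real.exp ((Real.log H) ^ β) → ∀ E : Finset (Fin R × Fin k → ℤ),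
      (∀ w ∈ E, ∀ p, 0 ≤ w p ∧ w p < q) →
      |(((Ioc a (a + H)).filter fun b => (fun p : Fin R × Fin k => cls q b (x p.1) ((p.2 : ℕ) + 2)) ∈ E).card : ℝ) -
        H * (E.card / (q : ℝ) ^ (R * k))| ≤ H * Real.exp (-(Real.log H) ^ β) := by
  obtain ⟨γ', hγ'0, hγ'1, hγ'2⟩ : ∃ γ' : ℝ, 0 < γ' ∧ γ' ≤ 1 / 2 ∧ γ' ≤ γ / 2 :=
    ⟨min (1 / 2) (γ / 2), lt_min (by norm_num) (by linarith), min_le_left _ _, min_le_right _ _⟩
  have hκ4 : κ < 1 / 3 := by linarith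
  obtain ⟨β', hβ'1, hβ'3⟩ : ∃ β' : ℝ, β < β' ∧ β' < 1 - 3 * κ :=
    ⟨(β + (1 - 3 * κ)) / 2, by linarith, by linarith⟩
  obtain ⟨β₁, hβ₁1, hβ₁2⟩ : ∃ β₁ : ℝ, β' < β₁ ∧ β₁ < 1 - 3 * κ :=
    ⟨(β' + (1 - 3 * κ)) / 2, by linarith, by linarith⟩
  obtain ⟨β₂, hβ₂1, hβ₂2⟩ : ∃ β₂ : ℝ, κ + β₁ < β₂ ∧ β₂ < 1 - 2 * κ :=
    ⟨(κ + β₁ + (1 - 2 * κ)) / 2, by linarith, by linarith⟩
  obtain ⟨H₁, hH₁⟩ := weyl_at κ β₂ γ' hκ hκ4 hβ₂2 hγ'0 hγ'1
  have hlog : Tendsto (fun H : ℕ => Real.log (H : ℝ)) atTop atTop :=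
    Real.tendsto_log_atTop.comp tendsto_natCast_atTop_atTop
  have hev : ∀ᶠ t : ℝ in atTop,
      Real.log (39 * R + 1) + κ * Real.log t + t ^ β ≤ t ^ β' ∧ 2 * t ^ β ≤ t ^ β' ∧
      4 * R * t ^ (κ + β₁) ≤ t ^ β₂ ∧ 4 * t ^ β ≤ t ^ β₂ ∧ 4 * 3 ≤ t ^ β₂ ∧
      8 * 3 ≤ t ^ (1 : ℝ) ∧ 8 * 2 * t ^ β ≤ t ^ (1 : ℝ) ∧ 8 * t ^ β' ≤ t ^ (1 : ℝ) ∧
      4 * 8 ≤ t ^ β₁ ∧ 4 * 3 * t ^ β ≤ t ^ β₁ ∧ 4 * 6 * t ^ β' ≤ t ^ β₁ ∧ 2 ≤ t ^ β' ∧ 1 ≤ t ∧
      4 / γ * t ^ κ ≤ t ^ (1 : ℝ) ∧ 4 / γ * t ^ β₁ ≤ t ^ (1 : ℝ) := by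
    filter_upwards [ev_log κ β β' (Real.log (39 * R + 1)) hκ hβ0 hβ'1, ev_pow_le β β' 2 hβ'1,
      ev_pow_le (κ + β₁) β₂ (4 * R) hβ₂1, ev_pow_le β β₂ 4 (by linarith),
      ev_const_le β₂ (4 * 3) (by linarith), ev_const_le 1 (8 * 3) one_pos,
      ev_pow_le β 1 (8 * 2) (by linarith), ev_pow_le β' 1 8 (by linarith),
      ev_const_le β₁ (4 * 8) (by linarith), ev_pow_le β β₁ (4 * 3) (by linarith),
      ev_pow_le β' β₁ (4 * 6) hβ₁1, ev_const_le β' 2 (by linarith), eventually_ge_atTop 1,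
      ev_pow_le κ 1 (4 / γ) (by linarith), ev_pow_le β₁ 1 (4 / γ) (by linarith)]
      with t a1 a2 a3 a4 a5 a6 a7 a8 a9 a10 a11 a12 a13 a14 a15
    exact ⟨a1, a2, a3, a4, a5, a6, a7, a8, a9, a10, a11, a12, a13, a14, a15⟩
  obtain ⟨H₂, hH₂⟩ := eventually_atTop.1 ((hlog.eventually hev).and (eventually_ge_atTop 16))
  refine ⟨max H₁ H₂, fun H hH x hxm a k q hq hk hqβ E hE => ?_⟩
  obtain ⟨⟨a1, a2, a3, a4, a5, a6, a7, a8, a9, a10, a11, a12, a13, a14, a15⟩, hH16⟩ :=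
    hH₂ H ((le_max_right _ _).trans hH)
  have hweyl := hH₁ H ((le_max_left _ _).trans hH)
  obtain ⟨t, ht⟩ : ∃ t : ℝ, t = Real.log H := ⟨_, rfl⟩
  rw [← ht] at a1 a2 a3 a4 a5 a6 a7 a8 a9 a10 a11 a12 a13 a14 a15 hk hqβ hweyl ⊢
  rw [Real.rpow_one] at a6 a7 a8 a14 a15
  have ht0 : 0 < t := by linarith
  have hHR : (16 : ℝ) ≤ H := by exact_mod_cast hH16
  have hH0 : (0 : ℝ) < H := by linarith
  have hHe : (H : ℝ) = Real.exp t := by rw [ht, Real.exp_log hH0]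
  -- parameters
  obtain ⟨M, hM⟩ : ∃ M : ℕ, M = ⌈Real.exp (t ^ β')⌉₊ := ⟨_, rfl⟩
  have hM1 : Real.exp (t ^ β') ≤ M := by rw [hM]; exact Nat.le_ceil _
  have hM2 : (M : ℝ) ≤ Real.exp (t ^ β' + 1) := by
    have h1 := (Nat.ceil_lt_add_one (Real.exp_nonneg (t ^ β'))).le
    rw [← hM] at h1
    have h2 : (1 : ℝ) ≤ Real.exp (t ^ β') := Real.one_le_exp (by positivity)
    have h3 := Real.add_one_le_exp (1 : ℝ)
    rw [Real.exp_add]
    calc (M : ℝ) ≤ Real.exp (t ^ β') * 2 := by linarith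
      _ ≤ Real.exp (t ^ β') * Real.exp 1 :=
          mul_le_mul_of_nonneg_left (by linarith) (Real.exp_nonneg _)
  have hM3 : 3 ≤ M := by
    have h1 := Real.add_one_le_exp (t ^ β')
    have h2 : (3 : ℝ) ≤ M := by linarith
    exact_mod_cast h2
  have hM3' : (3 : ℝ) ≤ M := by exact_mod_cast hM3
  have hq1 : (1 : ℝ) ≤ q := by exact_mod_cast hq
  have hone : (1 : ℝ) ≤ (((q * M : ℕ) : ℝ) * M) ^ 3 := by
    apply one_le_pow₀
    have h1 : 1 ≤ q * M * M := Nat.mul_pos (Nat.mul_pos hq (by omega)) (by omega)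
    exact_mod_cast h1
  have hg1 : 2 * (((q * M : ℕ) : ℝ) * M) ^ 3 + 1 ≤ Real.exp (t ^ β₁) := by
    have h1 := hone
    have h2 : (((q * M : ℕ) : ℝ) * M) ≤ Real.exp (t ^ β + 2 * (t ^ β' + 1)) := by
      push_cast
      calc (q : ℝ) * M * M ≤ Real.exp (t ^ β) * Real.exp (t ^ β' + 1) * Real.exp (t ^ β' + 1) :=
            mul_le_mul (mul_le_mul hqβ hM2 (by positivity) (by positivity)) hM2 (by positivity)
              (by positivity)
        _ = _ := by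
            rw [← Real.exp_add, ← Real.exp_add]
            congr 1
            ring
    have h3 : (3 : ℝ) ≤ Real.exp 2 := by
      have := Real.add_one_le_exp (2 : ℝ)
      linarith
    calc 2 * (((q * M : ℕ) : ℝ) * M) ^ 3 + 1 ≤ 3 * (((q * M : ℕ) : ℝ) * M) ^ 3 := by linarith
      _ ≤ Real.exp 2 * Real.exp (t ^ β + 2 * (t ^ β' + 1)) ^ 3 :=
          mul_le_mul h3 (pow_le_pow_left₀ (by positivity) h2 3) (by positivity) (by positivity)
      _ = Real.exp (2 + 3 * (t ^ β + 2 * (t ^ β' + 1))) := by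
          rw [← Real.exp_nat_mul, ← Real.exp_add]
          push_cast
          rfl
      _ ≤ Real.exp (t ^ β₁) := Real.exp_le_exp.2 (by linarith)
  have hg0 : (0 : ℝ) ≤ (((q * M : ℕ) : ℝ) * M) ^ 3 := by positivity
  obtain ⟨B, hB⟩ : ∃ B : Finset ℕ, B = Ioc a (a + H) := ⟨_, rfl⟩
  have hBc : B.card = H := by rw [hB, Nat.card_Ioc]; omega
  have hBne : B.Nonempty := by
    rw [← card_pos, hBc]
    omega
  obtain ⟨ε, hε⟩ : ∃ ε : ℝ, ε = Real.exp (-t ^ β₂) := ⟨_, rfl⟩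
  have hε0 : 0 < ε := by rw [hε]; exact Real.exp_pos _
  obtain ⟨n, hn⟩ : ∃ n : ℕ, n = R * k := ⟨_, rfl⟩
  have hcard : Fintype.card (Fin R × Fin k) = n := by
    rw [Fintype.card_prod, Fintype.card_fin, Fintype.card_fin, hn]
  have hnR : (n : ℝ) ≤ R * t ^ κ := by
    rw [hn]
    push_cast
    exact mul_le_mul_of_nonneg_left hk (Nat.cast_nonneg _)
  -- exponential sums
  have hS : ∀ u : Fin R × Fin k → ℤ, u ≠ 0 → (∀ i, |u i| ≤ (((q * M) * M) ^ 3 : ℕ)) →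
      ‖∑ b ∈ B, e (∑ i, (u i : ℝ) * (x i.1 * (b : ℝ) ^ ((i.2 : ℕ) + 1)))‖ ≤ ε * B.card := by
    intro u hu huN
    have hN : ∀ p, |(u p : ℝ)| ≤ (((q * M : ℕ) : ℝ) * M) ^ 3 := by
      intro p
      have h1 := huN p
      have h2 : |(u p : ℝ)| ≤ ((((q * M) * M) ^ 3 : ℕ) : ℝ) := by exact_mod_cast h1
      refine h2.trans (le_of_eq ?_)
      push_cast
      ring
    have hγt : (H : ℝ) ^ γ = Real.exp (γ * t) := by
      rw [hHe, ← Real.exp_mul]
      congr 1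
      ring
    have hγt' : (H : ℝ) ^ γ' = Real.exp (γ' * t) := by
      rw [hHe, ← Real.exp_mul]
      congr 1
      ring
    have b1 : t ^ β₁ ≤ γ / 4 * t := by
      rw [div_mul_eq_mul_div, div_le_iff₀ hγ0] at a15
      linarith
    have b2 : t ^ κ ≤ γ / 4 * t := by
      rw [div_mul_eq_mul_div, div_le_iff₀ hγ0] at a14
      linarith
    have hγt0 : 0 < γ * t := by positivity
    have hg2 : (((q * M : ℕ) : ℝ) * M) ^ 3 ≤ Real.exp (t ^ β₁) := by linarith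
    obtain ⟨h1, h2⟩ := fpol_prop_at x hxm u hu _ hN (by
      refine hg2.trans ?_
      rw [hγt]
      exact Real.exp_le_exp.2 (by linarith))
    have h3 := hweyl (fpol x u) h1 (le_trans (by exact_mod_cast fpol_natDegree x u) hk)
      (fun n hn hnT => h2 n hn (by
        rw [hγt]
        rw [hγt'] at hnT
        have b3 : t ^ κ ≤ Real.exp (t ^ κ) := by
          have := Real.add_one_le_exp (t ^ κ)
          linarith
        calc (n : ℝ) * (((q * M : ℕ) : ℝ) * M) ^ 3 ≤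
            (Real.exp (t ^ κ) * Real.exp (γ' * t)) * Real.exp (t ^ β₁) := by
              refine mul_le_mul (hnT.trans ?_) hg2 hg0 (by positivity)
              exact mul_le_mul_of_nonneg_right b3 (Real.exp_nonneg _)
          _ = Real.exp (t ^ κ + γ' * t + t ^ β₁) := by rw [← Real.exp_add, ← Real.exp_add]
          _ ≤ Real.exp (γ * t) := by
              refine Real.exp_le_exp.2 ?_
              have b4 : γ' * t ≤ γ / 2 * t := mul_le_mul_of_nonneg_right hγ'2 ht0.le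
              linarith)) a
    rw [hBc, hB, hε, mul_comm]
    refine le_trans (le_of_eq ?_) h3
    congr 1
    refine sum_congr rfl fun b _ => ?_
    rw [fpol_eval]
  have hqM1 : 1 ≤ q * M := Nat.mul_pos hq (show 0 < M by omega)
  have hqM2 : 2 ≤ q * M := le_trans (show 2 ≤ M by omega) (Nat.le_mul_of_pos_left M hq)
  have hcell := cell_le B (fun (b : ℕ) (i : Fin R × Fin k) => x i.1 * (b : ℝ) ^ ((i.2 : ℕ) + 1))
    (q * M) M hqM1 hM3 hqM2 ε hε0.le hS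
  obtain ⟨ρ, hρ⟩ : ∃ ρ : ℝ, ρ = ((1 + 3 / M) / ((q * M : ℕ) : ℝ)) ^ n *
    (1 + (2 * (((q * M : ℕ) : ℝ) * M) ^ 3 + 1) ^ n * ε) := ⟨_, rfl⟩
  have hcell' : ∀ cc : Fin R × Fin k → ℕ, ((B.filter fun b : ℕ => cell (q * M)
      (fun p : Fin R × Fin k => x p.1 * (b : ℝ) ^ ((p.2 : ℕ) + 1)) = cc).card : ℝ) ≤ B.card * ρ := by
    intro cc
    have h1 := hcell cc
    rw [hcard, ← hρ] at h1
    refine le_trans ?_ h1
    have h2 : (B.filter fun b : ℕ => cell (q * M)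
        (fun p : Fin R × Fin k => x p.1 * (b : ℝ) ^ ((p.2 : ℕ) + 1)) = cc) ⊆
        (B.filter fun b => ∀ i, (cc i : ℝ) ≤ ((q * M : ℕ) : ℝ) *
          Int.fract (x i.1 * (b : ℝ) ^ ((i.2 : ℕ) + 1)) ∧ ((q * M : ℕ) : ℝ) *
          Int.fract (x i.1 * (b : ℝ) ^ ((i.2 : ℕ) + 1)) < cc i + 1) := by
      intro b hb
      rw [mem_filter] at hb ⊢
      refine ⟨hb.1, fun i => ?_⟩
      rw [← hb.2]
      unfold cell
      exact ⟨Nat.floor_le (mul_nonneg (Nat.cast_nonneg _) (Int.fract_nonneg _)),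
        Nat.lt_floor_add_one _⟩
    exact_mod_cast card_le_card h2
  have htv := tv_digits B hBne (fun p : Fin R × Fin k => x p.1) (fun p => (p.2 : ℕ) + 1) q M hq
    (by omega) ρ hcell' E hE
  rw [hcard, hBc] at htv
  rw [← hB, ← hn]
  refine htv.trans ?_
  -- numerical estimate
  have hQM : (0 : ℝ) < ((q * M : ℕ) : ℝ) := by
    have : 0 < q * M := Nat.mul_pos hq (by omega)
    exact_mod_cast this
  have e1 : ((q * M : ℕ) : ℝ) ^ n * ρ = (1 + 3 / (M : ℝ)) ^ n *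
      (1 + (2 * (((q * M : ℕ) : ℝ) * M) ^ 3 + 1) ^ n * ε) := by
    rw [hρ, ← mul_assoc, ← mul_pow]
    congr 2
    field_simp
  rw [e1]
  have hn0 : (0 : ℝ) ≤ n := Nat.cast_nonneg n
  have hRk : (0 : ℝ) ≤ R * t ^ κ := by positivity
  obtain ⟨y, hy⟩ : ∃ y : ℝ, y = (n : ℝ) / M := ⟨_, rfl⟩
  have hy0 : 0 ≤ y := by rw [hy]; positivity
  have hyb : 39 * y ≤ Real.exp (-t ^ β) := by
    have h1 : 39 * (n : ℝ) ≤ Real.exp (Real.log (39 * R + 1) + κ * Real.log t) := by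
      rw [Real.exp_add, Real.exp_log (by positivity), mul_comm κ, ← Real.rpow_def_of_pos ht0]
      have h3 : 0 ≤ t ^ κ := by positivity
      nlinarith
    have h2 : Real.exp (Real.log (39 * R + 1) + κ * Real.log t) ≤ Real.exp (-t ^ β) * M := by
      calc Real.exp (Real.log (39 * R + 1) + κ * Real.log t) ≤ Real.exp (-t ^ β + t ^ β') :=
            Real.exp_le_exp.2 (by linarith)
        _ = Real.exp (-t ^ β) * Real.exp (t ^ β') := Real.exp_add _ _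
        _ ≤ _ := mul_le_mul_of_nonneg_left hM1 (Real.exp_nonneg _)
    rw [hy, ← mul_div_assoc, div_le_iff₀ (by linarith)]
    linarith
  have he1 : Real.exp (-t ^ β) ≤ 1 := by
    rw [Real.exp_le_one_iff]
    have : 0 ≤ t ^ β := by positivity
    linarith
  obtain ⟨z, hz⟩ : ∃ z : ℝ, z = (2 * (((q * M : ℕ) : ℝ) * M) ^ 3 + 1) ^ n * ε := ⟨_, rfl⟩
  have hz0 : 0 ≤ z := by rw [hz]; positivity
  have hzb : 12 * z ≤ Real.exp (-t ^ β) := by
    have h1 : (2 * (((q * M : ℕ) : ℝ) * M) ^ 3 + 1) ^ n ≤ Real.exp (R * t ^ (κ + β₁)) := by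
      calc (2 * (((q * M : ℕ) : ℝ) * M) ^ 3 + 1) ^ n ≤ (Real.exp (t ^ β₁)) ^ n :=
            pow_le_pow_left₀ (by positivity) hg1 n
        _ = Real.exp (n * t ^ β₁) := by rw [← Real.exp_nat_mul]
        _ ≤ Real.exp (R * t ^ (κ + β₁)) := by
            refine Real.exp_le_exp.2 ?_
            rw [Real.rpow_add ht0, ← mul_assoc]
            exact mul_le_mul_of_nonneg_right hnR (by positivity)
    have h2 : (12 : ℝ) ≤ Real.exp 3 := by
      have h3 := Real.add_one_le_exp (3 / 2 : ℝ)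
      have h4 := Real.exp_one_gt_d9
      have h5 : Real.exp 3 = Real.exp 1 ^ 3 := by
        rw [← Real.exp_nat_mul]
        norm_num
      rw [h5]
      have h6 : (2.7 : ℝ) ^ 3 ≤ Real.exp 1 ^ 3 := pow_le_pow_left₀ (by norm_num) (by linarith) 3
      norm_num at h6
      linarith
    calc 12 * z ≤ Real.exp 3 * (Real.exp (R * t ^ (κ + β₁)) * ε) := by
          rw [hz]
          exact mul_le_mul h2 (mul_le_mul_of_nonneg_right h1 hε0.le) (by positivity) (by positivity)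
      _ = Real.exp (3 + R * t ^ (κ + β₁) + -t ^ β₂) := by
          rw [hε, Real.exp_add, Real.exp_add]
          ring
      _ ≤ _ := Real.exp_le_exp.2 (by linarith)
  have hqM : 3 * ((q : ℝ) * M) ≤ H * Real.exp (-t ^ β) := by
    have h3 : (3 : ℝ) ≤ Real.exp 2 := by
      have := Real.add_one_le_exp (2 : ℝ)
      linarith
    calc 3 * ((q : ℝ) * M) ≤ Real.exp 2 * (Real.exp (t ^ β) * Real.exp (t ^ β' + 1)) :=
          mul_le_mul h3 (mul_le_mul hqβ hM2 (by positivity) (by positivity)) (by positivity)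
            (by positivity)
      _ = Real.exp (2 + (t ^ β + (t ^ β' + 1))) := by rw [Real.exp_add 2, Real.exp_add (t ^ β)]
      _ ≤ Real.exp (t + -t ^ β) := Real.exp_le_exp.2 (by linarith)
      _ = H * Real.exp (-t ^ β) := by rw [Real.exp_add, hHe]
  have hpow : (1 + 3 / (M : ℝ)) ^ n ≤ 1 + 6 * y := by
    have h1 : (1 + 3 / (M : ℝ)) ^ n ≤ Real.exp (3 * y) := by
      have h2 : 1 + 3 / (M : ℝ) ≤ Real.exp (3 / M) := by
        have := Real.add_one_le_exp (3 / (M : ℝ))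
        linarith
      calc (1 + 3 / (M : ℝ)) ^ n ≤ (Real.exp (3 / M)) ^ n := pow_le_pow_left₀ (by positivity) h2 n
        _ = Real.exp (3 * y) := by
            rw [← Real.exp_nat_mul, hy]
            congr 1
            ring
    have h2 := exp_le_lin (y := 3 * y) (by linarith) (by linarith)
    linarith
  rw [← hy, ← hz]
  have hfin : y + 2 * ((1 + 3 / (M : ℝ)) ^ n * (1 + z) - 1) ≤ 2 / 3 * Real.exp (-t ^ β) := by
    have h1 : (1 + 3 / (M : ℝ)) ^ n * (1 + z) ≤ (1 + 6 * y) * (1 + z) :=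
      mul_le_mul_of_nonneg_right hpow (by linarith)
    have h2 : 6 * y * z ≤ 1 * z := mul_le_mul_of_nonneg_right (by linarith) hz0
    have h3 : (1 + 6 * y) * (1 + z) = 1 + 6 * y + z + 6 * y * z := by ring
    rw [h3] at h1
    linarith
  have h1 := mul_le_mul_of_nonneg_left hfin hH0.le
  have h2 : (q : ℝ) * M ≤ 1 / 3 * (H * Real.exp (-t ^ β)) := by linarith
  calc H * (y + 2 * ((1 + 3 / (M : ℝ)) ^ n * (1 + z) - 1)) + q * M ≤
      H * (2 / 3 * Real.exp (-t ^ β)) + 1 / 3 * (H * Real.exp (-t ^ β)) := add_le_add h1 h2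
    _ = H * Real.exp (-t ^ β) := by ring

end Pool.Agent.W2helper84.RB
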