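import Mathlib
import Pool.Agent.W2helper84.RB.Main
import Pool.Agent.R473.EC.Pi
import Pool.Agent.TH456.TM.E

/-!
# Measures of linear independence modulo one
-/

set_option autoImplicit false

namespace Pool.Agent.W2helper84.RB

open Finset Polynomial
open Pool.Agent.R473.EC (MeasR)

/-- tuples of numbers algebraic over `ℚ(t)` -/
theorem meas_of_li {t : ℝ} (ht : MeasR t) {R : ℕ} (x : Fin R → ℝ)
    (hx : ∀ i, IsAlgebraic (IntermediateField.adjoin ℚ ({t} : Set ℝ)) (x i))
    (hli : LinearIndependent ℚ (Fin.cons 1 x : Fin (R + 1) → ℝ)) : Meas x := by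
  obtain ⟨w, c, hw, hc, hm⟩ := Pool.Agent.R473.EC.meas_alg t ht (Fin.cons 1 x : Fin (R + 1) → ℝ)
    (by
      intro j
      refine Fin.cases ?_ (fun i => ?_) j
      · rw [Fin.cons_zero]
        exact isAlgebraic_one
      · rw [Fin.cons_succ]
        exact hx i) hli
  obtain ⟨B, hB⟩ : ∃ B : ℝ, B = 1 + ∑ i, |x i| := ⟨_, rfl⟩
  have hB1 : 1 ≤ B := by
    rw [hB]
    have : 0 ≤ ∑ i, |x i| := sum_nonneg fun i _ => abs_nonneg _
    linarith
  have hB0 : 0 < B := by linarith
  refine ⟨w, c / B ^ w, hw, by positivity, fun h hh N hN => ?_⟩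
  obtain ⟨i₀, hi₀⟩ : ∃ i, h i ≠ 0 := by
    by_contra hcon
    push Not at hcon
    exact hh (funext hcon)
  have hN1 : 1 ≤ N := by
    refine le_trans ?_ (hN i₀)
    have h1 : (1 : ℤ) ≤ |h i₀| := Int.one_le_abs hi₀
    exact_mod_cast h1
  obtain ⟨p, hp⟩ : ∃ p : ℤ, p = round (∑ i, (h i : ℝ) * x i) := ⟨_, rfl⟩
  have hdz : dz (∑ i, (h i : ℝ) * x i) = |∑ i, (h i : ℝ) * x i - p| := by
    unfold dz
    rw [hp]
  have hs : |∑ i, (h i : ℝ) * x i| ≤ N * ∑ i, |x i| := by
    rw [mul_sum]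
    refine (abs_sum_le_sum_abs _ _).trans (sum_le_sum fun i _ => ?_)
    rw [abs_mul]
    exact mul_le_mul_of_nonneg_right (hN i) (abs_nonneg _)
  have hpN : |(p : ℝ)| ≤ N * B := by
    have h1 : |∑ i, (h i : ℝ) * x i - p| ≤ 1 / 2 := by
      rw [hp]
      exact abs_sub_round _
    have h2 : |(p : ℝ)| ≤ |∑ i, (h i : ℝ) * x i| + |∑ i, (h i : ℝ) * x i - p| := by
      have h3 : (p : ℝ) = ∑ i, (h i : ℝ) * x i - (∑ i, (h i : ℝ) * x i - p) := by ring
      calc |(p : ℝ)| = |∑ i, (h i : ℝ) * x i - (∑ i, (h i : ℝ) * x i - p)| := by rw [← h3]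
        _ ≤ _ := abs_sub _ _
    rw [hB]
    linarith
  have hNB : 1 ≤ N * B := by nlinarith
  have h1 := hm (Fin.cons (-p) h) (by
    intro h0
    apply hi₀
    have h3 := congrFun h0 i₀.succ
    rwa [Fin.cons_succ] at h3) (N * B) hNB (by
    intro j
    refine Fin.cases ?_ (fun i => ?_) j
    · rw [Fin.cons_zero]
      push_cast
      rw [abs_neg]
      exact hpN
    · rw [Fin.cons_succ]
      exact (hN i).trans (by nlinarith))
  rw [Fin.sum_univ_succ] at h1
  simp only [Fin.cons_zero, Fin.cons_succ] at h1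
  have h2 : ((-p : ℤ) : ℝ) * 1 + ∑ i, (h i : ℝ) * x i = ∑ i, (h i : ℝ) * x i - p := by
    push_cast
    ring
  rw [h2, ← hdz, Real.mul_rpow (by linarith) hB0.le] at h1
  rw [div_le_iff₀ (by positivity)]
  linarith

/-- a single number which is neither rational nor a Liouville number -/
theorem meas_of_not_liouville {x : ℝ} (hx : Irrational x) (hL : ¬ Liouville x) :
    Meas (fun _ : Fin 1 => x) := by
  unfold Liouville at hL
  push Not at hL
  obtain ⟨n, hn⟩ := hL
  have hdx : 0 < dz x := by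
    unfold dz
    refine abs_pos.2 fun h => hx ⟨round x, ?_⟩
    push_cast
    linarith
  refine ⟨n, min 1 (dz x), Nat.cast_nonneg _, lt_min one_pos hdx, fun h hh N hN => ?_⟩
  have hh0 : h 0 ≠ 0 := by
    intro h0
    apply hh
    funext i
    rw [Fin.eq_zero i, h0]
    rfl
  rw [Fin.sum_univ_one, Real.rpow_natCast]
  have hN0 := hN 0
  obtain ⟨m, hm⟩ : ∃ m : ℤ, m = |h 0| := ⟨_, rfl⟩
  have hm1 : 1 ≤ m := by rw [hm]; exact Int.one_le_abs hh0
  have hmN : (m : ℝ) ≤ N := by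
    rw [hm]
    exact_mod_cast hN0
  have hdz : dz ((h 0 : ℝ) * x) = dz (m * x) := by
    rcases abs_choice (h 0) with h1 | h1
    · rw [hm, h1]
    · rw [hm, h1]
      push_cast
      rw [neg_mul, dz_neg]
  rw [hdz]
  have hmR : (1 : ℝ) ≤ m := by exact_mod_cast hm1
  have hpow : (m : ℝ) ^ n * dz (m * x) ≤ N ^ n * dz (m * x) :=
    mul_le_mul_of_nonneg_right (pow_le_pow_left₀ (by linarith) hmN n) (dz_nonneg _)
  refine le_trans ?_ hpow
  rcases eq_or_lt_of_le hm1 with h1 | h1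
  · rw [← h1]
    simp
  · refine (min_le_left _ _).trans ?_
    have h2 := hn (round (m * x)) m h1 (by
      intro h3
      apply hx
      refine ⟨(round (m * x) : ℚ) / m, ?_⟩
      push_cast
      exact h3.symm)
    have hm0 : (0 : ℝ) < m := by linarith
    have h3 : x - (round ((m : ℝ) * x) : ℝ) / m = (m * x - round ((m : ℝ) * x)) / m := by
      field_simp
    rw [h3, abs_div, abs_of_pos hm0, div_le_div_iff₀ (by positivity) hm0, one_mul] at h2
    unfold dz
    linarith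

/-- the height of an integer polynomial: the largest absolute value of a coefficient -/
def height (P : Polynomial ℤ) : ℕ := P.support.sup fun i => (P.coeff i).natAbs

/-- U-numbers -/
def UNumber (x : ℝ) : Prop :=
  ∃ d : ℕ, ∀ w : ℕ, {P : Polynomial ℤ | P.natDegree ≤ d ∧ 0 < |Polynomial.aeval x P| ∧
    |Polynomial.aeval x P| * (height P : ℝ) ^ w ≤ 1}.Infinite

lemma height_le {P : Polynomial ℤ} {H : ℝ} (hH : 0 ≤ H) (h : ∀ j, |(P.coeff j : ℝ)| ≤ H) :
    (height P : ℝ) ≤ H := by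
  by_cases hs : P.support.Nonempty
  · obtain ⟨i, -, h6⟩ := Finset.exists_mem_eq_sup _ hs (fun i => (P.coeff i).natAbs)
    unfold height
    rw [h6, Nat.cast_natAbs, Int.cast_abs]
    exact h i
  · rw [Finset.not_nonempty_iff_eq_empty] at hs
    unfold height
    rw [hs, Finset.sup_empty]
    simpa using hH

/-- transcendental numbers which are not U-numbers -/
theorem measR_of_not_unumber {z : ℝ} (hz : Transcendental ℚ z) (hU : ¬ UNumber z) : MeasR z := by
  intro D
  unfold UNumber at hU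
  push Not at hU
  obtain ⟨w, hw⟩ := hU D
  obtain ⟨T, hT⟩ : ∃ T : Set ℤ[X], T = {P : ℤ[X] | P.natDegree ≤ D ∧ 0 < |aeval z P| ∧
    |aeval z P| * (height P : ℝ) ^ w ≤ 1} := ⟨_, rfl⟩
  have hTf : T.Finite := by rw [hT]; exact hw
  obtain ⟨c, hc, hcT⟩ : ∃ c : ℝ, 0 < c ∧ ∀ P ∈ T, c ≤ |aeval z P| := by
    by_cases hne : T.Nonempty
    · obtain ⟨Q, hQ, hmin⟩ := Set.exists_min_image T (fun P => |aeval z P|) hTf hne
      rw [hT] at hQ
      exact ⟨|aeval z Q|, hQ.2.1, hmin⟩
    · exact ⟨1, one_pos, fun P hP => absurd ⟨P, hP⟩ hne⟩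
  refine ⟨w, min 1 c, Nat.cast_nonneg _, lt_min one_pos hc, fun P hP hPD H hH hPH => ?_⟩
  rw [Real.rpow_natCast]
  have h1 := height_le (by linarith) hPH
  have hpos : 0 < |aeval z P| := by
    refine abs_pos.2 fun h0 => hz ⟨P.map (Int.castRingHom ℚ), ?_, ?_⟩
    · rw [Ne, Polynomial.map_eq_zero_iff (RingHom.injective_int _)]
      exact hP
    · rw [Polynomial.aeval_def, Polynomial.eval₂_map]
      rw [Polynomial.aeval_def] at h0
      rw [← h0]
      congr 1
  by_cases hPT : P ∈ T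
  · calc min 1 c ≤ c := min_le_right _ _
      _ ≤ |aeval z P| := hcT P hPT
      _ = 1 * |aeval z P| := (one_mul _).symm
      _ ≤ H ^ w * |aeval z P| := by
          gcongr
          exact one_le_pow₀ hH
  · have h2 : 1 < |aeval z P| * (height P : ℝ) ^ w := by
      by_contra hcon
      push Not at hcon
      apply hPT
      rw [hT]
      exact ⟨hPD, hpos, hcon⟩
    calc min 1 c ≤ 1 := min_le_left _ _
      _ ≤ |aeval z P| * (height P : ℝ) ^ w := h2.le
      _ ≤ |aeval z P| * H ^ w := by gcongr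
      _ = H ^ w * |aeval z P| := mul_comm _ _

/-- the special numbers -/
theorem measR_special {z : ℝ} (hz : z = Real.exp 1 ∨ z = Real.pi ∨
      (∃ q : ℚ, 0 < q ∧ q ≠ 1 ∧ z = Real.log q) ∨ (Transcendental ℚ z ∧ ¬ UNumber z)) : MeasR z := by
  rcases hz with h | h | ⟨q, hq, hq1, h⟩ | ⟨h1, h2⟩
  · rw [h]
    exact Pool.Agent.R473.EC.measR_of _ Pool.Agent.TH456.TM.measT_e
  · rw [h]
    exact Pool.Agent.R473.EC.measR_pi
  · rw [h]
    exact Pool.Agent.R473.EC.measR_of _ (Pool.Agent.TH456.TM.measT_real_log q hq hq1)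
  · exact measR_of_not_unumber h1 h2

end Pool.Agent.W2helper84.RB
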