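import Mathlib
import Pool.Agent.W2helper84.RB.At
import Pool.Agent.W2helper84.RB.Inst
import Pool.Agent.R473.JC.Pairs

/-!
# Two numbers: at every scale one of them is far from algebraic numbers
-/

set_option autoImplicit false

namespace Pool.Agent.W2helper84.RB

open Finset Polynomial Filter
open Pool.Agent.R356 (JointR)

/-- the powers of `u` have no small linear relations modulo one at the scale `H` -/
def GoodP (R : ℕ) (γ : ℝ) (H : ℕ) (u : ℝ) : Prop :=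
  ∀ h : Fin R → ℤ, h ≠ 0 → (∀ i, |(h i : ℝ)| ≤ (H : ℝ) ^ γ) →
    1 ≤ (H : ℝ) ^ (1 / 2 : ℝ) * dz (∑ i, (h i : ℝ) * u ^ ((i : ℕ) + 1))

/-- the polynomial attached to a relation -/
noncomputable def relP {R : ℕ} (p : ℤ) (h : Fin R → ℤ) : ℤ[X] :=
  C (-p) + ∑ i : Fin R, C (h i) * X ^ ((i : ℕ) + 1)

theorem relP_coeff_zero {R : ℕ} (p : ℤ) (h : Fin R → ℤ) : (relP p h).coeff 0 = -p := by
  unfold relP
  rw [coeff_add, coeff_C_zero, finsetSum_coeff, sum_eq_zero, add_zero]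
  intro i _
  rw [coeff_C_mul, coeff_X_pow, if_neg (by omega), mul_zero]

theorem relP_coeff_succ {R : ℕ} (p : ℤ) (h : Fin R → ℤ) (i : Fin R) :
    (relP p h).coeff ((i : ℕ) + 1) = h i := by
  unfold relP
  rw [coeff_add, coeff_C, if_neg (by omega), zero_add, finsetSum_coeff, sum_eq_single i]
  · rw [coeff_C_mul, coeff_X_pow_self, mul_one]
  · intro j _ hj
    rw [coeff_C_mul, coeff_X_pow, if_neg, mul_zero]
    intro h1
    apply hj
    ext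
    omega
  · intro h1
    exact absurd (mem_univ _) h1

theorem relP_natDegree {R : ℕ} (p : ℤ) (h : Fin R → ℤ) : (relP p h).natDegree ≤ R := by
  unfold relP
  refine natDegree_add_le_of_degree_le ?_ ?_
  · rw [natDegree_C]
    exact Nat.zero_le _
  · refine natDegree_sum_le_of_forall_le _ _ fun i _ => ?_
    refine (natDegree_C_mul_X_pow_le _ _).trans ?_
    have := i.2
    omega

theorem relP_coeff_le {R : ℕ} (p : ℤ) (h : Fin R → ℤ) (T : ℝ) (hp : |(p : ℝ)| ≤ T)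
    (hh : ∀ i, |(h i : ℝ)| ≤ T) (k : ℕ) : |((relP p h).coeff k : ℝ)| ≤ T := by
  have hT : 0 ≤ T := (abs_nonneg _).trans hp
  rcases k with _ | k
  · rw [relP_coeff_zero]
    push_cast
    rw [abs_neg]
    exact hp
  · by_cases hk : k < R
    · have := relP_coeff_succ p h ⟨k, hk⟩
      rw [this]
      exact hh _
    · rw [coeff_eq_zero_of_natDegree_lt (lt_of_le_of_lt (relP_natDegree p h) (by omega))]
      simpa using hT

theorem relP_aeval {R : ℕ} (p : ℤ) (h : Fin R → ℤ) (u : ℝ) :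
    aeval u (relP p h) = ∑ i, (h i : ℝ) * u ^ ((i : ℕ) + 1) - p := by
  unfold relP
  rw [map_add, aeval_C, map_sum]
  have h1 : ∀ i : Fin R, aeval u (C (h i) * X ^ ((i : ℕ) + 1)) = (h i : ℝ) * u ^ ((i : ℕ) + 1) := by
    intro i
    rw [map_mul, aeval_C, map_pow, aeval_X]
    simp
  rw [sum_congr rfl fun i _ => h1 i]
  simp
  ring

/-- at every scale one of the two numbers is good -/
theorem joint_good {u v : ℝ} (hj : JointR u v) (R : ℕ) :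
    ∃ γ₀ : ℝ, 0 < γ₀ ∧ ∀ γ : ℝ, 0 < γ → γ ≤ γ₀ → ∃ H₀ : ℕ, ∀ H : ℕ, H₀ ≤ H →
      GoodP R γ H u ∨ GoodP R γ H v := by
  obtain ⟨κ, c, hκ, hc, hm⟩ := hj R
  refine ⟨1 / (4 * κ), by positivity, fun γ hγ hγκ => ?_⟩
  obtain ⟨B, hB⟩ : ∃ B : ℝ, B = 1 + ∑ i : Fin R, |u ^ ((i : ℕ) + 1)| + ∑ i : Fin R, |v ^ ((i : ℕ) + 1)| :=
    ⟨_, rfl⟩
  have hBu : 0 ≤ ∑ i : Fin R, |u ^ ((i : ℕ) + 1)| := sum_nonneg fun i _ => abs_nonneg _
  have hBv : 0 ≤ ∑ i : Fin R, |v ^ ((i : ℕ) + 1)| := sum_nonneg fun i _ => abs_nonneg _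
  have hB0 : 0 < B := by linarith
  have hlim : Tendsto (fun H : ℕ => (H : ℝ) ^ (1 / 4 : ℝ)) atTop atTop :=
    (tendsto_rpow_atTop (by norm_num)).comp tendsto_natCast_atTop_atTop
  obtain ⟨H₀, hH₀⟩ := eventually_atTop.1 ((hlim.eventually_gt_atTop (B ^ κ / c)).and
    (eventually_ge_atTop 1))
  refine ⟨H₀, fun H hH => ?_⟩
  obtain ⟨h1, hH1⟩ := hH₀ H hH
  have hH1' : (1 : ℝ) ≤ H := by exact_mod_cast hH1
  have hH0 : (0 : ℝ) < H := by linarith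
  have hHγ : 1 ≤ (H : ℝ) ^ γ := Real.one_le_rpow hH1' hγ.le
  by_contra hcon
  rw [not_or] at hcon
  -- the polynomial for one number
  have key : ∀ w : ℝ, ∑ i : Fin R, |w ^ ((i : ℕ) + 1)| + 1 ≤ B → ¬ GoodP R γ H w →
      ∃ P : ℤ[X], P ≠ 0 ∧ P.natDegree ≤ R ∧ (∀ k, |((P.coeff k : ℤ) : ℝ)| ≤ (H : ℝ) ^ γ * B) ∧
        |aeval w P| < (H : ℝ) ^ (-(1 / 2) : ℝ) := by
    intro w hw hnot
    unfold GoodP at hnot
    push Not at hnot
    obtain ⟨h, hh, hhγ, hlt⟩ := hnot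
    obtain ⟨i₀, hi₀⟩ : ∃ i, h i ≠ 0 := by
      by_contra hcon
      push Not at hcon
      exact hh (funext hcon)
    obtain ⟨s, hs⟩ : ∃ s : ℝ, s = ∑ i, (h i : ℝ) * w ^ ((i : ℕ) + 1) := ⟨_, rfl⟩
    rw [← hs] at hlt
    obtain ⟨p, hp⟩ : ∃ p : ℤ, p = round s := ⟨_, rfl⟩
    have hdz : dz s = |s - p| := by
      unfold dz
      rw [hp]
    have hs2 : |s| ≤ (H : ℝ) ^ γ * ∑ i : Fin R, |w ^ ((i : ℕ) + 1)| := by
      rw [hs, mul_sum]
      refine (abs_sum_le_sum_abs _ _).trans (sum_le_sum fun i _ => ?_)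
      rw [abs_mul]
      exact mul_le_mul_of_nonneg_right (hhγ i) (abs_nonneg _)
    have hp2 : |(p : ℝ)| ≤ (H : ℝ) ^ γ * B := by
      have h1 : |s - p| ≤ 1 / 2 := by
        rw [hp]
        exact abs_sub_round _
      have h2 : |(p : ℝ)| ≤ |s| + |s - p| := by
        have h3 : (p : ℝ) = s - (s - p) := by ring
        calc |(p : ℝ)| = |s - (s - p)| := by rw [← h3]
          _ ≤ _ := abs_sub _ _
      have h3 : (H : ℝ) ^ γ * (∑ i : Fin R, |w ^ ((i : ℕ) + 1)| + 1) ≤ (H : ℝ) ^ γ * B :=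
        mul_le_mul_of_nonneg_left hw (by linarith)
      linarith
    refine ⟨relP p h, ?_, relP_natDegree p h, fun k => relP_coeff_le p h _ hp2 (fun i => ?_) k, ?_⟩
    · intro h0
      apply hi₀
      rw [← relP_coeff_succ p h i₀, h0, coeff_zero]
    · refine (hhγ i).trans ?_
      have hw0 : 0 ≤ ∑ i : Fin R, |w ^ ((i : ℕ) + 1)| := sum_nonneg fun i _ => abs_nonneg _
      exact le_mul_of_one_le_right (by linarith) (by linarith)
    · rw [relP_aeval, ← hs, ← hdz, Real.rpow_neg hH0.le]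
      rw [← one_div, lt_div_iff₀ (by positivity), mul_comm]
      exact hlt
  obtain ⟨P, hP, hPd, hPc, hPu⟩ := key u (by linarith) hcon.1
  obtain ⟨Q, hQ, hQd, hQc, hQv⟩ := key v (by linarith) hcon.2
  have h2 := hm P Q hP hQ hPd hQd _ hPc hQc
  have h3 : c * ((H : ℝ) ^ γ * B) ^ (-κ) < (H : ℝ) ^ (-(1 / 2) : ℝ) :=
    lt_of_le_of_lt h2 (max_lt hPu hQv)
  rw [Real.mul_rpow (by positivity) hB0.le, ← Real.rpow_mul hH0.le] at h3
  have h4 : (H : ℝ) ^ (-(1 / 4) : ℝ) ≤ (H : ℝ) ^ (γ * -κ) := by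
    refine Real.rpow_le_rpow_of_exponent_le hH1' ?_
    have : γ * κ ≤ 1 / (4 * κ) * κ := mul_le_mul_of_nonneg_right hγκ hκ.le
    have h5 : 1 / (4 * κ) * κ = 1 / 4 := by field_simp
    linarith
  have h5 : c * ((H : ℝ) ^ (-(1 / 4) : ℝ) * B ^ (-κ)) < (H : ℝ) ^ (-(1 / 2) : ℝ) := by
    refine lt_of_le_of_lt ?_ h3
    exact mul_le_mul_of_nonneg_left (mul_le_mul_of_nonneg_right h4 (by positivity)) hc.le
  have h6 : (H : ℝ) ^ (-(1 / 2) : ℝ) = (H : ℝ) ^ (-(1 / 4) : ℝ) * ((H : ℝ) ^ (1 / 4 : ℝ))⁻¹ := by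
    rw [← Real.rpow_neg hH0.le, ← Real.rpow_add hH0]
    norm_num
  have h7 : c * B ^ (-κ) < ((H : ℝ) ^ (1 / 4 : ℝ))⁻¹ := by
    rw [h6] at h5
    have h8 : 0 < (H : ℝ) ^ (-(1 / 4) : ℝ) := by positivity
    have h9 : (H : ℝ) ^ (-(1 / 4) : ℝ) * (c * B ^ (-κ)) <
        (H : ℝ) ^ (-(1 / 4) : ℝ) * ((H : ℝ) ^ (1 / 4 : ℝ))⁻¹ := by linarith
    exact lt_of_mul_lt_mul_left h9 h8.le
  have h8 : (H : ℝ) ^ (1 / 4 : ℝ) < B ^ κ / c := by
    have h9 : 0 < (H : ℝ) ^ (1 / 4 : ℝ) := by positivity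
    rw [lt_inv_comm₀ (by positivity) h9, Real.rpow_neg hB0.le, mul_inv, inv_inv] at h7
    rw [div_eq_inv_mul (B ^ κ) c]
    exact h7
  linarith

end Pool.Agent.W2helper84.RB
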