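import Mathlib
import Pool.Agent.W2helper84.RB.Joint

/-!
# The fixed scale theorem for sets of matrices
-/

set_option autoImplicit false

namespace Pool.Agent.W2helper84.RB

open Finset Polynomial Filter
open Pool.Agent.R356 (JointR)
open Pool.Agent.TH456.TM (MeasT)

/-- the joint law of the classes of the digits is nearly uniform at the scale `H` -/
def RandAt (κ β : ℝ) (H : ℕ) {R : ℕ} (x : Fin R → ℝ) : Prop :=
  ∀ a k q : ℕ, 1 ≤ q → (k : ℝ) ≤ (Real.log H) ^ κ → (q : ℝ) ≤ Real.exp ((Real.log H) ^ β) →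
    ∀ E : Set (Fin R → Fin k → ℤ), (∀ w ∈ E, ∀ i j, 0 ≤ w i j ∧ w i j < q) →
      |(({b : ℕ | a < b ∧ b ≤ a + H ∧
          (fun (i : Fin R) (j : Fin k) => cls q b (x i) ((j : ℕ) + 2)) ∈ E}.ncard : ℕ) : ℝ) -
        H * ((E.ncard : ℝ) / (q : ℝ) ^ (R * k))| ≤ H * Real.exp (-(Real.log H) ^ β)

theorem set_form {R k : ℕ} (x : Fin R → ℝ) (H a q : ℕ) (ε : ℝ)
    (h : ∀ E : Finset (Fin R × Fin k → ℤ), (∀ w ∈ E, ∀ p, 0 ≤ w p ∧ w p < q) →
      |(((Ioc a (a + H)).filter fun b => (fun p : Fin R × Fin k => cls q b (x p.1) ((p.2 : ℕ) + 2)) ∈ E).card : ℝ) -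
        H * (E.card / (q : ℝ) ^ (R * k))| ≤ ε)
    (E : Set (Fin R → Fin k → ℤ)) (hE : ∀ w ∈ E, ∀ i j, 0 ≤ w i j ∧ w i j < q) :
    |(({b : ℕ | a < b ∧ b ≤ a + H ∧
          (fun (i : Fin R) (j : Fin k) => cls q b (x i) ((j : ℕ) + 2)) ∈ E}.ncard : ℕ) : ℝ) -
        H * ((E.ncard : ℝ) / (q : ℝ) ^ (R * k))| ≤ ε := by
  classical
  have hfin : E.Finite := by
    refine Set.Finite.subset (Set.Finite.pi' fun _ : Fin R => Set.Finite.pi' fun _ : Fin k =>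
      Set.finite_Ico (0 : ℤ) q) fun w hw => ?_
    intro i j
    exact hE w hw i j
  obtain ⟨F, hF⟩ : ∃ F : Finset (Fin R × Fin k → ℤ), F = hfin.toFinset.image
      (fun w => fun p : Fin R × Fin k => w p.1 p.2) := ⟨_, rfl⟩
  have hinj : Function.Injective
      (fun (w : Fin R → Fin k → ℤ) => fun p : Fin R × Fin k => w p.1 p.2) := by
    intro w w' hww
    funext i j
    exact congrFun hww (i, j)
  have hFc : F.card = E.ncard := by
    rw [hF, Finset.card_image_of_injective _ hinj, Set.ncard_eq_toFinset_card E hfin]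
  have h1 := h F (by
    intro w hw p
    rw [hF, Finset.mem_image] at hw
    obtain ⟨v, hv, rfl⟩ := hw
    exact hE v (hfin.mem_toFinset.1 hv) p.1 p.2)
  have h2 : {b : ℕ | a < b ∧ b ≤ a + H ∧
      (fun (i : Fin R) (j : Fin k) => cls q b (x i) ((j : ℕ) + 2)) ∈ E}.ncard =
      ((Finset.Ioc a (a + H)).filter fun b => (fun p : Fin R × Fin k =>
        cls q b (x p.1) ((p.2 : ℕ) + 2)) ∈ F).card := by
    rw [← Set.ncard_coe_finset]
    congr 1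
    ext b
    rw [Finset.coe_filter, Set.mem_ofPred_eq, Set.mem_ofPred_eq, Finset.mem_Ioc, and_assoc]
    refine and_congr_right fun _ => and_congr_right fun _ => ?_
    rw [hF, Finset.mem_image]
    constructor
    · intro hb
      exact ⟨_, hfin.mem_toFinset.2 hb, rfl⟩
    · rintro ⟨v, hv, hvb⟩
      have h3 : v = fun (i : Fin R) (j : Fin k) => cls q b (x i) ((j : ℕ) + 2) := by
        apply hinj
        exact hvb
      rw [← h3]
      exact hfin.mem_toFinset.1 hv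
  rw [h2, ← hFc]
  exact h1

/-- the fixed scale theorem -/
theorem randAt_of (R : ℕ) (κ β γ : ℝ) (hκ : 0 < κ) (hβ0 : 0 < β) (hβ : β < 1 - 3 * κ)
    (hγ0 : 0 < γ) : ∃ H₀ : ℕ, ∀ H : ℕ, H₀ ≤ H → ∀ x : Fin R → ℝ,
      (∀ h : Fin R → ℤ, h ≠ 0 → (∀ i, |(h i : ℝ)| ≤ (H : ℝ) ^ γ) →
        1 ≤ (H : ℝ) ^ (1 / 2 : ℝ) * dz (∑ i, (h i : ℝ) * x i)) → RandAt κ β H x := by
  obtain ⟨H₀, h⟩ := main_at R κ β γ hκ hβ0 hβ hγ0
  exact ⟨H₀, fun H hH x hx a k q hq hk hqβ E hE =>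
    set_form x H a q _ (fun F hF => h H hH x hx a k q hq hk hqβ F hF) E hE⟩

/-- two numbers, one scale -/
theorem randAt_joint {u v : ℝ} (hj : JointR u v) (R : ℕ) (κ β : ℝ) (hκ : 0 < κ) (hβ0 : 0 < β)
    (hβ : β < 1 - 3 * κ) : ∃ H₀ : ℕ, ∀ H : ℕ, H₀ ≤ H →
      RandAt κ β H (fun i : Fin R => u ^ ((i : ℕ) + 1)) ∨
      RandAt κ β H (fun i : Fin R => v ^ ((i : ℕ) + 1)) := by
  obtain ⟨γ, hγ, h1⟩ := joint_good hj R
  obtain ⟨H₁, h1⟩ := h1 γ hγ le_rfl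
  obtain ⟨H₂, h2⟩ := randAt_of R κ β γ hκ hβ0 hβ hγ
  refine ⟨max H₁ H₂, fun H hH => ?_⟩
  rcases h1 H ((le_max_left _ _).trans hH) with h3 | h3
  · exact Or.inl (h2 H ((le_max_right _ _).trans hH) _ h3)
  · exact Or.inr (h2 H ((le_max_right _ _).trans hH) _ h3)

/-- finitely many numbers, one scale -/
theorem randAt_family {m : ℕ} (u : Fin m → ℝ) (hu : ∀ i j, i ≠ j → JointR (u i) (u j)) (R : ℕ)
    (κ β : ℝ) (hκ : 0 < κ) (hβ0 : 0 < β) (hβ : β < 1 - 3 * κ) : ∃ H₀ : ℕ, ∀ H : ℕ, H₀ ≤ H →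
      ∀ i j, ¬ RandAt κ β H (fun l : Fin R => u i ^ ((l : ℕ) + 1)) →
        ¬ RandAt κ β H (fun l : Fin R => u j ^ ((l : ℕ) + 1)) → i = j := by
  classical
  have h1 : ∀ p : Fin m × Fin m, ∃ H₀ : ℕ, p.1 ≠ p.2 → ∀ H : ℕ, H₀ ≤ H →
      RandAt κ β H (fun i : Fin R => u p.1 ^ ((i : ℕ) + 1)) ∨
      RandAt κ β H (fun i : Fin R => u p.2 ^ ((i : ℕ) + 1)) := by
    intro p
    by_cases hp : p.1 = p.2
    · exact ⟨0, fun h => absurd hp h⟩
    · obtain ⟨H₀, h⟩ := randAt_joint (hu p.1 p.2 hp) R κ β hκ hβ0 hβ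
      exact ⟨H₀, fun _ => h⟩
  choose N hN using h1
  refine ⟨Finset.univ.sup N, fun H hH i j hi hj => ?_⟩
  by_contra hij
  rcases hN (i, j) hij H ((Finset.le_sup (f := N) (Finset.mem_univ _)).trans hH) with h | h
  · exact hi h
  · exact hj h

/-- from the real to the complex measure -/
theorem measT_of_measR {t : ℝ} (h : Pool.Agent.R473.EC.MeasR t) : MeasT (t : ℂ) := by
  intro D
  obtain ⟨κ, c, hκ, hc, h⟩ := h D
  refine ⟨κ, c, hκ, hc, fun P hP hPD H hH hPH => ?_⟩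
  rw [← Pool.Agent.TH456.TM.abs_aeval]
  exact h P hP hPD H hH hPH

/-- the special numbers -/
theorem jointR_special {z : ℝ} (hz : z = Real.exp 1 ∨ z = Real.pi ∨
      (∃ q : ℚ, 0 < q ∧ q ≠ 1 ∧ z = Real.log q) ∨ (Transcendental ℚ z ∧ ¬ UNumber z)) {u v : ℝ}
    (h : IsAlgebraic (Algebra.adjoin ℤ ({u, v} : Set ℝ)) z) : JointR u v :=
  Pool.Agent.R473.JC.jointR_of_alg z (measT_of_measR (measR_special hz)) u v h

end Pool.Agent.W2helper84.RB
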