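import Mathlib
import Pool.Agent.W2helper84.RB.SetForm

/-!
# Linearly dependent numbers do not have random digits
-/

set_option autoImplicit false

namespace Pool.Agent.W2helper84.RB

open Finset Polynomial Filter

/-- a digit class is close to the fractional part -/
theorem cls_near (q b : ℕ) (hb : 0 < b) (y : ℝ) (n : ℕ) :
    |(cls q b y (n + 1) : ℝ) - q * Int.fract (y * (b : ℝ) ^ n)| ≤ q / b + 1 := by
  have hbR : (0 : ℝ) < b := by exact_mod_cast hb
  obtain ⟨d, hd⟩ : ∃ d : ℤ, d = digit b y (n + 1) := ⟨_, rfl⟩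
  obtain ⟨f, hf⟩ : ∃ f : ℝ, f = Int.fract (y * (b : ℝ) ^ n) := ⟨_, rfl⟩
  -- the digit
  have h1 : (d : ℝ) ≤ b * f ∧ b * f < d + 1 := by
    have h2 : d = ⌊(b : ℝ) * f⌋ := by
      rw [hd, digit]
      have h3 : y * (b : ℝ) ^ (n + 1) = ((⌊y * (b : ℝ) ^ n⌋ * (b : ℤ) : ℤ) : ℝ) + b * f := by
        rw [hf, Int.fract]
        push_cast
        ring
      rw [h3, Int.floor_intCast_add, add_comm, Int.add_mul_emod_self_right]
      apply Int.emod_eq_of_lt
      · exact Int.floor_nonneg.2 (mul_nonneg hbR.le (by rw [hf]; exact Int.fract_nonneg _))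
      · rw [Int.floor_lt]
        have h4 : f < 1 := by rw [hf]; exact Int.fract_lt_one _
        push_cast
        nlinarith
    rw [h2]
    exact ⟨Int.floor_le _, Int.lt_floor_add_one _⟩
  -- the class
  have h2 : (cls q b y (n + 1) : ℝ) ≤ q * d / b ∧ (q : ℝ) * d / b < cls q b y (n + 1) + 1 := by
    have h3 : cls q b y (n + 1) = ((q : ℤ) * d) / (b : ℤ) := by rw [hd]; rfl
    have hb' : (0 : ℤ) < b := by exact_mod_cast hb
    rw [h3]
    constructor
    · rw [le_div_iff₀ hbR]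
      have h4 : ((q : ℤ) * d) / (b : ℤ) * b ≤ (q : ℤ) * d := Int.ediv_mul_le _ hb'.ne'
      exact_mod_cast h4
    · rw [div_lt_iff₀ hbR]
      have h4 : (q : ℤ) * d < (((q : ℤ) * d) / (b : ℤ) + 1) * b := Int.lt_ediv_add_one_mul_self _ hb'
      exact_mod_cast h4
  rw [← hf]
  have hq : (0 : ℝ) ≤ q := Nat.cast_nonneg q
  have h3 : (q : ℝ) * d / b ≤ q * f := by
    rw [div_le_iff₀ hbR]
    nlinarith [h1.1]
  have h4 : (q : ℝ) * f ≤ q * d / b + q / b := by
    rw [← add_div, le_div_iff₀ hbR]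
    nlinarith [h1.2]
  have h5 : (0 : ℝ) ≤ q / b := by positivity
  rw [abs_le]
  constructor
  · linarith [h2.2]
  · linarith [h2.1]

/-- **Dependent numbers.** -/
theorem not_randAt {R : ℕ} (x : Fin R → ℝ) (h : Fin R → ℤ) (hh : h ≠ 0) (p : ℤ)
    (hp : ∑ i, (h i : ℝ) * x i = p) (κ β : ℝ) (hκ : 0 < κ) (hβ : 0 < β) :
    ∃ H₀ : ℕ, ∀ H : ℕ, H₀ ≤ H → ¬ RandAt κ β H x := by
  obtain ⟨i₀, hi₀⟩ : ∃ i, h i ≠ 0 := by
    by_contra hcon
    push Not at hcon
    exact hh (funext hcon)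
  obtain ⟨A, hA⟩ : ∃ A : ℤ, A = ∑ i, |h i| := ⟨_, rfl⟩
  have hA1 : 1 ≤ |h i₀| := Int.one_le_abs hi₀
  have hAi : |h i₀| ≤ A := by
    rw [hA]
    exact single_le_sum (f := fun i => |h i|) (fun i _ => abs_nonneg _) (mem_univ i₀)
  have hA0 : 1 ≤ A := hA1.trans hAi
  obtain ⟨q, hq⟩ : ∃ q : ℕ, (q : ℤ) = 2 * |h i₀| * (2 * A + 1) :=
    ⟨(2 * |h i₀| * (2 * A + 1)).toNat, Int.toNat_of_nonneg (by positivity)⟩
  have hq1 : 1 ≤ q := by
    have : (0 : ℤ) < 2 * |h i₀| * (2 * A + 1) := by positivity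
    omega
  obtain ⟨ws, hws⟩ : ∃ ws : Fin R → Fin 1 → ℤ, ws = fun i _ => if i = i₀ then 2 * A + 1 else 0 :=
    ⟨_, rfl⟩
  have hqR : (1 : ℝ) ≤ q := by exact_mod_cast hq1
  -- large scales
  have hlog : Tendsto (fun H : ℕ => Real.log (H : ℝ)) atTop atTop :=
    Real.tendsto_log_atTop.comp tendsto_natCast_atTop_atTop
  have hev : ∀ᶠ t : ℝ in atTop, 1 ≤ t ^ κ ∧ Real.log q ≤ t ^ β ∧ Real.log ((q : ℝ) ^ (R + 1) + 1) ≤ t ^ β :=
    (ev_const_le κ 1 hκ).and ((ev_const_le β _ hβ).and (ev_const_le β _ hβ))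
  obtain ⟨H₀, hH₀⟩ := eventually_atTop.1 ((hlog.eventually hev).and (eventually_ge_atTop 1))
  refine ⟨H₀, fun H hH hR => ?_⟩
  obtain ⟨⟨h1, h2, h3⟩, hH1⟩ := hH₀ H hH
  have hHR : (1 : ℝ) ≤ H := by exact_mod_cast hH1
  have hw : ∀ w ∈ ({ws} : Set (Fin R → Fin 1 → ℤ)), ∀ i j, 0 ≤ w i j ∧ w i j < q := by
    intro w hw i j
    rw [Set.mem_singleton_iff.1 hw, hws]
    dsimp only
    split_ifs
    · constructor
      · omega
      · rw [hq]
        nlinarith
    · constructor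
      · exact le_rfl
      · omega
  have h4 := hR q 1 q hq1 (by simpa using h1) (by
    rw [← Real.log_le_iff_le_exp (by linarith)]
    exact h2) {ws} hw
  have h5 : {b : ℕ | q < b ∧ b ≤ q + H ∧
      (fun (i : Fin R) (j : Fin 1) => cls q b (x i) ((j : ℕ) + 2)) ∈ ({ws} : Set (Fin R → Fin 1 → ℤ))} = ∅ := by
    rw [Set.eq_empty_iff_forall_notMem]
    rintro b ⟨hqb, -, hb⟩
    rw [Set.mem_singleton_iff] at hb
    have hb0 : 0 < b := by omega
    have hbR : (0 : ℝ) < b := by exact_mod_cast hb0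
    have hqbR : (q : ℝ) / b ≤ 1 := by
      rw [div_le_one hbR]
      exact_mod_cast hqb.le
    -- the value of the sum
    have e1 : ∑ i, (h i : ℝ) * (cls q b (x i) 2 : ℝ) = h i₀ * (2 * A + 1) := by
      rw [sum_eq_single i₀]
      · have h6 := congrFun (congrFun hb i₀) 0
        rw [hws] at h6
        simp only [Fin.val_zero, zero_add, if_true] at h6
        rw [h6]
        push_cast
        ring
      · intro i _ hi
        have h6 := congrFun (congrFun hb i) 0
        rw [hws] at h6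
        simp only [Fin.val_zero, zero_add, if_neg hi] at h6
        rw [h6]
        simp
      · intro h6
        exact absurd (mem_univ _) h6
    -- it is near a multiple of `q`
    obtain ⟨m, hm⟩ : ∃ m : ℤ, ∑ i, (h i : ℝ) * Int.fract (x i * (b : ℝ) ^ 1) = m := by
      refine ⟨p * b - ∑ i, h i * ⌊x i * (b : ℝ) ^ 1⌋, ?_⟩
      push_cast
      rw [← hp, sum_mul, ← sum_sub_distrib]
      refine sum_congr rfl fun i _ => ?_
      rw [Int.fract]
      ring
    have e2 : |(h i₀ : ℝ) * (2 * A + 1) - q * m| ≤ 2 * A := by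
      rw [← e1, ← hm, mul_sum, ← sum_sub_distrib]
      refine (abs_sum_le_sum_abs _ _).trans ?_
      have h6 : (2 : ℝ) * A = ∑ i, |(h i : ℝ)| * 2 := by
        rw [hA]
        push_cast
        rw [mul_sum]
        exact sum_congr rfl fun i _ => mul_comm _ _
      rw [h6]
      refine sum_le_sum fun i _ => ?_
      have h7 := cls_near q b hb0 (x i) 1
      have h8 : (h i : ℝ) * (cls q b (x i) 2 : ℝ) - q * ((h i : ℝ) * Int.fract (x i * (b : ℝ) ^ 1)) =
          h i * ((cls q b (x i) (1 + 1) : ℝ) - q * Int.fract (x i * (b : ℝ) ^ 1)) := by ring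
      rw [h8, abs_mul]
      exact mul_le_mul_of_nonneg_left (by linarith) (abs_nonneg _)
    have e3 : |h i₀ * (2 * A + 1) - q * m| ≤ 2 * A := by exact_mod_cast e2
    -- but it is far
    have e4 : 2 * A + 1 ≤ |h i₀ * (2 * A + 1) - q * m| := by
      have h6 : h i₀ * (2 * A + 1) - q * m = (h i₀ - 2 * |h i₀| * m) * (2 * A + 1) := by
        rw [hq]
        ring
      rw [h6, abs_mul, abs_of_pos (show (0 : ℤ) < 2 * A + 1 by omega)]
      have h7 : 1 ≤ |h i₀ - 2 * |h i₀| * m| := by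
        apply Int.one_le_abs
        intro h8
        rcases abs_choice (h i₀) with h9 | h9
        · rw [h9] at h8
          have h10 : h i₀ * (1 - 2 * m) = 0 := by linarith
          rcases mul_eq_zero.1 h10 with h11 | h11
          · exact hi₀ h11
          · omega
        · rw [h9] at h8
          have h10 : h i₀ * (1 + 2 * m) = 0 := by linarith
          rcases mul_eq_zero.1 h10 with h11 | h11
          · exact hi₀ h11
          · omega
      nlinarith
    omega
  rw [h5, Set.ncard_empty, Set.ncard_singleton, Nat.cast_zero, zero_sub, abs_neg, mul_one] at h4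
  have h6 : (0 : ℝ) ≤ H * (((1 : ℕ) : ℝ) / (q : ℝ) ^ R) := by positivity
  rw [abs_of_nonneg h6] at h4
  have h7 : ((1 : ℕ) : ℝ) / (q : ℝ) ^ R ≤ Real.exp (-(Real.log H) ^ β) :=
    le_of_mul_le_mul_left h4 (by linarith)
  have h8 : Real.exp (-(Real.log H) ^ β) ≤ 1 / ((q : ℝ) ^ (R + 1) + 1) := by
    rw [Real.exp_neg, ← one_div]
    refine one_div_le_one_div_of_le (by positivity) ?_
    rw [← Real.log_le_iff_le_exp (by positivity)]
    exact h3
  have h9 : 1 / ((q : ℝ) ^ (R + 1) + 1) < 1 / (q : ℝ) ^ R := by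
    refine one_div_lt_one_div_of_lt (by positivity) ?_
    have : (q : ℝ) ^ R ≤ (q : ℝ) ^ (R + 1) := pow_le_pow_right₀ hqR (Nat.le_succ R)
    linarith
  rw [Nat.cast_one] at h7
  linarith

/-- algebraic numbers of degree at most `R` -/
theorem not_randAt_alg {R : ℕ} (x : ℝ) (P : ℤ[X]) (hP : P ≠ 0) (hPR : P.natDegree ≤ R)
    (hPx : aeval x P = 0) (κ β : ℝ) (hκ : 0 < κ) (hβ : 0 < β) :
    ∃ H₀ : ℕ, ∀ H : ℕ, H₀ ≤ H → ¬ RandAt κ β H (fun i : Fin R => x ^ ((i : ℕ) + 1)) := by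
  have h1 : aeval x P = ∑ i : Fin R, (P.coeff ((i : ℕ) + 1) : ℝ) * x ^ ((i : ℕ) + 1) + P.coeff 0 := by
    rw [aeval_eq_sum_range' (show P.natDegree < R + 1 by omega), sum_range_succ',
      Finset.sum_range (fun i => P.coeff (i + 1) • x ^ (i + 1))]
    simp
  refine not_randAt _ (fun i : Fin R => P.coeff ((i : ℕ) + 1)) ?_ (-P.coeff 0) ?_ κ β hκ hβ
  · intro h0
    apply hP
    have h2 : ∀ i : Fin R, P.coeff ((i : ℕ) + 1) = 0 := fun i => congrFun h0 i
    have h3 : P.coeff 0 = 0 := by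
      rw [hPx, sum_eq_zero, zero_add] at h1
      · exact_mod_cast h1.symm
      · intro i _
        rw [h2 i]
        simp
    ext n
    rw [coeff_zero]
    rcases n with _ | n
    · exact h3
    · by_cases hn : n < R
      · exact h2 ⟨n, hn⟩
      · exact coeff_eq_zero_of_natDegree_lt (by omega)
  · push_cast
    linarith

end Pool.Agent.W2helper84.RB
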