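import Mathlib
import Pool.Agent.W2helper84.RB.Alg
import Pool.Agent.Results.MP_58e087_nt.GoldenScales

/-!
# Scales without small relations between `1`, `e` and `θ`
-/

set_option autoImplicit false

namespace Pool.Agent.W2helper84.RB

open Finset Polynomial Filter
open Pool.Agent.W2helper71.LF (form)

theorem height_le_of (v : Fin 3 → ℤ) (T : ℝ) (hv : ∀ i, |(v i : ℝ)| ≤ T) :
    (Pool.Agent.W2helper71.LF.height v : ℝ) ≤ T := by
  unfold Pool.Agent.W2helper71.LF.height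
  obtain ⟨i, -, hi⟩ := Finset.exists_mem_eq_sup Finset.univ (Finset.univ_nonempty (α := Fin 3))
    (fun i => (v i).natAbs)
  rw [hi, Nat.cast_natAbs, Int.cast_abs]
  exact hv i

theorem scales (θ : ℝ) (hind : ∀ v : Fin 3 → ℤ, v ≠ 0 → form θ v ≠ 0) (H₁ : ℕ) :
    ∃ H : ℕ, H₁ ≤ H ∧ ∀ h : Fin 2 → ℤ, h ≠ 0 → (∀ i, |(h i : ℝ)| ≤ (H : ℝ) ^ (1 / 12 : ℝ)) →
      1 ≤ (H : ℝ) ^ (1 / 2 : ℝ) * dz (∑ i, (h i : ℝ) * (![Real.exp 1, θ] : Fin 2 → ℝ) i) := by
  obtain ⟨B, hB⟩ : ∃ B : ℝ, B = 2 + Real.exp 1 + |θ| := ⟨_, rfl⟩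
  have he := Real.exp_pos 1
  have hθ := abs_nonneg θ
  have hB1 : 1 ≤ B := by linarith
  have hB0 : 0 < B := by linarith
  have h5 : (3 + √5) / 2 < (3 : ℝ) := by
    have : √5 < 3 := by
      rw [Real.sqrt_lt' (by norm_num)]
      norm_num
    linarith
  have hB12 : 1 ≤ B ^ 12 := one_le_pow₀ hB1
  obtain ⟨T, hT, hform⟩ := (Pool.Agent.Results.MP_58e087_nt.GoldenScales.result θ).2 3 h5
    (2 * B ^ 12 + H₁ + 2)
  have hH1 : (0 : ℝ) ≤ H₁ := Nat.cast_nonneg _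
  have hT1 : 1 ≤ T := by linarith
  have hT0 : 0 < T := by linarith
  have hT6 : T ≤ T ^ 6 := le_self_pow₀ hT1 (by norm_num)
  have hbig : T ^ 6 + 1 ≤ (T / B) ^ 12 := by
    rw [div_pow, le_div_iff₀ (by positivity)]
    have e1 : T ^ 12 = T ^ 6 * T ^ 6 := by ring
    rw [e1]
    have e2 : 2 * B ^ 12 ≤ T ^ 6 := by linarith
    have e3 : T ^ 6 * (2 * B ^ 12) ≤ T ^ 6 * T ^ 6 := mul_le_mul_of_nonneg_left e2 (by positivity)
    have e4 : 1 * B ^ 12 ≤ T ^ 6 * B ^ 12 := mul_le_mul_of_nonneg_right (by linarith) (by positivity)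
    linarith
  obtain ⟨H, hH⟩ : ∃ H : ℕ, H = ⌊(T / B) ^ 12⌋₊ := ⟨_, rfl⟩
  have hHle : (H : ℝ) ≤ (T / B) ^ 12 := by rw [hH]; exact Nat.floor_le (by positivity)
  have hHge : T ^ 6 ≤ (H : ℝ) := by
    have := Nat.lt_floor_add_one ((T / B) ^ 12)
    rw [← hH] at this
    linarith
  have hHR : (1 : ℝ) ≤ H := by linarith
  have hH0 : (0 : ℝ) < H := by linarith
  have hHγ : (H : ℝ) ^ (1 / 12 : ℝ) * B ≤ T := by
    have h1 : (H : ℝ) ^ (1 / 12 : ℝ) ≤ ((T / B) ^ 12) ^ (1 / 12 : ℝ) :=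
      Real.rpow_le_rpow hH0.le hHle (by norm_num)
    have h2 : ((T / B) ^ 12) ^ (1 / 12 : ℝ) = T / B := by
      rw [← Real.rpow_natCast, ← Real.rpow_mul (by positivity)]
      norm_num
    rw [h2, le_div_iff₀ hB0] at h1
    exact h1
  have hHγ1 : 1 ≤ (H : ℝ) ^ (1 / 12 : ℝ) := Real.one_le_rpow hHR (by norm_num)
  have hHhalf : T ^ 3 ≤ (H : ℝ) ^ (1 / 2 : ℝ) := by
    have h1 : (T ^ 6) ^ (1 / 2 : ℝ) ≤ (H : ℝ) ^ (1 / 2 : ℝ) :=
      Real.rpow_le_rpow (by positivity) hHge (by norm_num)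
    have h2 : (T ^ 6) ^ (1 / 2 : ℝ) = T ^ 3 := by
      rw [← Real.rpow_natCast, ← Real.rpow_natCast, ← Real.rpow_mul hT0.le]
      norm_num
    rwa [h2] at h1
  refine ⟨H, ?_, fun h hh hhγ => ?_⟩
  · have h1 : (H₁ : ℝ) ≤ H := by linarith
    exact_mod_cast h1
  · rw [Fin.sum_univ_two]
    simp only [Matrix.cons_val_zero, Matrix.cons_val_one]
    obtain ⟨s, hs⟩ : ∃ s : ℝ, s = (h 0 : ℝ) * Real.exp 1 + (h 1 : ℝ) * θ := ⟨_, rfl⟩
    rw [← hs]
    obtain ⟨p, hp⟩ : ∃ p : ℤ, p = round s := ⟨_, rfl⟩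
    have hdz : dz s = |s - p| := by
      unfold dz
      rw [hp]
    have hs2 : |s| ≤ (H : ℝ) ^ (1 / 12 : ℝ) * (Real.exp 1 + |θ|) := by
      rw [hs]
      refine (abs_add_le _ _).trans ?_
      rw [abs_mul, abs_mul, abs_of_pos he, mul_add]
      exact add_le_add (mul_le_mul_of_nonneg_right (hhγ 0) he.le)
        (mul_le_mul_of_nonneg_right (hhγ 1) hθ)
    have hp2 : |(p : ℝ)| ≤ T := by
      have h1 : |s - p| ≤ 1 / 2 := by
        rw [hp]
        exact abs_sub_round _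
      have h2 : |(p : ℝ)| ≤ |s| + |s - p| := by
        have h3 : (p : ℝ) = s - (s - p) := by ring
        calc |(p : ℝ)| = |s - (s - p)| := by rw [← h3]
          _ ≤ _ := abs_sub _ _
      have h3 : (H : ℝ) ^ (1 / 12 : ℝ) * B = (H : ℝ) ^ (1 / 12 : ℝ) * (Real.exp 1 + |θ|) +
        (H : ℝ) ^ (1 / 12 : ℝ) * 2 := by rw [hB]; ring
      linarith
    obtain ⟨v, hv⟩ : ∃ v : Fin 3 → ℤ, v = ![-p, h 0, h 1] := ⟨_, rfl⟩
    have hv0 : v ≠ 0 := by
      intro h0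
      apply hh
      rw [hv] at h0
      funext i
      fin_cases i
      · exact congrFun h0 1
      · exact congrFun h0 2
    have hvs : form θ v = s - p := by
      unfold Pool.Agent.W2helper71.LF.form
      rw [hv, hs]
      simp
      ring
    have hvT : (Pool.Agent.W2helper71.LF.height v : ℝ) ≤ T := by
      refine height_le_of v T fun i => ?_
      have h1 : ∀ j, |(h j : ℝ)| ≤ T := fun j => (hhγ j).trans (by
        have : (H : ℝ) ^ (1 / 12 : ℝ) * 1 ≤ (H : ℝ) ^ (1 / 12 : ℝ) * B :=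
          mul_le_mul_of_nonneg_left hB1 (by linarith)
        linarith)
      rw [hv]
      fin_cases i
      · simpa using hp2
      · exact h1 0
      · exact h1 1
    rcases hform v hvT with h1 | h1
    · exact absurd h1 (hind v hv0)
    · rw [hvs, ← hdz] at h1
      have h2 : T ^ (-3 : ℝ) = (T ^ 3)⁻¹ := by
        rw [Real.rpow_neg hT0.le]
        norm_cast
      rw [h2] at h1
      have h3 : 1 < T ^ 3 * dz s := by
        rw [inv_lt_iff_one_lt_mul₀ (by positivity)] at h1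
        linarith
      refine h3.le.trans ?_
      exact mul_le_mul_of_nonneg_right hHhalf (dz_nonneg _)

/-- **The criterion.** -/
theorem criterion (θ : ℝ) (κ β : ℝ) (hκ : 0 < κ) (hβ : 0 < β) (hκβ : β < 1 - 3 * κ) :
    (∀ v : Fin 3 → ℤ, v ≠ 0 → form θ v ≠ 0) ↔
      ∀ H₁ : ℕ, ∃ H : ℕ, H₁ ≤ H ∧ RandAt κ β H ![Real.exp 1, θ] := by
  constructor
  · intro hind H₁
    obtain ⟨H₂, h2⟩ := randAt_of 2 κ β (1 / 12) hκ hβ hκβ (by norm_num)
    obtain ⟨H, hH, h⟩ := scales θ hind (max H₁ H₂)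
    exact ⟨H, (le_max_left _ _).trans hH, h2 H ((le_max_right _ _).trans hH) _ h⟩
  · intro h v hv hf
    have hne : (![v 1, v 2] : Fin 2 → ℤ) ≠ 0 := by
      intro h0
      have h1 : v 1 = 0 := congrFun h0 0
      have h2 : v 2 = 0 := congrFun h0 1
      apply hv
      unfold Pool.Agent.W2helper71.LF.form at hf
      rw [h1, h2] at hf
      have h3 : v 0 = 0 := by
        have : (v 0 : ℝ) = 0 := by simpa using hf
        exact_mod_cast this
      funext i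
      fin_cases i
      · exact h3
      · exact h1
      · exact h2
    obtain ⟨H₀, hH₀⟩ := not_randAt (![Real.exp 1, θ] : Fin 2 → ℝ) ![v 1, v 2] hne (-v 0) (by
      rw [Fin.sum_univ_two]
      simp only [Matrix.cons_val_zero, Matrix.cons_val_one]
      unfold Pool.Agent.W2helper71.LF.form at hf
      push_cast
      linarith) κ β hκ hβ
    obtain ⟨H, hH, hR⟩ := h H₀
    exact hH₀ H hH hR

end Pool.Agent.W2helper84.RB
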