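import Mathlib
import Pool.Agent.R356.Joint
import Pool.Agent.W2helper84.RB.Joint

/-!
# The uniform exponent of approximation by polynomials of bounded degree
-/

set_option autoImplicit false

namespace Pool.Agent.W2helper84.RB

open Finset Polynomial Filter

/-- the resultant of two irreducible polynomials which are not associated does not vanish -/
theorem resultant_ne_zero_int (P Q : ℤ[X]) (hP : Irreducible P) (hQ : Irreducible Q)
    (hP0 : 0 < P.natDegree) (hne : ¬ Associated P Q) :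
    resultant P Q ≠ 0 := by
  classical
  obtain ⟨ι, hι⟩ : ∃ ι : ℤ →+* ℚ, ι = algebraMap ℤ ℚ := ⟨_, rfl⟩
  have hinj : Function.Injective ι := by rw [hι]; exact IsFractionRing.injective _ _
  have hPp : P.IsPrimitive := hP.isPrimitive hP0.ne'
  have hP' : Irreducible (P.map ι) := by
    rw [hι]
    exact (IsPrimitive.irreducible_iff_irreducible_map_fraction_map (K := ℚ) hPp).1 hP
  have hcop : IsCoprime (P.map ι) (Q.map ι) := by
    refine (hP'.coprime_iff_not_dvd).2 fun hdvd => hne ?_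
    rw [hι] at hdvd
    have h1 : P ∣ Q := hPp.dvd_of_fraction_map_dvd_fraction_map (K := ℚ) hdvd
    exact (hP.dvd_irreducible_iff_associated hQ).1 h1
  have h2 := resultant_ne_zero _ _ hcop
  rw [natDegree_map_eq_of_injective hinj, natDegree_map_eq_of_injective hinj, resultant_map_map] at h2
  intro h0
  exact h2 (by rw [h0, map_zero])

/-- two different irreducible polynomials are not both small at `t` -/
theorem two_irr (D : ℕ) (t : ℂ) : ∃ C : ℝ, 0 < C ∧ ∀ P Q : ℤ[X], Irreducible P → Irreducible Q →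
    0 < P.natDegree → P.natDegree ≤ D → Q.natDegree ≤ D → ¬ Associated P Q →
    ∀ B ε : ℝ, 1 ≤ B → (∀ i, |(P.coeff i : ℝ)| ≤ B) → (∀ i, |(Q.coeff i : ℝ)| ≤ B) →
      ‖aeval t P‖ ≤ ε → ‖aeval t Q‖ ≤ ε → 1 ≤ C * B ^ (2 * D) * ε := by
  obtain ⟨T, hT⟩ : ∃ T : ℝ, T = max 1 ‖t‖ := ⟨_, rfl⟩
  have hT1 : 1 ≤ T := by rw [hT]; exact le_max_left _ _
  have htT : ‖t‖ ≤ T := by rw [hT]; exact le_max_right _ _
  refine ⟨(2 * D + 1) * T ^ (2 * D) * (2 * D).factorial, by positivity, ?_⟩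
  intro P Q hP hQ hP0 hPD hQD hne B ε hB hPB hQB hPε hQε
  have hε : 0 ≤ ε := (norm_nonneg _).trans hPε
  have hmn : P.natDegree + Q.natDegree ≤ 2 * D := by omega
  have h1 := Pool.Agent.TH647.NR.norm_resultant_le (P.map (Int.castRingHom ℂ)) (Q.map (Int.castRingHom ℂ))
    P.natDegree Q.natDegree natDegree_map_le natDegree_map_le (by omega) B T ε hB
    (fun i => by rw [coeff_map, eq_intCast, Complex.norm_intCast]; exact hPB i)
    (fun i => by rw [coeff_map, eq_intCast, Complex.norm_intCast]; exact hQB i) t hT1 htT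
    (by rw [eval_map]; exact hPε) (by rw [eval_map]; exact hQε)
  rw [resultant_map_map, eq_intCast, Complex.norm_intCast] at h1
  have h2 : (1 : ℝ) ≤ |((resultant P Q : ℤ) : ℝ)| := by
    have h3 := Int.one_le_abs (resultant_ne_zero_int P Q hP hQ hP0 hne)
    exact_mod_cast h3
  refine (h2.trans h1).trans ?_
  have h3 : ((P.natDegree : ℝ) + Q.natDegree) ≤ 2 * D + 1 := by
    have : ((P.natDegree + Q.natDegree : ℕ) : ℝ) ≤ ((2 * D : ℕ) : ℝ) := by exact_mod_cast hmn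
    push_cast at this
    linarith
  have h4 : T ^ (P.natDegree + Q.natDegree) ≤ T ^ (2 * D) := pow_le_pow_right₀ hT1 hmn
  have h5 : (((P.natDegree + Q.natDegree).factorial : ℕ) : ℝ) ≤ ((2 * D).factorial : ℕ) := by
    exact_mod_cast Nat.factorial_le hmn
  have h6 : B ^ (P.natDegree + Q.natDegree) ≤ B ^ (2 * D) := pow_le_pow_right₀ hB hmn
  calc _ ≤ (2 * D + 1) * (T ^ (2 * D) * ε) * ((2 * D).factorial * B ^ (2 * D)) := by
        gcongr
    _ = _ := by ring

theorem norm_aeval_associated (t : ℂ) {P Q : ℤ[X]} (h : Associated P Q) :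
    ‖aeval t P‖ = ‖aeval t Q‖ := by
  obtain ⟨u, hu⟩ := h
  obtain ⟨r, hr, hru⟩ := Polynomial.isUnit_iff.1 u.isUnit
  rw [← hu, map_mul, norm_mul, ← hru, aeval_C, eq_intCast, Complex.norm_intCast]
  rcases Int.isUnit_iff.1 hr with h | h <;> rw [h] <;> simp

/-- **The uniform exponent is finite.** -/
theorem uniform_exponent (D : ℕ) (t : ℂ)
    (ht : ∀ P : ℤ[X], P ≠ 0 → P.natDegree ≤ D → aeval t P ≠ 0) (j₀ : ℕ) :
    ∃ j : ℕ, j₀ ≤ j ∧ ∀ P : ℤ[X], P ≠ 0 → P.natDegree ≤ D →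
      (∀ i, |(P.coeff i : ℝ)| ≤ 2 ^ j) →
      1 ≤ ((2 : ℝ) ^ j) ^ ((2 * D + 1) * D) * ‖aeval t P‖ := by
  classical
  by_contra hcon
  push Not at hcon
  obtain ⟨K, hK⟩ : ∃ K : ℝ, K = 2 ^ D * (D + 1) := ⟨_, rfl⟩
  have hK1 : 1 ≤ K := by
    rw [hK]
    have h1 : (1 : ℝ) ≤ 2 ^ D := one_le_pow₀ (by norm_num)
    have h2 : (0 : ℝ) ≤ D := by positivity
    nlinarith
  obtain ⟨δ, hδ⟩ : ∃ δ : ℕ → ℝ, δ = fun j => (((2 : ℝ) ^ j) ^ (2 * D + 1))⁻¹ := ⟨_, rfl⟩
  have hδ0 : ∀ j, 0 < δ j := fun j => by rw [hδ]; positivity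
  have hδ1 : ∀ j, δ j ≤ 1 := fun j => by
    rw [hδ]
    exact inv_le_one_of_one_le₀ (one_le_pow₀ (one_le_pow₀ (by norm_num)))
  -- small irreducible polynomials
  have key : ∀ j, j₀ ≤ j → ∃ q : ℤ[X], Irreducible q ∧ 0 < q.natDegree ∧ q.natDegree ≤ D ∧
      (∀ i, |(q.coeff i : ℝ)| ≤ K * 2 ^ j) ∧ ‖aeval t q‖ < δ j := by
    intro j hj
    obtain ⟨P, hP, hPD, hPH, hlt⟩ := hcon j hj
    have h1 : ∃ q : ℤ[X], Irreducible q ∧ q ∣ P ∧ ‖aeval t q‖ < δ j := by
      by_contra hcon2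
      push Not at hcon2
      have h2 := Pool.Agent.R356.value_of_factors t (δ j) (hδ0 j) (hδ1 j) P hP hcon2
      have h3 : δ j ^ D ≤ δ j ^ P.natDegree := pow_le_pow_of_le_one (hδ0 j).le (hδ1 j) hPD
      have h4 : δ j ^ D = (((2 : ℝ) ^ j) ^ ((2 * D + 1) * D))⁻¹ := by
        rw [hδ]
        dsimp only
        rw [inv_pow, ← pow_mul]
      have h5 : 0 < ((2 : ℝ) ^ j) ^ ((2 * D + 1) * D) := by positivity
      have h6 : (((2 : ℝ) ^ j) ^ ((2 * D + 1) * D))⁻¹ ≤ ‖aeval t P‖ := by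
        rw [← h4]
        exact h3.trans h2
      rw [inv_le_iff_one_le_mul₀ h5] at h6
      linarith
    obtain ⟨q, hq, ⟨r, hr⟩, hlt2⟩ := h1
    have hq0 : q ≠ 0 := hq.ne_zero
    have hr0 : r ≠ 0 := by
      rintro rfl
      rw [mul_zero] at hr
      exact hP hr
    have h1 := natDegree_mul hq0 hr0
    rw [← hr] at h1
    refine ⟨q, hq, ?_, by omega, fun i => ?_, hlt2⟩
    · rw [Nat.pos_iff_ne_zero]
      intro hd
      have h2 : q = C (q.coeff 0) := eq_C_of_natDegree_eq_zero hd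
      have h3 : q.coeff 0 ≠ 0 := fun h => hq0 (by rw [h2, h, C_0])
      have h4 : (1 : ℝ) ≤ ‖aeval t q‖ := by
        rw [h2, aeval_C, eq_intCast, Complex.norm_intCast, ← Int.cast_abs]
        exact_mod_cast Int.one_le_abs h3
      linarith [hδ1 j]
    · rw [hK]
      exact Pool.Agent.R356.height_factor D q r hq0 hr0 (by rw [← hr]; exact hPD) (2 ^ j)
        (fun k => by rw [← hr]; exact hPH k) i
  choose! q hq hq0 hqD hqH hqδ using key
  obtain ⟨C, hC, htwo⟩ := two_irr D t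
  -- they are all associated
  obtain ⟨C', hC'⟩ : ∃ C' : ℝ, C' = C * (2 * K) ^ (2 * D) := ⟨_, rfl⟩
  obtain ⟨j₁, hj₁⟩ := pow_unbounded_of_one_lt C' (show (1 : ℝ) < 2 by norm_num)
  have hass : ∀ j, max j₀ j₁ ≤ j → Associated (q j) (q (j + 1)) := by
    intro j hj
    by_contra hne
    have hjj : j₀ ≤ j := (le_max_left _ _).trans hj
    have hpow : (0 : ℝ) < 2 ^ j := by positivity
    have h1 := htwo (q j) (q (j + 1)) (hq j hjj) (hq (j + 1) (by omega)) (hq0 j hjj) (hqD j hjj)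
      (hqD (j + 1) (by omega)) hne (2 * K * 2 ^ j) (δ j) (by
        have : (1 : ℝ) ≤ 2 ^ j := one_le_pow₀ (by norm_num)
        nlinarith) (fun i => (hqH j hjj i).trans (by nlinarith)) (fun i => by
          refine (hqH (j + 1) (by omega) i).trans (le_of_eq ?_)
          rw [pow_succ]
          ring) (hqδ j hjj).le (by
          refine (hqδ (j + 1) (by omega)).le.trans ?_
          rw [hδ]
          dsimp only
          gcongr
          · norm_num
          · exact Nat.le_succ j)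
    have h2 : C * (2 * K * 2 ^ j) ^ (2 * D) * δ j = C' * (2 ^ j)⁻¹ := by
      rw [hδ, hC']
      dsimp only
      rw [mul_pow, pow_succ ((2 : ℝ) ^ j) (2 * D), mul_inv]
      field_simp
    rw [h2, ← div_eq_mul_inv, le_div_iff₀ hpow, one_mul] at h1
    have h3 : (2 : ℝ) ^ j₁ ≤ 2 ^ j := pow_le_pow_right₀ (by norm_num) ((le_max_right _ _).trans hj)
    linarith
  obtain ⟨j₂, hj₂⟩ : ∃ j₂ : ℕ, j₂ = max j₀ j₁ := ⟨_, rfl⟩
  rw [← hj₂] at hass
  have hj₂₀ : j₀ ≤ j₂ := by rw [hj₂]; exact le_max_left _ _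
  have hass' : ∀ n, Associated (q j₂) (q (j₂ + n)) := by
    intro n
    induction n with
    | zero => exact Associated.refl _
    | succ n ih => exact ih.trans (hass (j₂ + n) (by omega))
  have hsmall : ∀ n : ℕ, ‖aeval t (q j₂)‖ < ((2 : ℝ) ^ n)⁻¹ := by
    intro n
    rw [norm_aeval_associated t (hass' n)]
    refine (hqδ (j₂ + n) (by omega)).trans_le ?_
    rw [hδ]
    dsimp only
    refine inv_anti₀ (by positivity) ?_
    calc (2 : ℝ) ^ n ≤ 2 ^ (j₂ + n) := pow_le_pow_right₀ (by norm_num) (by omega)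
      _ = (2 ^ (j₂ + n)) ^ 1 := (pow_one _).symm
      _ ≤ (2 ^ (j₂ + n)) ^ (2 * D + 1) := pow_le_pow_right₀ (one_le_pow₀ (by norm_num)) (by omega)
  have hpos : 0 < ‖aeval t (q j₂)‖ := norm_pos_iff.2 (ht _ (hq j₂ hj₂₀).ne_zero (hqD j₂ hj₂₀))
  obtain ⟨n, hn⟩ := pow_unbounded_of_one_lt (‖aeval t (q j₂)‖)⁻¹ (show (1 : ℝ) < 2 by norm_num)
  have h1 := hsmall n
  rw [lt_inv_comm₀ hpos (by positivity)] at h1
  linarith

end Pool.Agent.W2helper84.RB
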