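import Mathlib
import Pool.Agent.W2helper84.RB.Uni
import Pool.Agent.W2helper84.RB.Alg

/-!
# Long ranges of scales with random digits
-/

set_option autoImplicit false

namespace Pool.Agent.W2helper84.RB

open Finset Polynomial Filter

/-- large values of polynomials give good scales -/
theorem goodP_of (R : ℕ) (x γ T M : ℝ) (H : ℕ) (hH : 1 ≤ H) (hγ : 0 < γ)
    (hP : ∀ P : ℤ[X], P ≠ 0 → P.natDegree ≤ R → (∀ i, |(P.coeff i : ℝ)| ≤ T) → 1 ≤ M * |aeval x P|)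
    (hM : M ≤ (H : ℝ) ^ (1 / 2 : ℝ))
    (hT : (H : ℝ) ^ γ * (∑ i : Fin R, |x ^ ((i : ℕ) + 1)| + 1) ≤ T) : GoodP R γ H x := by
  intro h hh hhγ
  have hHR : (1 : ℝ) ≤ H := by exact_mod_cast hH
  have hHγ : 1 ≤ (H : ℝ) ^ γ := Real.one_le_rpow hHR hγ.le
  have hsum : 0 ≤ ∑ i : Fin R, |x ^ ((i : ℕ) + 1)| := sum_nonneg fun i _ => abs_nonneg _
  obtain ⟨i₀, hi₀⟩ : ∃ i, h i ≠ 0 := by
    by_contra hcon
    push Not at hcon
    exact hh (funext hcon)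
  obtain ⟨s, hs⟩ : ∃ s : ℝ, s = ∑ i, (h i : ℝ) * x ^ ((i : ℕ) + 1) := ⟨_, rfl⟩
  rw [← hs]
  obtain ⟨p, hp⟩ : ∃ p : ℤ, p = round s := ⟨_, rfl⟩
  have hdz : dz s = |s - p| := by
    unfold dz
    rw [hp]
  have hs2 : |s| ≤ (H : ℝ) ^ γ * ∑ i : Fin R, |x ^ ((i : ℕ) + 1)| := by
    rw [hs, mul_sum]
    refine (abs_sum_le_sum_abs _ _).trans (sum_le_sum fun i _ => ?_)
    rw [abs_mul]
    exact mul_le_mul_of_nonneg_right (hhγ i) (abs_nonneg _)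
  have hp2 : |(p : ℝ)| ≤ T := by
    have h1 : |s - p| ≤ 1 / 2 := by
      rw [hp]
      exact abs_sub_round _
    have h2 : |(p : ℝ)| ≤ |s| + |s - p| := by
      have h3 : (p : ℝ) = s - (s - p) := by ring
      calc |(p : ℝ)| = |s - (s - p)| := by rw [← h3]
        _ ≤ _ := abs_sub _ _
    linarith
  have h1 := hP (relP p h) (by
    intro h0
    apply hi₀
    rw [← relP_coeff_succ p h i₀, h0, coeff_zero]) (relP_natDegree p h)
    (fun k => relP_coeff_le p h _ hp2 (fun i => by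
      refine (hhγ i).trans ?_
      have : (H : ℝ) ^ γ * 1 ≤ (H : ℝ) ^ γ * (∑ i : Fin R, |x ^ ((i : ℕ) + 1)| + 1) :=
        mul_le_mul_of_nonneg_left (by linarith) (by linarith)
      linarith) k)
  rw [relP_aeval, ← hs, ← hdz] at h1
  exact h1.trans (mul_le_mul_of_nonneg_right hM (dz_nonneg _))

/-- long ranges of good scales -/
theorem good_ranges (R : ℕ) (x : ℝ)
    (hx : ∀ P : ℤ[X], P ≠ 0 → P.natDegree ≤ R → aeval x P ≠ 0) (A : ℕ) :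
    ∃ γ : ℝ, 0 < γ ∧ ∀ N : ℕ, ∃ H₁ : ℕ, N ≤ H₁ ∧ ∀ H : ℕ, H₁ ≤ H → H ≤ H₁ ^ A →
      GoodP R γ H x := by
  obtain ⟨W, hW⟩ : ∃ W : ℕ, W = (2 * R + 1) * R + 1 := ⟨_, rfl⟩
  have hW1 : 1 ≤ W := by omega
  have hWR : (1 : ℝ) ≤ W := by exact_mod_cast hW1
  have hAR : (0 : ℝ) ≤ A := Nat.cast_nonneg A
  refine ⟨1 / (4 * W * (A + 1)), by positivity, fun N => ?_⟩
  obtain ⟨B, hB⟩ : ∃ B : ℝ, B = ∑ i : Fin R, |x ^ ((i : ℕ) + 1)| + 1 := ⟨_, rfl⟩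
  have hsum : 0 ≤ ∑ i : Fin R, |x ^ ((i : ℕ) + 1)| := sum_nonneg fun i _ => abs_nonneg _
  have hB1 : 1 ≤ B := by linarith
  obtain ⟨j₁, hj₁⟩ := pow_unbounded_of_one_lt (B ^ 2) (show (1 : ℝ) < 2 by norm_num)
  obtain ⟨j, hj, hP⟩ := uniform_exponent R (x : ℂ) (fun P hP hPR h0 => hx P hP hPR (by
    have h1 := Pool.Agent.TH456.TM.abs_aeval x P
    rw [h0, norm_zero] at h1
    exact abs_eq_zero.1 h1)) (max N j₁)
  have hjN : N ≤ j := (le_max_left _ _).trans hj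
  have hjj : j₁ ≤ j := (le_max_right _ _).trans hj
  obtain ⟨T, hT⟩ : ∃ T : ℕ, T = 2 ^ j := ⟨_, rfl⟩
  have hTR : (T : ℝ) = 2 ^ j := by rw [hT]; push_cast; rfl
  have hT1 : 1 ≤ T := by rw [hT]; exact Nat.one_le_two_pow
  have hT1R : (1 : ℝ) ≤ T := by exact_mod_cast hT1
  have hT0R : (0 : ℝ) < T := by linarith
  have hBT : B ^ 2 ≤ T := by
    rw [hTR]
    exact hj₁.le.trans (pow_le_pow_right₀ (by norm_num) hjj)
  refine ⟨T ^ (2 * W), ?_, fun H hH1 hH2 => ?_⟩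
  · calc N ≤ j := hjN
      _ ≤ 2 ^ j := Nat.lt_two_pow_self.le
      _ = T ^ 1 := by rw [hT, pow_one]
      _ ≤ T ^ (2 * W) := Nat.pow_le_pow_right hT1 (by omega)
  · have hHge : (T : ℝ) ^ (2 * W) ≤ H := by exact_mod_cast hH1
    have hHle : (H : ℝ) ≤ (T : ℝ) ^ (2 * W * A) := by
      have h1 : (H : ℝ) ≤ ((T : ℝ) ^ (2 * W)) ^ A := by exact_mod_cast hH2
      rwa [← pow_mul] at h1
    have hH1' : (1 : ℝ) ≤ H := (one_le_pow₀ hT1R).trans hHge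
    refine goodP_of R x _ T ((T : ℝ) ^ W) H (by exact_mod_cast hH1') (by positivity) ?_ ?_ ?_
    · intro P hP0 hPR hPT
      have h1 := hP P hP0 hPR (fun i => by rw [← hTR]; exact hPT i)
      rw [← Pool.Agent.TH456.TM.abs_aeval, ← hTR] at h1
      refine h1.trans (mul_le_mul_of_nonneg_right ?_ (abs_nonneg _))
      exact pow_le_pow_right₀ hT1R (by omega)
    · have h1 : ((T : ℝ) ^ (2 * W)) ^ (1 / 2 : ℝ) ≤ (H : ℝ) ^ (1 / 2 : ℝ) :=
        Real.rpow_le_rpow (by positivity) hHge (by norm_num)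
      have h2 : ((T : ℝ) ^ (2 * W)) ^ (1 / 2 : ℝ) = (T : ℝ) ^ W := by
        rw [← Real.rpow_natCast, ← Real.rpow_natCast, ← Real.rpow_mul hT0R.le]
        push_cast
        congr 1
        ring
      rwa [h2] at h1
    · rw [← hB]
      have h1 : (H : ℝ) ^ (1 / (4 * (W : ℝ) * (A + 1))) ≤ (T : ℝ) ^ (1 / 2 : ℝ) := by
        refine (Real.rpow_le_rpow (by linarith) hHle (by positivity)).trans ?_
        rw [← Real.rpow_natCast, ← Real.rpow_mul hT0R.le]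
        refine Real.rpow_le_rpow_of_exponent_le hT1R ?_
        push_cast
        rw [mul_one_div, div_le_div_iff₀ (by positivity) (by norm_num)]
        nlinarith
      have h2 : B ≤ (T : ℝ) ^ (1 / 2 : ℝ) := by
        rw [← Real.sqrt_eq_rpow]
        exact Real.le_sqrt_of_sq_le hBT
      have h3 : (T : ℝ) ^ (1 / 2 : ℝ) * (T : ℝ) ^ (1 / 2 : ℝ) = T := by
        rw [← Real.rpow_add hT0R]
        norm_num
      calc _ ≤ (T : ℝ) ^ (1 / 2 : ℝ) * (T : ℝ) ^ (1 / 2 : ℝ) :=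
            mul_le_mul h1 h2 (by linarith) (by positivity)
        _ = T := h3

/-- **Random digits in long ranges of scales.** -/
theorem randAt_ranges (R : ℕ) (x : ℝ)
    (hx : ∀ P : ℤ[X], P ≠ 0 → P.natDegree ≤ R → aeval x P ≠ 0) (κ β : ℝ) (hκ : 0 < κ)
    (hβ0 : 0 < β) (hβ : β < 1 - 3 * κ) (A N : ℕ) :
    ∃ H₁ : ℕ, N ≤ H₁ ∧ ∀ H : ℕ, H₁ ≤ H → H ≤ H₁ ^ A →
      RandAt κ β H (fun i : Fin R => x ^ ((i : ℕ) + 1)) := by
  obtain ⟨γ, hγ, h1⟩ := good_ranges R x hx A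
  obtain ⟨H₀, h2⟩ := randAt_of R κ β γ hκ hβ0 hβ hγ
  obtain ⟨H₁, hH₁, h3⟩ := h1 (max N H₀)
  exact ⟨H₁, (le_max_left _ _).trans hH₁, fun H hH hHA =>
    h2 H (((le_max_right _ _).trans hH₁).trans hH) _ (h3 H hH hHA)⟩

/-- powers are linearly independent -/
theorem li_powers (R : ℕ) (x : ℝ)
    (hxR : ∀ P : ℤ[X], P ≠ 0 → P.natDegree ≤ R → aeval x P ≠ 0) :
    LinearIndependent ℚ (Fin.cons 1 (fun i : Fin R => x ^ ((i : ℕ) + 1)) : Fin (R + 1) → ℝ) := by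
  rw [← LinearIndependent.iff_fractionRing ℤ ℚ, Fintype.linearIndependent_iff]
  intro g hg i
  by_contra hi
  obtain ⟨P, hP⟩ : ∃ P : ℤ[X], P = ∑ j : Fin (R + 1), C (g j) * X ^ (j : ℕ) := ⟨_, rfl⟩
  have hc : ∀ j : Fin (R + 1), P.coeff j = g j := by
    intro j
    rw [hP, finsetSum_coeff, sum_eq_single j]
    · rw [coeff_C_mul, coeff_X_pow_self, mul_one]
    · intro k _ hk
      rw [coeff_C_mul, coeff_X_pow, if_neg, mul_zero]
      intro h1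
      apply hk
      ext
      omega
    · intro h1
      exact absurd (mem_univ _) h1
  refine hxR P (fun h0 => hi ?_) ?_ ?_
  · rw [← hc i, h0, coeff_zero]
  · rw [hP]
    refine natDegree_sum_le_of_forall_le _ _ fun j _ => ?_
    refine (natDegree_C_mul_X_pow_le _ _).trans ?_
    have := j.2
    omega
  · rw [hP, map_sum, ← hg]
    refine sum_congr rfl fun j _ => ?_
    rw [map_mul, aeval_C, map_pow, aeval_X]
    refine Fin.cases ?_ (fun k => ?_) j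
    · simp
    · simp


theorem alg_pow (x : ℝ) (hx : IsAlgebraic ℚ x) (z : ℝ) (n : ℕ) :
    IsAlgebraic (IntermediateField.adjoin ℚ ({z} : Set ℝ)) (x ^ n) := by
  have h1 : IsAlgebraic ℚ (x ^ n) := hx.pow n
  exact h1.tower_top _

/-- tuples with a measure -/
theorem randAt_meas {R : ℕ} (x : Fin R → ℝ) (hx : Meas x) (κ β : ℝ) (hκ : 0 < κ)
    (hβ0 : 0 < β) (hβ : β < 1 - 3 * κ) : ∃ H₀ : ℕ, ∀ H : ℕ, H₀ ≤ H → RandAt κ β H x := by
  obtain ⟨H₀, h⟩ := main x hx κ β hκ hβ0 hβ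
  exact ⟨H₀, fun H hH a k q hq hk hqβ E hE =>
    set_form x H a q _ (fun F hF => h H hH a k q hq hk hqβ F hF) E hE⟩

theorem meas_powers (R : ℕ) (x : ℝ) (hx : IsAlgebraic ℚ x)
    (hxR : ∀ P : ℤ[X], P ≠ 0 → P.natDegree ≤ R → aeval x P ≠ 0) :
    Meas (fun i : Fin R => x ^ ((i : ℕ) + 1)) :=
  meas_of_li (measR_special (z := Real.exp 1) (Or.inl rfl)) _ (fun i => alg_pow x hx _ _)
    (li_powers R x hxR)

/-- **Algebraic numbers of degree larger than `R`.** -/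
theorem randAt_alg (R : ℕ) (x : ℝ) (hx : IsAlgebraic ℚ x)
    (hxR : ∀ P : ℤ[X], P ≠ 0 → P.natDegree ≤ R → aeval x P ≠ 0) (κ β : ℝ) (hκ : 0 < κ)
    (hβ0 : 0 < β) (hβ : β < 1 - 3 * κ) :
    ∃ H₀ : ℕ, ∀ H : ℕ, H₀ ≤ H → RandAt κ β H (fun i : Fin R => x ^ ((i : ℕ) + 1)) :=
  randAt_meas _ (meas_powers R x hx hxR) κ β hκ hβ0 hβ

end Pool.Agent.W2helper84.RB
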